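import Pool.Agent.helper11.RPQ.SpecU
import Pool.Agent.helper65.RPQ.KO
import Pool.Agent.helper6.RS.INB

/-!
# Row rpq:DET (MP_07c750_an): the deterministic conclusion
-/

set_option autoImplicit false

open scoped MatrixGroups ContDiff Topology UpperHalfPlane ComplexConjugate
open UpperHalfPlane MeasureTheory Filter Set

namespace Pool.Agent.RPQ

open Pool.Agent.RS
open Pool.Agent.MS (BA BB st pf gk Dk amk)

/-! ## Scaling -/

theorem DET_lap (c : ℝ) (φ : ℍ → ℂ) (z : ℍ) : QU.lap (fun z => (c : ℂ) * φ z) z = (c : ℂ) * QU.lap φ z := by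
  have h0 : QU.onC (fun z => (c : ℂ) * φ z) = c • QU.onC φ := by
    funext w
    show (c : ℂ) * φ _ = c • φ _
    rw [Complex.real_smul]
  have h1 : fderiv ℝ (QU.onC (fun z => (c : ℂ) * φ z)) = c • fderiv ℝ (QU.onC φ) := by
    rw [h0]
    exact fderiv_const_smul_field (𝕜 := ℝ) (f := QU.onC φ) c
  have h2 : fderiv ℝ (fderiv ℝ (QU.onC (fun z => (c : ℂ) * φ z))) = c • fderiv ℝ (fderiv ℝ (QU.onC φ)) := by
    rw [h1]
    exact fderiv_const_smul_field (𝕜 := ℝ) (f := fderiv ℝ (QU.onC φ)) c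
  have h3 : ∀ u v : ℂ, (fderiv ℝ (fderiv ℝ (QU.onC (fun z => (c : ℂ) * φ z))) (z : ℂ)) u v = (c : ℂ) * (fderiv ℝ (fderiv ℝ (QU.onC φ)) (z : ℂ)) u v := by
    intro u v
    rw [h2]
    show (c • fderiv ℝ (fderiv ℝ (QU.onC φ)) (z : ℂ)) u v = _
    show c • ((fderiv ℝ (fderiv ℝ (QU.onC φ)) (z : ℂ)) u v) = _
    rw [Complex.real_smul]
  unfold QU.lap
  rw [h3, h3]
  simp only [Complex.real_smul]
  ring

theorem DET_cd (c : ℝ) (n : WithTop ℕ∞) (φ : ℍ → ℂ) (h : QU.CD n φ) : QU.CD n (fun z => (c : ℂ) * φ z) := by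
  have h0 : QU.onC (fun z => (c : ℂ) * φ z) = fun w => (c : ℂ) * QU.onC φ w := rfl
  unfold QU.CD
  rw [h0]
  exact contDiffOn_const.mul h

theorem DET_quasi (Γ : Subgroup SL(2, ℝ)) (κ : ℝ → ℝ) (C0 a R ρ ϵ μ c : ℝ) (V : ℍ → ℝ) (φ : ℍ → ℂ) (h : Quasi Γ κ C0 a R ρ ϵ μ V φ) :
    Quasi Γ κ C0 a R ρ ϵ μ V (fun z => (c : ℂ) * φ z) := by
  refine ⟨h.mol, h.inv, h.rho0, h.rho1, h.eps0, h.eps1, h.mu0, h.mu1, DET_cd c 2 φ h.eig.1, ?_, ?_⟩
  · intro γ z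
    show (c : ℂ) * φ (γ • z) = (c : ℂ) * φ z
    rw [h.eig.2.1]
  · intro z
    rw [DET_lap, h.eig.2.2 z]
    ring

theorem DET_nn (F : Set ℍ) (c : ℝ) (φ : ℍ → ℂ) : nn F (fun z => (c : ℂ) * φ z) = c ^ 2 * nn F φ := by
  unfold nn
  rw [← integral_const_mul]
  refine integral_congr_ae (Eventually.of_forall fun z => ?_)
  show ‖(c : ℂ) * φ z‖ ^ 2 = c ^ 2 * ‖φ z‖ ^ 2
  rw [norm_mul, mul_pow, Complex.norm_real, Real.norm_eq_abs, sq_abs]

/-! ## Words -/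

section words

variable {H : Type} [NormedAddCommGroup H] [InnerProductSpace ℂ H] [CompleteSpace H]

theorem DET_pow_norm (T : H →L[ℂ] H) (hT : ‖T‖ ≤ 1) (k : ℕ) : ‖T ^ k‖ ≤ 1 := by
  induction k with
  | zero =>
    rw [pow_zero]
    exact ContinuousLinearMap.norm_id_le
  | succ k ih =>
    rw [pow_succ]
    calc ‖T ^ k * T‖ ≤ ‖T ^ k‖ * ‖T‖ := norm_mul_le _ _
      _ ≤ 1 * 1 := mul_le_mul ih hT (norm_nonneg _) zero_le_one
      _ = 1 := one_mul 1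

omit [CompleteSpace H] in
theorem DET_wrd (T P : H →L[ℂ] H) (c : ℂ) : ∀ b : List ℕ, ∃ k : ℕ, wrd ((c • T) ^ 9) P b = (c ^ k) • wrd T P (b.map (fun x => 9 * x + 8)) := by
  intro b
  induction b with
  | nil => exact ⟨0, by simp [wrd]⟩
  | cons x l ih =>
    obtain ⟨k, hk⟩ := ih
    refine ⟨9 * (x + 1) + k, ?_⟩
    have h1 : ((c • T) ^ 9) ^ (x + 1) = c ^ (9 * (x + 1)) • T ^ (9 * x + 8 + 1) := by
      rw [← pow_mul, smul_pow]
      congr 2
    show P * ((c • T) ^ 9) ^ (x + 1) * wrd ((c • T) ^ 9) P l = c ^ (9 * (x + 1) + k) • (P * T ^ (9 * x + 8 + 1) * wrd T P (l.map (fun x => 9 * x + 8)))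
    rw [h1, hk, mul_smul_comm, mul_smul_comm, smul_mul_assoc, smul_smul, ← pow_add, Nat.add_comm k]

/-- `‖𝒱 Φ - Φ‖` -/
theorem DET_fix (T : H →L[ℂ] H) (hT : ‖T‖ ≤ 1) (Φ : H) (d : ℝ) (hd : ‖T Φ - Φ‖ ≤ d) (k : ℕ) : ‖(T ^ k) Φ - Φ‖ ≤ k * d := by
  induction k with
  | zero => simp
  | succ k ih =>
    have h1 : (T ^ (k + 1)) Φ - Φ = (T ^ k) (T Φ - Φ) + ((T ^ k) Φ - Φ) := by
      rw [pow_succ, map_sub]
      show (T ^ k) (T Φ) - Φ = _
      abel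
    rw [h1]
    calc ‖(T ^ k) (T Φ - Φ) + ((T ^ k) Φ - Φ)‖ ≤ ‖(T ^ k) (T Φ - Φ)‖ + ‖(T ^ k) Φ - Φ‖ := norm_add_le _ _
      _ ≤ 1 * d + k * d := by
          refine add_le_add ?_ ih
          calc ‖(T ^ k) (T Φ - Φ)‖ ≤ ‖T ^ k‖ * ‖T Φ - Φ‖ := ContinuousLinearMap.le_opNorm _ _
            _ ≤ 1 * d := mul_le_mul (DET_pow_norm T hT k) hd (norm_nonneg _) zero_le_one
      _ = ((k + 1 : ℕ) : ℝ) * d := by push_cast; ring

end words

/-! ## Measure theory -/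

section meas

variable {Y : Type} [MeasurableSpace Y] {μ : Measure Y}

theorem DET_ws [IsFiniteMeasure μ] (K : Y → Y → ℂ) (hK : Measurable (Function.uncurry K)) (hB : ∃ B : ℝ, ∀ y z, ‖K y z‖ ≤ B) :
    ENNReal.ofReal (∫ y, ∫ z, ‖K y z‖ ^ 2 ∂μ ∂μ) = ∫⁻ y, ∫⁻ z, ‖K y z‖ₑ ^ 2 ∂μ ∂μ := by
  have h1 := KO_sq_int (μ := μ) K hK hB
  rw [ofReal_integral_eq_lintegral_ofReal h1 (Eventually.of_forall fun y => integral_nonneg fun z => by positivity)]
  refine lintegral_congr fun y => ?_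
  have h2 : Integrable (fun z => ‖K y z‖ ^ 2) μ := by
    obtain ⟨B, hB⟩ := hB
    refine Integrable.mono' (integrable_const (B ^ 2)) (((KO_row K hK y).norm).pow_const 2).aestronglyMeasurable (Eventually.of_forall fun z => ?_)
    rw [Real.norm_eq_abs, abs_of_nonneg (by positivity)]
    exact pow_le_pow_left₀ (norm_nonneg _) (hB y z) 2
  rw [ofReal_integral_eq_lintegral_ofReal h2 (Eventually.of_forall fun z => by positivity)]
  refine lintegral_congr fun z => ?_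
  rw [ENNReal.ofReal_pow (norm_nonneg _), ofReal_norm]

theorem DET_mass [IsFiniteMeasure μ] (a q : Y → ℝ) (ha : Measurable a) (hq : Measurable q) (m e B : ℝ) (hq0 : ∀ y, 0 ≤ q y) (hqB : ∀ y, q y ≤ B)
    (hd : ∀ y, |a y - m| ≤ 1) (he : 0 ≤ e) :
    |(∫ y, a y * q y ∂μ) - m * ∫ y, q y ∂μ| ≤ e * (∫ y, q y ∂μ) + ∫ y in {y | e ≤ |a y - m|}, q y ∂μ := by
  have hA : MeasurableSet {y | e ≤ |a y - m|} := measurableSet_le measurable_const ((continuous_abs.measurable).comp (ha.sub_const m))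
  have hqi : Integrable q μ := by
    refine Integrable.mono' (integrable_const B) hq.aestronglyMeasurable (Eventually.of_forall fun y => ?_)
    rw [Real.norm_eq_abs, abs_of_nonneg (hq0 y)]
    exact hqB y
  have hdi : Integrable (fun y => (a y - m) * q y) μ := by
    refine Integrable.mono' hqi ((ha.sub_const m).mul hq).aestronglyMeasurable (Eventually.of_forall fun y => ?_)
    rw [norm_mul, Real.norm_eq_abs, Real.norm_eq_abs, abs_of_nonneg (hq0 y)]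
    exact mul_le_of_le_one_left (hq0 y) (hd y)
  have hai : Integrable (fun y => a y * q y) μ := by
    have : (fun y => a y * q y) = fun y => (a y - m) * q y + m * q y := by
      funext y
      ring
    rw [this]
    exact hdi.add (hqi.const_mul m)
  have h1 : (∫ y, a y * q y ∂μ) - m * ∫ y, q y ∂μ = ∫ y, (a y - m) * q y ∂μ := by
    rw [← integral_const_mul, ← integral_sub hai (hqi.const_mul m)]
    refine integral_congr_ae (Eventually.of_forall fun y => ?_)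
    show a y * q y - m * q y = (a y - m) * q y
    ring
  rw [h1, ← integral_indicator hA, ← integral_const_mul, ← integral_add (hqi.const_mul e) (hqi.indicator hA)]
  refine (abs_integral_le_integral_abs).trans (integral_mono hdi.abs ((hqi.const_mul e).add (hqi.indicator hA)) fun y => ?_)
  show |(a y - m) * q y| ≤ e * q y + Set.indicator {y | e ≤ |a y - m|} q y
  rw [abs_mul, abs_of_nonneg (hq0 y)]
  by_cases hy : y ∈ {y | e ≤ |a y - m|}
  · rw [Set.indicator_of_mem hy]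
    have := mul_le_of_le_one_left (hq0 y) (hd y)
    have := mul_nonneg he (hq0 y)
    linarith
  · rw [Set.indicator_of_notMem hy]
    have h2 : |a y - m| ≤ e := by
      have : ¬ (e ≤ |a y - m|) := hy
      linarith
    have := mul_le_mul_of_nonneg_right h2 (hq0 y)
    linarith

end meas

/-- continuity of `avh` -/
theorem DET_avc (hGLC : GLC_stmt) (h : ℍ → ℝ) (hc : Continuous h) (t : ℝ) : Continuous (avh h t) := by
  have hlc := hGLC.1
  have hsc := hGLC.2.1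
  have haM : Continuous aM := hGLC.2.2.2.1
  have h1 : Continuous (Function.uncurry fun (g : SL(2, ℝ)) (s : ℝ) => h ((g * aM s) • I)) := by
    refine hc.comp ?_
    exact (continuous_fst.mul (haM.comp continuous_snd)).smul continuous_const
  exact continuous_const.mul (intervalIntegral.continuous_parametric_intervalIntegral_of_continuous' h1 0 t)

theorem DET_av (h : ℍ → ℝ) (hGLC : GLC_stmt) (hc : Continuous h) (h01 : ∀ z, 0 ≤ h z ∧ h z ≤ 1) (t : ℝ) (ht : 0 < t) (g : SL(2, ℝ)) : 0 ≤ avh h t g ∧ avh h t g ≤ 1 := by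
  have haM : Continuous aM := hGLC.2.2.2.1
  have h1 : Continuous fun s : ℝ => h ((g * aM s) • I) := hc.comp ((continuous_const.mul haM).smul continuous_const)
  have h2 : 0 ≤ ∫ s in (0 : ℝ)..t, h ((g * aM s) • I) := intervalIntegral.integral_nonneg ht.le fun s _ => (h01 _).1
  have h3 : ∫ s in (0 : ℝ)..t, h ((g * aM s) • I) ≤ ∫ s in (0 : ℝ)..t, (1 : ℝ) :=
    intervalIntegral.integral_mono_on ht.le (h1.intervalIntegrable _ _) (continuous_const.intervalIntegrable _ _) fun s _ => (h01 _).2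
  rw [intervalIntegral.integral_const, sub_zero, smul_eq_mul, mul_one] at h3
  unfold avh
  constructor
  · positivity
  · rw [inv_mul_le_iff₀ ht]
    linarith

theorem DET_mean (F : Set ℍ) (hF : volume F < ⊤) (h : ℍ → ℝ) (hc : Continuous h) (h01 : ∀ z, 0 ≤ h z ∧ h z ≤ 1) : 0 ≤ mean F h ∧ mean F h ≤ 1 := by
  have h2 : 0 ≤ ∫ z in F, h z := integral_nonneg fun z => (h01 z).1
  have h3 : ∫ z in F, h z ≤ (volume F).toReal := by
    have h4 : IntegrableOn h F := by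
      refine Integrable.mono' (integrable_const_iff.2 (Or.inr ⟨by rw [Measure.restrict_apply_univ]; exact hF⟩) : Integrable (fun _ => (1 : ℝ)) (volume.restrict F)) hc.aestronglyMeasurable (Eventually.of_forall fun z => ?_)
      rw [Real.norm_eq_abs, abs_of_nonneg (h01 z).1]
      exact (h01 z).2
    have h5 : ∫ z in F, h z ≤ ∫ z in F, (1 : ℝ) := by
      refine integral_mono h4 (integrable_const_iff.2 (Or.inr ⟨by rw [Measure.restrict_apply_univ]; exact hF⟩)) fun z => (h01 z).2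
    rwa [setIntegral_const, smul_eq_mul, mul_one] at h5
  unfold mean
  constructor
  · positivity
  · exact div_le_one_of_le₀ h3 ENNReal.toReal_nonneg

/-! ## The word lemma for nearly contractions -/

theorem DET_hilb (e : ℝ) (L n : ℕ) (δ0 : ℝ) (he : 0 < e)
    (hW : ∀ (H : Type) [NormedAddCommGroup H] [InnerProductSpace ℂ H] [CompleteSpace H] (V P : H →L[ℂ] H) (Φ : H), ‖V‖ ≤ 1 → OProj P → ‖Φ‖ ≤ 1 → ‖V Φ - Φ‖ ≤ δ0 →
      (∀ l : List ℕ, l.length = L → (∀ b ∈ l, b < n) → ‖wrd V P l‖ ≤ δ0) → ‖P Φ‖ ^ 2 ≤ (2 * L + 1) / n + e)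
    (H : Type) [NormedAddCommGroup H] [InnerProductSpace ℂ H] [CompleteSpace H] (T P : H →L[ℂ] H) (Φ : H) (r : ℝ) (hr : 0 < r) (hr1 : 18 * r ≤ δ0)
    (hT : ‖T‖ ≤ 1 + r) (hP : OProj P) (hΦ : ‖Φ‖ ^ 2 ≤ 1 + e) (hfix : ‖T Φ - Φ‖ ≤ r)
    (hw : ∀ l : List ℕ, l.length = L → (∀ b ∈ l, b < n) → ‖wrd T P (l.map (fun x => 9 * x + 8))‖ ≤ δ0) :
    ‖P Φ‖ ^ 2 ≤ (1 + e) * ((2 * L + 1) / n + e) := by
  set c : ℝ := (1 + r)⁻¹ with hc
  set S : ℝ := (Real.sqrt (1 + e))⁻¹ with hS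
  have hc0 : 0 < c := by positivity
  have hc1 : c ≤ 1 := inv_le_one_of_one_le₀ (by linarith)
  have hcr : c * (1 + r) = 1 := inv_mul_cancel₀ (by linarith)
  have hsq : 0 < Real.sqrt (1 + e) := Real.sqrt_pos.2 (by linarith)
  have hS0 : 0 < S := by positivity
  have hS1 : S ≤ 1 := inv_le_one_of_one_le₀ (by rw [Real.le_sqrt' one_pos]; linarith)
  have hSS : S ^ 2 * (1 + e) = 1 := by
    rw [hS, inv_pow, Real.sq_sqrt (by linarith)]
    exact inv_mul_cancel₀ (by linarith)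
  have hΦS : ‖((S : ℝ) : ℂ) • Φ‖ ≤ 1 := by
    rw [norm_smul, Complex.norm_real, Real.norm_eq_abs, abs_of_pos hS0]
    have h1 : (S * ‖Φ‖) ^ 2 ≤ 1 := by
      rw [mul_pow]
      calc S ^ 2 * ‖Φ‖ ^ 2 ≤ S ^ 2 * (1 + e) := mul_le_mul_of_nonneg_left hΦ (by positivity)
        _ = 1 := hSS
    exact (abs_le_of_sq_le_sq' (by simpa using h1) zero_le_one).2
  have hcn : ‖((c : ℝ) : ℂ)‖ = c := by rw [Complex.norm_real, Real.norm_eq_abs, abs_of_pos hc0]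
  have hV : ‖((c : ℝ) : ℂ) • T‖ ≤ 1 := by
    rw [norm_smul, hcn]
    calc c * ‖T‖ ≤ c * (1 + r) := mul_le_mul_of_nonneg_left hT hc0.le
      _ = 1 := hcr
  have hd : ‖(((c : ℝ) : ℂ) • T) (((S : ℝ) : ℂ) • Φ) - ((S : ℝ) : ℂ) • Φ‖ ≤ 2 * r := by
    have h1 : (((c : ℝ) : ℂ) • T) (((S : ℝ) : ℂ) • Φ) - ((S : ℝ) : ℂ) • Φ = (((c : ℝ) : ℂ) * ((S : ℝ) : ℂ)) • (T Φ - Φ) + (((c : ℝ) : ℂ) - 1) • (((S : ℝ) : ℂ) • Φ) := by
      show ((c : ℝ) : ℂ) • T (((S : ℝ) : ℂ) • Φ) - ((S : ℝ) : ℂ) • Φ = _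
      rw [map_smul]
      module
    have h2 : ‖((c : ℝ) : ℂ) - 1‖ ≤ r := by
      have : ((c : ℝ) : ℂ) - 1 = ((c - 1 : ℝ) : ℂ) := by push_cast; ring
      rw [this, Complex.norm_real, Real.norm_eq_abs, abs_le]
      constructor
      · nlinarith
      · linarith
    rw [h1]
    calc ‖(((c : ℝ) : ℂ) * ((S : ℝ) : ℂ)) • (T Φ - Φ) + (((c : ℝ) : ℂ) - 1) • (((S : ℝ) : ℂ) • Φ)‖
        ≤ ‖(((c : ℝ) : ℂ) * ((S : ℝ) : ℂ)) • (T Φ - Φ)‖ + ‖(((c : ℝ) : ℂ) - 1) • (((S : ℝ) : ℂ) • Φ)‖ := norm_add_le _ _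
      _ ≤ 1 * r + r * 1 := by
          refine add_le_add ?_ ?_
          · rw [norm_smul, norm_mul, hcn, Complex.norm_real, Real.norm_eq_abs, abs_of_pos hS0]
            exact mul_le_mul (mul_le_one₀ hc1 hS0.le hS1) hfix (norm_nonneg _) zero_le_one
          · rw [norm_smul]
            exact mul_le_mul h2 hΦS (norm_nonneg _) hr.le
      _ = 2 * r := by ring
  have h9 := DET_fix (((c : ℝ) : ℂ) • T) hV (((S : ℝ) : ℂ) • Φ) (2 * r) hd 9
  have key := hW H ((((c : ℝ) : ℂ) • T) ^ 9) P (((S : ℝ) : ℂ) • Φ) (DET_pow_norm _ hV 9) hP hΦS ?_ ?_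
  · rw [map_smul, norm_smul, mul_pow, Complex.norm_real, Real.norm_eq_abs, abs_of_pos hS0] at key
    calc ‖P Φ‖ ^ 2 = (1 + e) * (S ^ 2 * ‖P Φ‖ ^ 2) := by rw [← mul_assoc, mul_comm (1 + e), hSS, one_mul]
      _ ≤ (1 + e) * ((2 * L + 1) / n + e) := mul_le_mul_of_nonneg_left key (by linarith)
  · refine h9.trans ?_
    push_cast
    linarith
  · intro l hl hb
    obtain ⟨k, hk⟩ := DET_wrd T P ((c : ℝ) : ℂ) l
    rw [hk, norm_smul, norm_pow, hcn]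
    refine le_trans ?_ (hw l hl hb)
    exact mul_le_of_le_one_left (norm_nonneg _) (pow_le_one₀ hc0.le hc1)

/-! ## The row -/

theorem DET_cont (φ : ℍ → ℂ) (h : QU.CD ∞ φ) : Continuous φ := by
  have h1 : ContinuousOn (QU.onC φ) {w : ℂ | 0 < w.im} := h.continuousOn
  have h2 : Continuous (fun z : ℍ => QU.onC φ (z : ℂ)) :=
    h1.comp_continuous UpperHalfPlane.continuous_coe (fun z => z.im_pos)
  have h3 : (fun z : ℍ => QU.onC φ (z : ℂ)) = φ := by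
    funext z
    simp only [QU.onC, ofComplex_apply]
  rwa [h3] at h2

theorem DET_core (hWRD : WRD_stmt) (hUOP : UOP_stmt) (hAVG : AVG_stmt) (hKO1 : KO1_stmt) (hKO2 : KO2_stmt) (hKPG : KPG_stmt) (hKPS : KPS_stmt) (hOPW : OPW_stmt) (hLDV : LDV_stmt)
    (hCWB : CWB_stmt) (hUKB : UKB_stmt) (hGKD : GKD_stmt) (hGLC : GLC_stmt) (hGFD : GFD_stmt) (hGBD : GBD_stmt) (hGWB : GWB_stmt) (hCV1 : CV1_stmt)
    (Γ : Subgroup SL(2, ℝ)) (F : Set ℍ) (α β κ : ℝ → ℝ) (C0 η ε : ℝ) (hΓ : QU.SurfaceGroup Γ) (hF : QU.NiceDom Γ F) (hα : BA (1 / 8) α) (hβ : BB (1 / 8) β) (hκ : MO κ)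
    (hC0 : 0 ≤ C0) (hη : 0 < η) (hη' : η ≤ 1 / 20) (hε : 0 < ε) (hε' : ε ≤ 1 / 20) (L n : ℕ) (e : ℝ) (hL : 1 ≤ L) (hn : 1 ≤ n) (he : 0 < e) (he1 : e ≤ 1) :
    ∃ (C1 δ0 : ℝ), 1 ≤ C1 ∧ 0 < δ0 ∧ ∀ C a : ℝ, C1 ≤ C → 0 ≤ a → ∀ h : ℍ → ℝ, QU.Inv Γ h → (∀ z, 0 ≤ h z ∧ h z ≤ 1) → ∃ R0 : ℝ, 1 ≤ R0 ∧
    ∀ (R ρ ϵ μ : ℝ) (V : ℍ → ℝ) (φ : ℍ → ℂ), R0 ≤ R → Quasi Γ κ C0 a R ρ ϵ μ V φ → nn F φ = 1 →
      (∀ l ∈ AdL L n, WS Γ F (wdK V (R * ϵ / 2) (tau R) (ut β α C η ε R) (FB F h e (tau R)) l) δ0) →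
        |(∫ z in F, h z * ‖φ z‖ ^ 2) - mean F h| ≤ 2 * ((2 * L + 1) / n) + 10 * e := by
  obtain ⟨δw, hδw, hW⟩ := hWRD e L n he hn
  obtain ⟨C1, hC1, hU⟩ := hUOP Γ F α β κ C0 η ε hΓ hF hα hβ hκ hC0 hη hη' hε hε'
  obtain ⟨C2, R2, hC2, hR2, hK⟩ := hUKB α β hα hβ η ε hη hη' hε hε'
  refine ⟨max C1 C2, δw, le_trans hC1 (le_max_left _ _), hδw, fun C a hC ha h hh h01 => ?_⟩
  obtain ⟨δ, R3, hδ, hR3, hTT⟩ := hU C a (le_trans (le_max_left _ _) hC) ha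
  obtain ⟨R4, hR4, hA⟩ := hAVG Γ F α β κ C0 a η h hΓ hF hα hβ hκ hC0 ha hη hη' hh h01 e he
  obtain ⟨R5, hR5⟩ : ∃ R5 : ℝ, ∀ R : ℝ, R5 ≤ R → 18 * R ^ (-δ) ≤ δw := by
    have h1 : Tendsto (fun R : ℝ => 18 * R ^ (-δ)) atTop (𝓝 (18 * 0)) := (tendsto_rpow_neg_atTop hδ).const_mul 18
    rw [mul_zero] at h1
    have h2 := h1.eventually (gt_mem_nhds hδw)
    obtain ⟨R5, h3⟩ := eventually_atTop.1 h2
    exact ⟨R5, fun R hR => (h3 R hR).le⟩
  refine ⟨max (max R2 R3) (max (max R4 R5) 2), le_trans hR2 ((le_max_left _ _).trans (le_max_left _ _)), ?_⟩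
  intro R ρ ϵ μ V φ hR hQ hnn hWS
  have hRR2 : R2 ≤ R := ((le_max_left _ _).trans (le_max_left _ _)).trans hR
  have hRR3 : R3 ≤ R := ((le_max_right _ _).trans (le_max_left _ _)).trans hR
  have hRR4 : R4 ≤ R := ((le_max_left _ _).trans ((le_max_left _ _).trans (le_max_right _ _))).trans hR
  have hRR5 : R5 ≤ R := ((le_max_right _ _).trans ((le_max_left _ _).trans (le_max_right _ _))).trans hR
  have hRR6 : 2 ≤ R := ((le_max_right _ _).trans (le_max_right _ _)).trans hR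
  have hR0 : 0 < R := by linarith
  have hR1 : 1 ≤ R := by linarith
  have htau : 0 < tau R := by
    unfold tau
    have := Real.log_pos (show (1 : ℝ) < R by linarith)
    positivity
  -- the packets
  have hw00 : 0 < w0 R := Real.rpow_pos_of_pos hR0 _
  have hw01 : w0 R ≤ 1 := Real.rpow_le_one_of_one_le_of_nonpos hR1 (by norm_num)
  have hw10 : 0 < w1 R := Real.rpow_pos_of_pos hR0 _
  have hw11 : w1 R ≤ 1 := Real.rpow_le_one_of_one_le_of_nonpos hR1 (by norm_num)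
  have hl0 : 0 < R ^ (-η) := Real.rpow_pos_of_pos hR0 _
  have hl1 : R ^ (-η) ≤ 1 := Real.rpow_le_one_of_one_le_of_nonpos hR1 (by linarith)
  have hTB0 : TB (1 / 4) (cw β α (w0 R) (R ^ (-η))) := (hCWB α β (w0 R) (R ^ (-η)) hα hβ hw00 hw01 hl0 hl1).2.2.2.2.2.2.1
  have hTB1 : TB (1 / 4) (cw β α (w1 R) (R ^ (-η))) := (hCWB α β (w1 R) (R ^ (-η)) hα hβ hw10 hw11 hl0 hl1).2.2.2.2.2.2.1
  have hgk : Continuous (gk R (cw β α (w1 R) (R ^ (-η))) (cw β α (w0 R) (R ^ (-η)))) := (hGKD R _ _ hTB1 hTB0).1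
  have huk : Continuous (uk β α η R) := continuous_const.mul hgk
  have hBx : MeasurableSet (Bx C η ε R) := by
    have hent : ∀ i j, Continuous fun b : SL(2, ℝ) => b.1 i j := fun i j => (continuous_subtype_val.matrix_elem i j)
    have h1 : Bx C η ε R = ⋂ i, ⋂ j, {b : SL(2, ℝ) | |b.1 i j| ≤ 3} ∩ ({b | |b.1 1 0| ≤ R ^ (-(5 / 8) + ε)} ∩ ({b | |b.1 0 1| ≤ C * R ^ (-(1 / 4) : ℝ)} ∩ {b | |b.1 0 0 - b.1 1 1| ≤ C * R ^ (-η)})) := by
      ext b
      simp only [Bx, Set.mem_ofPred_eq, mem_iInter, mem_inter_iff]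
      constructor
      · intro hb i j
        exact ⟨hb.1 i j, hb.2.1, hb.2.2.1, hb.2.2.2⟩
      · intro hb
        exact ⟨fun i j => (hb i j).1, (hb 0 0).2.1, (hb 0 0).2.2.1, (hb 0 0).2.2.2⟩
    rw [h1]
    refine MeasurableSet.iInter fun i => MeasurableSet.iInter fun j => ?_
    refine (IsClosed.measurableSet (isClosed_le ((hent i j).abs) continuous_const)).inter ?_
    refine (IsClosed.measurableSet (isClosed_le ((hent 1 0).abs) continuous_const)).inter ?_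
    refine (IsClosed.measurableSet (isClosed_le ((hent 0 1).abs) continuous_const)).inter ?_
    exact IsClosed.measurableSet (isClosed_le (((hent 0 0).sub (hent 1 1)).abs) continuous_const)
  have hut : Measurable (ut β α C η ε R) := huk.measurable.indicator hBx
  have hutB : ∃ B : ℝ, ∀ b, ‖ut β α C η ε R b‖ ≤ B := ⟨_, fun b => (hK C R (le_trans (le_max_right _ _) hC) hRR2 b).2.1⟩
  have hutD : ∃ D : ℝ, ∀ b, ut β α C η ε R b ≠ 0 → ∀ i j, |b.1 i j| ≤ D := by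
    refine ⟨3, fun b hb i j => ?_⟩
    have hb' : b ∈ Bx C η ε R := by
      by_contra hb'
      exact hb (Set.indicator_of_notMem hb' _)
    exact hb'.1 i j
  obtain ⟨θ, CC, hθ, hCC, hLD⟩ := hLDV Γ F h e hΓ hF hh h01 he
  obtain ⟨hAm, hAi, -⟩ := hLD (tau R) htau
  -- the measure
  have hGF := (hGFD Γ F hΓ hF).1
  have hfin : IsFiniteMeasure (mG.restrict (dG F)) := ⟨by rw [Measure.restrict_apply_univ]; exact hGF.2.2.1⟩
  obtain ⟨hG1, hG2, hG3⟩ := hKPS Γ F V (R * ϵ / 2) (tau R) (ut β α C η ε R) (FB F h e (tau R)) hΓ hF hQ.inv hut hutB hutD hAm hAi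
  have hKP := (hKPG Γ F hΓ hF).1
  obtain ⟨hp1, hp2, -, -⟩ := hKP _ hG1
  obtain ⟨⟨T, hT⟩, -⟩ := hKO1 _ (mG.restrict (dG F)) _ hp1 hp2
  obtain ⟨hTn, hTf⟩ := hTT R ρ ϵ μ V φ hRR3 hQ T hT
  obtain ⟨-, -, hk3, -, hk5⟩ := hKO2 _ (mG.restrict (dG F))
  obtain ⟨P, hP⟩ := hk3 ((FB F h e (tau R)).indicator (fun _ => (1 : ℂ))) (measurable_const.indicator hAm) ⟨1, fun g => by
    by_cases hg : g ∈ FB F h e (tau R)
    · rw [Set.indicator_of_mem hg, norm_one]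
    · rw [Set.indicator_of_notMem hg, norm_zero]
      exact zero_le_one⟩
  obtain ⟨hPO, hPn⟩ := hk5 _ P hAm hP
  -- the vector
  have hφc : InvC Γ φ := ⟨INB_cont φ hQ.eig.1, hQ.eig.2.1⟩
  have hpkc : Continuous (pk R (cw β α (w0 R) (R ^ (-η)))) := INB_pk R _ (DET_cont _ hTB0.1)
  have hpks : HasCompactSupport (pk R (cw β α (w0 R) (R ^ (-η)))) := INB_pks R _ (hCV1.2.1 _ hTB0).2.1
  have hQc : InvG Γ (QQ β α (w0 R) (R ^ (-η)) R φ) := (hGWB Γ _ φ hΓ hpkc hpks hφc).1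
  obtain ⟨mB, hmB⟩ := (hGBD Γ ℂ _ hΓ hQc).1
  have hfc : Continuous fun g => ((Real.sqrt R : ℝ) : ℂ) * QQ β α (w0 R) (R ^ (-η)) R φ g := continuous_const.mul hQc.1
  have hmem : MemLp (fun g => ((Real.sqrt R : ℝ) : ℂ) * QQ β α (w0 R) (R ^ (-η)) R φ g) 2 (mG.restrict (dG F)) := by
    refine KO_row_memLp _ hfc.measurable ⟨Real.sqrt R * mB, fun g => ?_⟩
    rw [norm_mul, Complex.norm_real, Real.norm_eq_abs, abs_of_nonneg (Real.sqrt_nonneg R)]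
    exact mul_le_mul_of_nonneg_left (hmB g) (Real.sqrt_nonneg R)
  have hΦe := hmem.coeFn_toLp
  have hfx := hTf _ hΦe hnn.le
  have hsqn : ∀ g, ‖((Real.sqrt R : ℝ) : ℂ) * QQ β α (w0 R) (R ^ (-η)) R φ g‖ ^ 2 = R * ‖QQ β α (w0 R) (R ^ (-η)) R φ g‖ ^ 2 := by
    intro g
    rw [norm_mul, mul_pow, Complex.norm_real, Real.norm_eq_abs, sq_abs, Real.sq_sqrt hR0.le]
  obtain ⟨hA1, hA2⟩ := hA R ρ ϵ μ V φ hRR4 hQ
  rw [hnn, mul_one] at hA1 hA2
  have hS0 : R * iR F (fun g => ‖QQ β α (w0 R) (R ^ (-η)) R φ g‖ ^ 2) ≤ 1 + e := by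
    have := (abs_le.1 hA2).2
    linarith
  have hΦn : ‖hmem.toLp _‖ ^ 2 ≤ 1 + e := by
    rw [KO_norm]
    refine le_trans (le_of_eq ?_) hS0
    unfold iR
    rw [← integral_const_mul]
    refine integral_congr_ae ?_
    filter_upwards [hΦe] with g hg
    rw [hg, hsqn]
  have hmain := DET_hilb e L n δw he hW _ T P (hmem.toLp _) (R ^ (-δ)) (Real.rpow_pos_of_pos hR0 _) (hR5 R hRR5) hTn hPO hΦn hfx ?_
  · -- the conclusion
    have hPΦ : ‖P (hmem.toLp _)‖ ^ 2 = R * ∫ g in FB F h e (tau R), ‖QQ β α (w0 R) (R ^ (-η)) R φ g‖ ^ 2 ∂(mG.restrict (dG F)) := by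
      rw [hPn, ← integral_const_mul]
      refine integral_congr_ae ?_
      filter_upwards [ae_restrict_of_ae hΦe] with g hg
      rw [hg, hsqn]
    rw [hPΦ] at hmain
    have hmn := DET_mean F (by rw [← hGF.2.1]; exact hGF.2.2.1) h hh.1 h01
    have hms := DET_mass (μ := mG.restrict (dG F)) (avh h (tau R)) (fun g => ‖QQ β α (w0 R) (R ^ (-η)) R φ g‖ ^ 2) (DET_avc hGLC h hh.1 _).measurable
      (hQc.1.norm.pow 2).measurable (mean F h) e (mB ^ 2) (fun g => by positivity) (fun g => pow_le_pow_left₀ (norm_nonneg _) (hmB g) 2) (fun g => by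
        have h1 := DET_av h hGLC hh.1 h01 (tau R) htau g
        rw [abs_le]
        constructor
        · linarith [hmn.2]
        · linarith [hmn.1]) he.le
    have hms' := mul_le_mul_of_nonneg_left hms hR0.le
    rw [← abs_of_pos hR0, ← abs_mul, abs_of_pos hR0] at hms'
    set S := R * ∫ g, ‖QQ β α (w0 R) (R ^ (-η)) R φ g‖ ^ 2 ∂(mG.restrict (dG F)) with hSdef
    set M := ∫ g in FB F h e (tau R), ‖QQ β α (w0 R) (R ^ (-η)) R φ g‖ ^ 2 ∂(mG.restrict (dG F)) with hMdef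
    set X := ∫ g, avh h (tau R) g * ‖QQ β α (w0 R) (R ^ (-η)) R φ g‖ ^ 2 ∂(mG.restrict (dG F)) with hXdef
    have hM' : (∫ g in {g | e ≤ |avh h (tau R) g - mean F h|}, ‖QQ β α (w0 R) (R ^ (-η)) R φ g‖ ^ 2 ∂(mG.restrict (dG F))) = M := rfl
    rw [hM'] at hms'
    have hX' : R * iR F (fun g => avh h (tau R) g * ‖QQ β α (w0 R) (R ^ (-η)) R φ g‖ ^ 2) = R * X := rfl
    have hS' : R * iR F (fun g => ‖QQ β α (w0 R) (R ^ (-η)) R φ g‖ ^ 2) = S := rfl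
    rw [hX'] at hA1
    rw [hS'] at hA2 hS0
    have h3 : |R * X - mean F h * S| ≤ e * S + R * M := by
      refine le_trans (le_of_eq ?_) (hms'.trans (le_of_eq ?_))
      · congr 1
        rw [hSdef]
        ring
      · rw [hSdef]
        ring
    have hx0 : (0 : ℝ) ≤ (2 * L + 1) / n := by positivity
    have h4 : |mean F h * S - mean F h| ≤ e := by
      have : mean F h * S - mean F h = mean F h * (S - 1) := by ring
      rw [this, abs_mul, abs_of_nonneg hmn.1]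
      exact (mul_le_of_le_one_left (abs_nonneg _) hmn.2).trans hA2
    have h5 := abs_le.1 h3
    have h6 := abs_le.1 h4
    have h7 := abs_le.1 hA1
    have h8 : e * S ≤ 2 * e := by nlinarith
    have h9 : (1 + e) * ((2 * L + 1) / n + e) ≤ 2 * ((2 * L + 1) / n) + 2 * e := by nlinarith
    rw [abs_le]
    constructor <;> linarith
  · intro l hl hb
    have hne : l.map (fun x => 9 * x + 8) ≠ [] := by
      intro h0
      have : l = [] := List.map_eq_nil_iff.1 h0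
      rw [this, List.length_nil] at hl
      omega
    have h1 := hOPW Γ F V (R * ϵ / 2) (tau R) (ut β α C η ε R) (FB F h e (tau R)) hΓ hF hQ.inv hut hutB hutD hAm hAi T P hT hP (l.map (fun x => 9 * x + 8)) hne
    have h2 : WS Γ F (wdK V (R * ϵ / 2) (tau R) (ut β α C η ε R) (FB F h e (tau R)) (l.map (fun x => 9 * x + 8))) δw := hWS _ ⟨l, hl, hb, rfl⟩
    obtain ⟨hq1, hq2, -, -⟩ := hKP _ (hG3 (l.map (fun x => 9 * x + 8)))
    have h3 := DET_ws (μ := mG.restrict (dG F)) _ hq1 hq2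
    have h4 : (∫ g in dG F, ∫ h' in dG F, ‖perK Γ (wdK V (R * ϵ / 2) (tau R) (ut β α C η ε R) (FB F h e (tau R)) (l.map (fun x => 9 * x + 8))) g h'‖ ^ 2 ∂mG ∂mG) ≤ δw ^ 2 := by
      refine (ENNReal.ofReal_le_ofReal_iff (by positivity)).1 ?_
      rw [h3]
      exact h2
    exact (abs_le_of_sq_le_sq' (h1.trans h4) hδw.le).2

theorem DET_proof (hWRD : WRD_stmt) (hUOP : UOP_stmt) (hAVG : AVG_stmt) (hKO1 : KO1_stmt) (hKO2 : KO2_stmt) (hKPG : KPG_stmt) (hKPS : KPS_stmt) (hOPW : OPW_stmt) (hLDV : LDV_stmt)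
    (hCWB : CWB_stmt) (hUKB : UKB_stmt) (hGKD : GKD_stmt) (hGLC : GLC_stmt) (hGFD : GFD_stmt) (hGBD : GBD_stmt) (hGWB : GWB_stmt) (hCV1 : CV1_stmt) : DET_stmt := by
  intro Γ F α β κ C0 η ε hΓ hF hα hβ hκ hC0 hη hη' hε hε' L n e hL hn he he1
  obtain ⟨C1, δ0, hC1, hδ0, key⟩ := DET_core hWRD hUOP hAVG hKO1 hKO2 hKPG hKPS hOPW hLDV hCWB hUKB hGKD hGLC hGFD hGBD hGWB hCV1 Γ F α β κ C0 η ε hΓ hF hα hβ hκ hC0 hη hη' hε hε' L n e hL hn he he1
  refine ⟨C1, δ0, hC1, hδ0, fun C a hC ha h hh h01 => ?_⟩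
  obtain ⟨R0, hR0, key⟩ := key C a hC ha h hh h01
  refine ⟨R0, hR0, fun R ρ ϵ μ V φ hR hQ hWS => ?_⟩
  have hφc : InvC Γ φ := ⟨INB_cont φ hQ.eig.1, hQ.eig.2.1⟩
  have hnn0 : 0 ≤ nn F φ := integral_nonneg fun z => by positivity
  rcases hnn0.eq_or_lt with h0 | h0
  · -- the mass is zero
    have hvol : volume F < ⊤ := by rw [← (hGFD Γ F hΓ hF).1.2.1]; exact (hGFD Γ F hΓ hF).1.2.2.1
    obtain ⟨K, hK, hFK⟩ := hF.rel
    obtain ⟨m, hm⟩ := (hK.image hφc.1.norm).bddAbove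
    have hb : ∀ z ∈ F, ‖φ z‖ ≤ m := fun z hz => hm ⟨z, hFK hz, rfl⟩
    have hi : IntegrableOn (fun z => ‖φ z‖ ^ 2) F := by
      refine Integrable.mono' (integrable_const_iff.2 (Or.inr ⟨by rw [Measure.restrict_apply_univ]; exact hvol⟩) : Integrable (fun _ => m ^ 2) (volume.restrict F)) (hφc.1.norm.pow 2).aestronglyMeasurable ?_
      filter_upwards [ae_restrict_mem hF.meas] with z hz
      rw [Real.norm_eq_abs, abs_of_nonneg (by positivity)]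
      exact pow_le_pow_left₀ (norm_nonneg _) (hb z hz) 2
    have h1 : ∫ z in F, h z * ‖φ z‖ ^ 2 ≤ ∫ z in F, ‖φ z‖ ^ 2 :=
      integral_mono_of_nonneg (Eventually.of_forall fun z => mul_nonneg (h01 z).1 (by positivity)) hi (Eventually.of_forall fun z => mul_le_of_le_one_left (by positivity) (h01 z).2)
    have h2 : 0 ≤ ∫ z in F, h z * ‖φ z‖ ^ 2 := integral_nonneg fun z => mul_nonneg (h01 z).1 (by positivity)
    have h3 : ∫ z in F, h z * ‖φ z‖ ^ 2 = 0 := le_antisymm (h1.trans (le_of_eq h0.symm)) h2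
    rw [h3, ← h0]
    simp
  · have hc : 0 < (Real.sqrt (nn F φ))⁻¹ := inv_pos.2 (Real.sqrt_pos.2 h0)
    have hcc : (Real.sqrt (nn F φ))⁻¹ ^ 2 * nn F φ = 1 := by
      rw [inv_pow, Real.sq_sqrt h0.le]
      exact inv_mul_cancel₀ h0.ne'
    have h1 := key R ρ ϵ μ V _ hR (DET_quasi Γ κ C0 a R ρ ϵ μ (Real.sqrt (nn F φ))⁻¹ V φ hQ) (by rw [DET_nn]; exact hcc) hWS
    have h2 : (∫ z in F, h z * ‖(((Real.sqrt (nn F φ))⁻¹ : ℝ) : ℂ) * φ z‖ ^ 2) = (Real.sqrt (nn F φ))⁻¹ ^ 2 * ∫ z in F, h z * ‖φ z‖ ^ 2 := by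
      rw [← integral_const_mul]
      refine integral_congr_ae (Eventually.of_forall fun z => ?_)
      show h z * ‖(((Real.sqrt (nn F φ))⁻¹ : ℝ) : ℂ) * φ z‖ ^ 2 = _
      rw [norm_mul, mul_pow, Complex.norm_real, Real.norm_eq_abs, sq_abs]
      ring
    rw [h2] at h1
    have h3 : (∫ z in F, h z * ‖φ z‖ ^ 2) - mean F h * nn F φ = nn F φ * ((Real.sqrt (nn F φ))⁻¹ ^ 2 * (∫ z in F, h z * ‖φ z‖ ^ 2) - mean F h) := by
      rw [mul_sub, ← mul_assoc, mul_comm (nn F φ) ((Real.sqrt (nn F φ))⁻¹ ^ 2), hcc]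
      ring
    rw [h3, abs_mul, abs_of_pos h0, mul_comm (nn F φ)]
    exact mul_le_mul_of_nonneg_right h1 h0.le

end Pool.Agent.RPQ
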