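import Pool.Agent.helper25.RPQ.FIN

/-!
# MP_07c750_an, project RPQ: the final statement with the explicit family of bumps

The proof of the union bound is that of `FIN_proof` (helper25).
-/

set_option autoImplicit false

open scoped MatrixGroups ContDiff Topology UpperHalfPlane ComplexConjugate
open UpperHalfPlane MeasureTheory Filter Set

namespace Pool.Agent.RPQ

open Pool.Agent.RS
open Pool.Agent.MS (BA BB st pf gk Dk amk)

noncomputable section

/-- the final statement with the description of the family: nonnegative bumps `f_j` with `f_j (p_j) ≥ 1 / r`, carried by the balls of radius `1 / log r` around the points `p_j`, which are `1 / log r`-dense -/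
def FN2_stmt : Prop := ∀ (Γ : Subgroup SL(2, ℝ)) (ε B A : ℝ), QU.SurfaceGroup Γ → 0 < ε → 0 < B → 0 < A → ∃ (a r0 : ℝ) (C : ℕ → ℝ), 3 ≤ r0 ∧ ∀ r : ℝ, r0 ≤ r →
  ∃ (J : ℕ) (p : Fin J → ℍ) (f : Fin J → ℍ → ℝ),
  (∀ z : ℍ, ∃ (j : Fin J) (γ : Γ), dist z ((γ : SL(2, ℝ)) • p j) ≤ (Real.log r)⁻¹) ∧
  (∀ j, QU.CD ∞ (f j) ∧ QU.Inv Γ (f j) ∧ (∀ z, 0 ≤ f j z) ∧ r⁻¹ ≤ f j (p j) ∧ ∀ z, f j z ≠ 0 → ∃ γ : Γ, dist z ((γ : SL(2, ℝ)) • p j) ≤ (Real.log r)⁻¹) ∧
  (∀ ξ ∈ cube J, ∀ k : ℕ, CkB k (fun z => ∑ j, ξ j * f j z) (C k * r⁻¹ * (Real.log r) ^ (a * (k + 1)))) ∧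
  volume {ξ | ξ ∈ cube J ∧ ¬ Good Γ (fun z => ∑ j, ξ j * f j z) ε r (r * (Real.log r) ^ A)} ≤ ENNReal.ofReal (r ^ (-B)) * volume (cube J)

theorem FN2_proof (hPRB : PRB_stmt) (hBMP : BMP_stmt) (hMOM : MOM_stmt) (hCKB : CKB_stmt) : FN2_stmt := by
  intro Γ ε B A hΓ hε hB hA
  obtain ⟨κ, hκ⟩ := hMOM.1
  obtain ⟨C0, ρ0, hC0, hρ0, hρ08, hnet⟩ := hBMP Γ κ hΓ hκ
  obtain ⟨a, R0, ha, hR0, hP⟩ := hPRB Γ κ C0 ε B (A + 1) hΓ hκ hC0.le hε hB.le (by linarith)
  have hK := (hCKB κ hκ).2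
  choose c hc hcK using hK
  obtain ⟨r1, hr1⟩ := FIN_asy A (2 * a + 2) ρ0 R0 hA (by linarith) hρ0
  refine ⟨4 * a + 4, max r1 3, fun k => c k * C0 * 16 * (4 / 3) ^ (2 * k + 1), le_max_right _ _, ?_⟩
  intro r hr
  obtain ⟨g1, g2, g3, g4, g5, g6⟩ := hr1 r (le_trans (le_max_left _ _) hr)
  obtain ⟨x, hx⟩ : ∃ x : ℝ, x = Real.log r := ⟨_, rfl⟩
  rw [← hx] at g1 g2 g3 g4
  have hx0 : 0 < x := by linarith
  have hr0 : 0 < r := by linarith
  obtain ⟨ρ, hρ⟩ : ∃ ρ : ℝ, ρ = (3 / 4) * x ^ (-(2 * a + 2)) := ⟨_, rfl⟩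
  rw [← hρ] at g2
  have hρ1 : 0 < ρ := by rw [hρ]; positivity
  obtain ⟨J, p, χ, hN⟩ := hnet ρ hρ1 g2
  obtain ⟨ϵ, hϵ⟩ : ∃ ϵ : ℝ, ϵ = 16 / (ρ * r) := ⟨_, rfl⟩
  have hϵ0 : 0 < ϵ := by rw [hϵ]; positivity
  have hV : ∀ ξ : Fin J → ℝ, (fun z : ℍ => ∑ j, ξ j * (ϵ * χ j z)) = fun z => ϵ * VV χ ξ z := by
    intro ξ
    funext z
    unfold VV
    rw [Finset.mul_sum]
    exact Finset.sum_congr rfl fun j _ => by ring
  have hρlog : ρ ≤ (Real.log r)⁻¹ := by
    rw [← hx, hρ]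
    have h1 : x ^ (-(2 * a + 2)) ≤ x ^ (-(1 : ℝ)) := Real.rpow_le_rpow_of_exponent_le (by linarith) (by linarith)
    rw [Real.rpow_neg_one] at h1
    have h2 : 0 < x ^ (-(2 * a + 2)) := Real.rpow_pos_of_pos hx0 _
    linarith
  refine ⟨J, p, fun j z => ϵ * χ j z, ?_, ?_, ?_, ?_⟩
  · intro z
    obtain ⟨j, γ, h1⟩ := hN.cover z
    exact ⟨j, γ, by linarith⟩
  · intro j
    refine ⟨?_, ⟨continuous_const.mul (hN.inv j).1, fun γ z => ?_⟩, fun z => mul_nonneg hϵ0.le (hN.bd j z).1, ?_, fun z hz => ?_⟩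
    · have h1 := hN.smooth j
      unfold QU.CD at h1 ⊢
      have h2 : QU.onC (fun z : ℍ => ϵ * χ j z) = fun w => ϵ * QU.onC (χ j) w := rfl
      rw [h2]
      exact contDiffOn_const.mul h1
    · show ϵ * χ j (γ • z) = ϵ * χ j z
      rw [(hN.inv j).2 γ z]
    · show r⁻¹ ≤ ϵ * χ j (p j)
      have h1 : χ j (p j) = 1 := by
        refine hN.one j (p j) 1 ?_
        rw [OneMemClass.coe_one, one_smul, dist_self]
        positivity
      rw [h1, mul_one, hϵ, inv_eq_one_div]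
      have h2 : ρ ≤ 1 := by linarith
      rw [div_le_div_iff₀ hr0 (by positivity)]
      have h3 : ρ * r ≤ 1 * r := mul_le_mul_of_nonneg_right h2 hr0.le
      linarith
    · obtain ⟨γ, h1⟩ := hN.supp j z (right_ne_zero_of_mul hz)
      exact ⟨γ, h1.trans hρlog⟩
  · intro ξ hξ k
    rw [hV ξ]
    obtain ⟨V0, v1, v2, v3⟩ := hN.mol ξ hξ
    have h1 : (fun z => ϵ * VV χ ξ z) = QU.conv (mo κ ρ) (fun z => ϵ * V0 z) := by
      funext z
      have h2 : VV χ ξ z = QU.conv (mo κ ρ) V0 z := v3 z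
      rw [h2]
      unfold QU.conv
      rw [← integral_const_mul]
      refine integral_congr_ae (ae_of_all _ fun w => ?_)
      simp only [smul_eq_mul]
      ring
    have h3 : CkB k (fun z => ϵ * VV χ ξ z) (c k * (ϵ * C0) * ρ ^ (-(2 * (k : ℝ)))) := by
      rw [h1]
      refine hcK k ρ (ϵ * C0) _ hρ1 (by linarith) (continuous_const.mul v1.1) fun z => ?_
      rw [abs_mul, abs_of_pos hϵ0]
      exact mul_le_mul_of_nonneg_left (v2 z) hϵ0.le
    intro g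
    refine le_trans (h3 g) ?_
    rw [← hx]
    exact FIN_sem a x r ρ ϵ (c k) C0 k ha g4 g6 hρ hϵ (hc k) hC0
  · -- the union bound
    obtain ⟨q, hq⟩ : ∃ q : ℝ, q = r ^ (1 / 50 : ℝ) := ⟨_, rfl⟩
    have hq0 : 0 < q := by rw [hq]; positivity
    have hq1 : 1 ≤ q := by rw [hq]; exact Real.one_le_rpow (by linarith) (by norm_num)
    rw [← hq] at g1
    have hxA1 : 1 ≤ x ^ A := Real.one_le_rpow (by linarith) hA.le
    have hxAr : x ^ A ≤ r := by nlinarith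
    obtain ⟨M, hM⟩ : ∃ M : ℕ, M = ⌊(r * x ^ A - r) * q⌋₊ + 1 := ⟨_, rfl⟩
    have hw0 : 0 ≤ (r * x ^ A - r) * q := by
      refine mul_nonneg ?_ hq0.le
      nlinarith
    have hM2 : (M : ℝ) ≤ r ^ 2 := by
      have h1 : (M : ℝ) ≤ (r * x ^ A - r) * q + 1 := by
        rw [hM]
        push_cast
        linarith [Nat.floor_le hw0]
      have h2 : r * x ^ A * q ≤ r * (r / 2) := by
        rw [mul_assoc]
        exact mul_le_mul_of_nonneg_left g1 hr0.le
      nlinarith [mul_pos hr0 hq0]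
    have hcond : ∀ R : ℝ, r ≤ R → R ≤ r * x ^ A → volume {ξ : Fin J → ℝ | ξ ∈ cube J ∧ ¬ ∀ (F : Set ℍ) (μ : ℝ) (φ : ℍ → ℂ), QU.NiceDom Γ F → 0 < μ → |Real.sqrt μ - R| ≤ R ^ (-(1 / 100) : ℝ) → CEig Γ (fun z => ϵ * VV χ ξ z) μ φ → Eqd Γ F (fun z => ϵ * VV χ ξ z) ε φ} ≤
        ENNReal.ofReal (r ^ (-(B + 2))) * volume (cube J) := by
      intro R hR1 hR2
      have hRpos : 0 < R := lt_of_lt_of_le hr0 hR1
      have hX1 : x ≤ Real.log R := by rw [hx]; exact Real.log_le_log hr0 hR1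
      have hX0 : 0 < Real.log R := lt_of_lt_of_le hx0 hX1
      have hX2 : Real.log R ≤ x * (1 + A * (Real.log x / x)) := by
        have h1 : Real.log R ≤ Real.log (r * x ^ A) := Real.log_le_log hRpos hR2
        rw [Real.log_mul hr0.ne' (by positivity), Real.log_rpow hx0, ← hx] at h1
        have h2 : x * (1 + A * (Real.log x / x)) = x + A * Real.log x := by
          field_simp
        rw [h2]
        exact h1
      have k1 : (Real.log R) ^ (-(2 * a + 2)) / 2 ≤ ρ := by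
        have h1 : (Real.log R) ^ (-(2 * a + 2)) ≤ x ^ (-(2 * a + 2)) := Real.rpow_le_rpow_of_nonpos hx0 hX1 (by linarith)
        have h2 : 0 < x ^ (-(2 * a + 2)) := Real.rpow_pos_of_pos hx0 _
        rw [hρ]
        linarith
      have k2 : ρ ≤ (Real.log R) ^ (-(2 * a + 2)) := by
        have h1 : (Real.log R) ^ (2 * a + 2) ≤ x ^ (2 * a + 2) * (4 / 3) := by
          have hpos : 0 ≤ 1 + A * (Real.log x / x) := by
            have := Real.log_nonneg (show (1 : ℝ) ≤ x by linarith)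
            positivity
          calc (Real.log R) ^ (2 * a + 2) ≤ (x * (1 + A * (Real.log x / x))) ^ (2 * a + 2) :=
                Real.rpow_le_rpow hX0.le hX2 (by linarith)
            _ = x ^ (2 * a + 2) * (1 + A * (Real.log x / x)) ^ (2 * a + 2) := Real.mul_rpow hx0.le hpos
            _ ≤ x ^ (2 * a + 2) * (4 / 3) := mul_le_mul_of_nonneg_left g3 (Real.rpow_nonneg hx0.le _)
        have h2 : 0 < (Real.log R) ^ (2 * a + 2) := Real.rpow_pos_of_pos hX0 _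
        have h3 : 0 < x ^ (2 * a + 2) := Real.rpow_pos_of_pos hx0 _
        rw [hρ, Real.rpow_neg hx0.le, Real.rpow_neg hX0.le]
        have h4 : (x ^ (2 * a + 2) * (4 / 3))⁻¹ ≤ ((Real.log R) ^ (2 * a + 2))⁻¹ := inv_anti₀ h2 h1
        rw [mul_inv] at h4
        norm_num at h4 ⊢
        linarith
      have k3 : 16 / (ρ * R) ≤ ϵ := by
        rw [hϵ]
        exact div_le_div_of_nonneg_left (by norm_num) (by positivity) (mul_le_mul_of_nonneg_left hR1 hρ1.le)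
      have k4 : ϵ ≤ (Real.log R) ^ (A + 1) / (ρ * R) := by
        rw [hϵ, div_le_div_iff₀ (by positivity) (by positivity)]
        have h1 : x ^ (A + 1) ≤ (Real.log R) ^ (A + 1) := Real.rpow_le_rpow hx0.le hX1 (by linarith)
        have h2 : x ^ (A + 1) = x ^ A * x := by rw [Real.rpow_add_one hx0.ne']
        have h3 : 16 * R ≤ (Real.log R) ^ (A + 1) * r := by
          have h4 : 16 * R ≤ 16 * (r * x ^ A) := by linarith
          have h5 : 16 * (r * x ^ A) ≤ x * (r * x ^ A) := mul_le_mul_of_nonneg_right g4 (by positivity)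
          have h6 : x ^ (A + 1) * r ≤ (Real.log R) ^ (A + 1) * r := mul_le_mul_of_nonneg_right h1 hr0.le
          rw [h2] at h6
          linarith [show x * (r * x ^ A) = x ^ A * x * r by ring]
        calc 16 * (ρ * R) = ρ * (16 * R) := by ring
          _ ≤ ρ * ((Real.log R) ^ (A + 1) * r) := mul_le_mul_of_nonneg_left h3 hρ1.le
          _ = (Real.log R) ^ (A + 1) * (ρ * r) := by ring
      refine le_trans (hP R ρ ϵ J p χ (le_trans g5 hR1) k1 k2 k3 k4 hN) ?_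
      refine mul_le_mul_left (ENNReal.ofReal_le_ofReal ?_) _
      exact Real.rpow_le_rpow_of_nonpos hr0 hR1 (by linarith)
    have hsub : {ξ : Fin J → ℝ | ξ ∈ cube J ∧ ¬ Good Γ (fun z => ∑ j, ξ j * (ϵ * χ j z)) ε r (r * (Real.log r) ^ A)} ⊆
        ⋃ i ∈ Finset.range M, {ξ : Fin J → ℝ | ξ ∈ cube J ∧ ¬ ∀ (F : Set ℍ) (μ : ℝ) (φ : ℍ → ℂ), QU.NiceDom Γ F → 0 < μ → |Real.sqrt μ - (r + i * q⁻¹)| ≤ (r + i * q⁻¹) ^ (-(1 / 100) : ℝ) → CEig Γ (fun z => ϵ * VV χ ξ z) μ φ → Eqd Γ F (fun z => ϵ * VV χ ξ z) ε φ} := by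
      rintro ξ ⟨hξ, hbad⟩
      rw [hV ξ, ← hx] at hbad
      unfold Good at hbad
      push Not at hbad
      obtain ⟨F, μ, φ, b1, b2, b3, b4, b5⟩ := hbad
      have hμ0 : 0 < μ := lt_of_lt_of_le (by positivity) b2
      have s1 : r ≤ Real.sqrt μ := Real.le_sqrt_of_sq_le b2
      have s2 : Real.sqrt μ ≤ r * x ^ A := by
        rw [Real.sqrt_le_left (by positivity)]
        exact b3
      have s3 : 0 ≤ (Real.sqrt μ - r) * q := mul_nonneg (by linarith) hq0.le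
      obtain ⟨i, hi⟩ : ∃ i : ℕ, i = ⌊(Real.sqrt μ - r) * q⌋₊ := ⟨_, rfl⟩
      have s4 : (i : ℝ) ≤ (Real.sqrt μ - r) * q := by rw [hi]; exact Nat.floor_le s3
      have s5 : (Real.sqrt μ - r) * q < (i : ℝ) + 1 := by rw [hi]; exact Nat.lt_floor_add_one _
      have s6 : i < M := by
        rw [hM, hi]
        refine Nat.lt_succ_of_le (Nat.floor_le_floor ?_)
        exact mul_le_mul_of_nonneg_right (by linarith) hq0.le
      have hqi : q * q⁻¹ = 1 := mul_inv_cancel₀ hq0.ne'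
      have hqi0 : 0 < q⁻¹ := inv_pos.mpr hq0
      have t1 : (i : ℝ) * q⁻¹ ≤ Real.sqrt μ - r := by
        have := mul_le_mul_of_nonneg_right s4 hqi0.le
        rwa [mul_assoc, hqi, mul_one] at this
      have t2 : Real.sqrt μ - r ≤ ((i : ℝ) + 1) * q⁻¹ := by
        have := mul_le_mul_of_nonneg_right s5.le hqi0.le
        rwa [mul_assoc, hqi, mul_one] at this
      have t3 : 0 < r + (i : ℝ) * q⁻¹ := by positivity
      refine Set.mem_iUnion₂.mpr ⟨i, Finset.mem_range.mpr s6, hξ, fun hall => b5 (hall F μ φ b1 hμ0 ?_ b4)⟩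
      have t4 : |Real.sqrt μ - (r + (i : ℝ) * q⁻¹)| ≤ q⁻¹ := by
        rw [abs_le]
        constructor
        · linarith
        · linarith
      refine le_trans t4 ?_
      have t5 : r + (i : ℝ) * q⁻¹ ≤ r ^ (2 : ℝ) := by
        have h1 : r * x ^ A ≤ r ^ (2 : ℝ) := by
          rw [Real.rpow_two]
          nlinarith
        linarith
      have t6 : (r ^ (2 : ℝ)) ^ (-(1 / 100) : ℝ) ≤ (r + (i : ℝ) * q⁻¹) ^ (-(1 / 100) : ℝ) :=
        Real.rpow_le_rpow_of_nonpos t3 t5 (by norm_num)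
      have t7 : q⁻¹ = (r ^ (2 : ℝ)) ^ (-(1 / 100) : ℝ) := by
        rw [← Real.rpow_mul hr0.le, hq, ← Real.rpow_neg hr0.le]
        norm_num
      rw [t7]
      rw [t7] at t6
      exact t6
    have hfin : ∀ i ∈ Finset.range M, volume {ξ : Fin J → ℝ | ξ ∈ cube J ∧ ¬ ∀ (F : Set ℍ) (μ : ℝ) (φ : ℍ → ℂ), QU.NiceDom Γ F → 0 < μ → |Real.sqrt μ - (r + i * q⁻¹)| ≤ (r + i * q⁻¹) ^ (-(1 / 100) : ℝ) → CEig Γ (fun z => ϵ * VV χ ξ z) μ φ → Eqd Γ F (fun z => ϵ * VV χ ξ z) ε φ} ≤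
        ENNReal.ofReal (r ^ (-(B + 2))) * volume (cube J) := by
      intro i hi
      have h1 : (i : ℝ) ≤ (r * x ^ A - r) * q := by
        have h2 := Finset.mem_range.mp hi
        rw [hM] at h2
        exact le_trans (Nat.cast_le.mpr (Nat.lt_succ_iff.mp h2)) (Nat.floor_le hw0)
      have hqi : q * q⁻¹ = 1 := mul_inv_cancel₀ hq0.ne'
      have hqi0 : 0 < q⁻¹ := inv_pos.mpr hq0
      have t1 : (i : ℝ) * q⁻¹ ≤ r * x ^ A - r := by
        have := mul_le_mul_of_nonneg_right h1 hqi0.le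
        rwa [mul_assoc, hqi, mul_one] at this
      refine hcond (r + i * q⁻¹) ?_ (by linarith)
      have : 0 ≤ (i : ℝ) * q⁻¹ := by positivity
      linarith
    refine le_trans (measure_mono hsub) (le_trans (measure_biUnion_finset_le _ _) (le_trans (Finset.sum_le_sum hfin) ?_))
    rw [Finset.sum_const, Finset.card_range, nsmul_eq_mul, ← mul_assoc]
    refine mul_le_mul_left ?_ _
    rw [← ENNReal.ofReal_natCast, ← ENNReal.ofReal_mul (Nat.cast_nonneg M)]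
    refine ENNReal.ofReal_le_ofReal ?_
    have h1 : r ^ (-B) = r ^ 2 * r ^ (-(B + 2)) := by
      rw [← Real.rpow_natCast, ← Real.rpow_add hr0]
      congr 1
      push_cast
      ring
    rw [h1]
    exact mul_le_mul_of_nonneg_right hM2 (Real.rpow_nonneg hr0.le _)

end

end Pool.Agent.RPQ
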