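import Pool.Agent.helper11.RPQ.FN2

/-!
# MP_07c750_an, project RPQ: the final statement for an arbitrary fundamental domain
-/

set_option autoImplicit false

open scoped MatrixGroups ContDiff Topology UpperHalfPlane ComplexConjugate
open UpperHalfPlane MeasureTheory Filter Set

namespace Pool.Agent.RPQ

open Pool.Agent.RS

theorem FN3 (hFN2 : FN2_stmt) (hDOM : QU.DOM_stmt) (hDOB : QU.DOB_stmt) (Γ : Subgroup SL(2, ℝ)) (F : Set ℍ) (hΓ : QU.SurfaceGroup Γ)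
    (hF : IsFundamentalDomain Γ F (volume : Measure ℍ)) (ε A B : ℝ) (hε : 0 < ε) (hA : 0 < A) (hB : 0 < B) :
    ∃ (a r₀ : ℝ) (C : ℕ → ℝ), 3 ≤ r₀ ∧ ∀ r : ℝ, r₀ ≤ r → ∃ (J : ℕ) (p : Fin J → ℍ) (f : Fin J → ℍ → ℝ),
      (∀ z : ℍ, ∃ (j : Fin J) (γ : Γ), dist z (γ • p j) ≤ 1 / Real.log r) ∧
      (∀ j, QU.CD ∞ (f j) ∧ QU.Inv Γ (f j) ∧ (∀ z, 0 ≤ f j z) ∧ 1 / r ≤ f j (p j) ∧
        ∀ z, f j z ≠ 0 → ∃ γ : Γ, dist z (γ • p j) ≤ 1 / Real.log r) ∧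
      (∀ ξ : Fin J → ℝ, (∀ j, |ξ j| ≤ 1) → ∀ k : ℕ,
        CkB k (fun z => ∑ j, ξ j * f j z) (C k / r * Real.log r ^ (a * (k + 1)))) ∧
      volume {ξ : Fin J → ℝ | (∀ j, |ξ j| ≤ 1) ∧ ¬ ∀ (μ : ℝ) (φ : ℍ → ℂ), r ^ 2 ≤ μ → μ ≤ (r * Real.log r ^ A) ^ 2 →
          CEig Γ (fun z => ∑ j, ξ j * f j z) μ φ →
          ∀ h : ℍ → ℝ, QU.Inv Γ h → (∀ z w, |h z - h w| ≤ dist z w) →
            |(∫ z in F, h z * ‖φ z‖ ^ 2 * Real.exp (∑ j, ξ j * f j z)) -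
              (∫ z in F, h z * Real.exp (∑ j, ξ j * f j z)) / (∫ z in F, Real.exp (∑ j, ξ j * f j z)) *
                ∫ z in F, ‖φ z‖ ^ 2 * Real.exp (∑ j, ξ j * f j z)| ≤
              ε * ∫ z in F, ‖φ z‖ ^ 2 * Real.exp (∑ j, ξ j * f j z)} ≤
        ENNReal.ofReal (r ^ (-B)) * volume {ξ : Fin J → ℝ | ∀ j, |ξ j| ≤ 1} := by
  obtain ⟨a, r0, C, hr0, key⟩ := hFN2 Γ ε B A hΓ hε hB hA
  obtain ⟨F₀, hF₀⟩ := hDOM Γ hΓ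
  obtain ⟨-, -, -, -, htr, -⟩ := hDOB Γ F₀ hΓ hF₀
  obtain ⟨-, hint⟩ := htr F hF
  refine ⟨a, r0, C, hr0, fun r hr => ?_⟩
  obtain ⟨J, p, f, h1, h2, h3, h4⟩ := key r hr
  refine ⟨J, p, f, fun z => ?_, fun j => ?_, fun ξ hξ k => ?_, ?_⟩
  · obtain ⟨j, γ, h5⟩ := h1 z
    exact ⟨j, γ, by rw [one_div]; exact h5⟩
  · obtain ⟨g1, g2, g3, g4, g5⟩ := h2 j
    refine ⟨g1, g2, g3, by rw [one_div]; exact g4, fun z hz => ?_⟩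
    obtain ⟨γ, h5⟩ := g5 z hz
    exact ⟨γ, by rw [one_div]; exact h5⟩
  · have h5 := h3 ξ hξ k
    rw [← div_eq_mul_inv] at h5
    exact h5
  · refine le_trans (measure_mono ?_) h4
    rintro ξ ⟨hξ, hbad⟩
    refine ⟨hξ, fun hgood => hbad ?_⟩
    intro μ φ hμ1 hμ2 hE h hh hl
    have hfi : ∀ (γ : Γ) (z : ℍ), ∑ j, ξ j * f j (γ • z) = ∑ j, ξ j * f j z := by
      intro γ z
      refine Finset.sum_congr rfl fun j _ => ?_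
      rw [(h2 j).2.1.2 γ z]
    have hEq := hgood F₀ μ φ hF₀ hμ1 hμ2 hE h hh hl
    have i1 : ∫ z in F, h z * ‖φ z‖ ^ 2 * Real.exp (∑ j, ξ j * f j z) = ∫ z in F₀, h z * ‖φ z‖ ^ 2 * Real.exp (∑ j, ξ j * f j z) :=
      hint _ fun γ z => by rw [hh.2 γ z, hE.2.1 γ z, hfi γ z]
    have i2 : ∫ z in F, h z * Real.exp (∑ j, ξ j * f j z) = ∫ z in F₀, h z * Real.exp (∑ j, ξ j * f j z) :=
      hint _ fun γ z => by rw [hh.2 γ z, hfi γ z]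
    have i3 : ∫ z in F, Real.exp (∑ j, ξ j * f j z) = ∫ z in F₀, Real.exp (∑ j, ξ j * f j z) :=
      hint _ fun γ z => by rw [hfi γ z]
    have i4 : ∫ z in F, ‖φ z‖ ^ 2 * Real.exp (∑ j, ξ j * f j z) = ∫ z in F₀, ‖φ z‖ ^ 2 * Real.exp (∑ j, ξ j * f j z) :=
      hint _ fun γ z => by rw [hE.2.1 γ z, hfi γ z]
    rw [i1, i2, i3, i4]
    exact hEq

end Pool.Agent.RPQ
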