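import Pool.Agent.helper29.RPQ.AllP
import Pool.Agent.helper1.RPQ.UNF
import Pool.Agent.helper1.RPQ.VSP
import Pool.Agent.helper11.RPQ.AVG
import Pool.Agent.helper11.RPQ.DET
import Pool.Agent.helper11.RPQ.FN2
import Pool.Agent.helper14.RPQ.UNK
import Pool.Agent.helper18.RPQ.LDV
import Pool.Agent.helper2.RPQ.UNE
import Pool.Agent.helper22.RPQ.QMB
import Pool.Agent.helper22.RPQ.TDE
import Pool.Agent.helper23.RPQ.TRN
import Pool.Agent.helper23.RPQ.VO2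
import Pool.Agent.helper24.RPQ.CNA
import Pool.Agent.helper24.RPQ.UTM
import Pool.Agent.helper25.RPQ.WEX
import Pool.Agent.helper27.RPQ.CHN
import Pool.Agent.helper27.RPQ.QPS
import Pool.Agent.helper28.RPQ.MCV
import Pool.Agent.helper29.RPQ.UNL
import Pool.Agent.helper3.RPQ.MEX
import Pool.Agent.helper3.RPQ.MKS
import Pool.Agent.helper30.RPQ.WXN
import Pool.Agent.helper33.RPQ.BLK
import Pool.Agent.helper33.RPQ.CAE
import Pool.Agent.helper39.RPQ.MOA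
import Pool.Agent.helper39.RPQ.QNW
import Pool.Agent.helper43.RPQ.F2
import Pool.Agent.helper44.RPQ.CAK
import Pool.Agent.helper49.RPQ.CPL
import Pool.Agent.helper50.RPQ.LNT
import Pool.Agent.helper54.RPQ.PIG
import Pool.Agent.helper55.RPQ.SPK
import Pool.Agent.helper58.RPQ.MFC
import Pool.Agent.helper65.RPQ.KO
import Pool.Agent.helper65.RPQ.KPG
import Pool.Agent.helper65.RPQ.KPS
import Pool.Agent.helper65.RPQ.OPW
import Pool.Agent.helper65.RPQ.PIN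
import Pool.Agent.helper65.RPQ.VXI
import Pool.Agent.helper65.RPQ.WDK
import Pool.Agent.helper65.RPQ.WL1
import Pool.Agent.helper65.RPQ.WL2
import Pool.Agent.helper65.RPQ.WRD
import Pool.Agent.helper68.RPQ.NBD
import Pool.Agent.helper68.RPQ.THL
import Pool.Agent.helper68.RPQ.UCT
import Pool.Agent.helper71.RPQ.UFX
import Pool.Agent.helper75.RPQ.BMP
import Pool.Agent.helper75.RPQ.EHS
import Pool.Agent.helper76.RPQ.FLP
import Pool.Agent.helper76.RPQ.MOM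
import Pool.Agent.helper77.RPQ.CBE
import Pool.Agent.helper77.RPQ.PAR
import Pool.Agent.helper77.RPQ.SNC
import Pool.Agent.helper78.RPQ.INJ
import Pool.Agent.helper78.RPQ.SPM
import Pool.Agent.helper79.RPQ.GRW
import Pool.Agent.helper8.RPQ.CNT
import Pool.Agent.helper80.RPQ.CKB
import Pool.Agent.helper87.RPQ.NRS
import Pool.Agent.helper89.RPQ.UOP
import Pool.Agent.helper91.RPQ.SPD
import Pool.Agent.helper92.RPQ.LAT
import Pool.Agent.helper98.RPQ.EH1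
import Pool.Agent.helper98.RPQ.PRB
import Pool.Agent.helper98.RPQ.WDE
import Pool.Agent.helper99.RPQ.STP
import Pool.Agent.helper99.RPQ.TPT
import Pool.Agent.helper11.RPQ.FN3
import Pool.Agent.helper62.RS.All
import Pool.Agent.helper11.MS.SYB

/-!
# MP_07c750_an, project RPQ: assembly
-/

set_option autoImplicit false

open scoped MatrixGroups ContDiff Topology UpperHalfPlane ComplexConjugate
open UpperHalfPlane MeasureTheory Filter Set

namespace Pool.Agent.RPQ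

open Pool.Agent.RS

theorem A_WL1 : WL1_stmt := WL1_proof 
theorem A_WL2 : WL2_stmt := WL2_proof 
theorem A_WRD : WRD_stmt := WRD_proof A_WL1 A_WL2
theorem A_UNF : UNF_stmt := UNF_proof A_CWB
theorem A_UCT : UCT_stmt := UCT_proof A_UNF A_F1 A_CWB (Pool.Agent.MS.SYB_proof RS.A_GDU RS.A_GWB RS.A_GFD RS.A_GBD) RS.A_GWB RS.A_GFD RS.A_FL0
theorem A_NBD : NBD_stmt := NBD_proof A_BU3 A_HFB
theorem A_KO1 : KO1_stmt := KO1_proof 
theorem A_SPK : SPK_stmt := SPK_proof A_KO1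
theorem A_NRS : NRS_stmt := NRS_proof 
theorem A_SPD : SPD_stmt := SPD_proof A_SPK A_NRS
theorem A_CPL : CPL_stmt := CPL_proof A_SPD
theorem A_SPM : SPM_stmt := SPM_proof 
theorem A_F2 : F2_stmt := F2_proof A_NBD A_CPL A_SPM A_ACC A_CWB
theorem A_MOM : MOM_stmt := MOM_proof 
theorem A_QPS : QPS_stmt := QPS_proof A_MOM
theorem A_TDE : TDE_stmt := TDE_proof RS.A_GLC RS.A_GWB RS.A_FL0 RS.A_CV1
theorem A_FLP : FLP_stmt := FLP_proof 
theorem A_MOA : MOA_stmt := MOA_proof 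
theorem A_VSP : VSP_stmt := VSP_proof A_MOA A_MOM A_GFB A_ACC A_ACM A_CWB
theorem A_TRN : TRN_stmt := TRN_proof A_TDE A_FLP A_VSP A_GFB A_ACC A_F1 A_QPS A_CWB
theorem A_UFX : UFX_stmt := UFX_proof A_UNF A_F1 A_F2 A_QPS A_TRN A_CWB
theorem A_INJ : INJ_stmt := INJ_proof 
theorem A_GRW : GRW_stmt := GRW_proof A_INJ
theorem A_KPG : KPG_stmt := KPG_proof 
theorem A_KPS : KPS_stmt := KPS_proof A_KPG
theorem A_KO2 : KO2_stmt := KO2_proof 
theorem A_KO3 : KO3_stmt := KO3_proof 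
theorem A_UOP : UOP_stmt := UOP_proof A_UCT A_UFX A_UKB A_GRW A_KPG A_KPS A_KO1 A_KO2 A_KO3 A_GKD A_CWB A_F1
theorem A_QNW : QNW_stmt := QNW_proof A_F1 A_CWB A_ACC
theorem A_AVG : AVG_stmt := AVG_proof A_QNW A_F1 A_F2 A_QPS A_TRN A_CWB RS.A_GLC RS.A_GFD RS.A_GBD RS.A_GWB RS.A_CV1
theorem A_OPW : OPW_stmt := OPW_proof A_KO1 A_KO2 A_KPG A_KPS
theorem A_LDV : LDV_stmt := LDV_proof 
theorem A_DET : DET_stmt := DET_proof A_WRD A_UOP A_AVG A_KO1 A_KO2 A_KPG A_KPS A_OPW A_LDV A_CWB A_UKB A_GKD RS.A_GLC RS.A_GFD RS.A_GBD RS.A_GWB RS.A_CV1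
theorem A_SNC : SNC_stmt := SNC_proof 
theorem A_QMB : QMB_stmt := QMB_proof A_SNC
theorem A_VXI : VXI_stmt := VXI_proof 
theorem A_UNK : UNK_stmt := UNK_proof A_VXI A_KPG
theorem A_CAK : CAK_stmt := CAK_proof A_UNK A_KPG
theorem A_MKS : MKS_stmt := MKS_proof A_VXI
theorem A_WDK : WDK_stmt := WDK_proof A_CAK A_UNK A_MKS A_VXI A_KPG A_KPS
theorem A_THL : THL_stmt := THL_proof A_VXI RS.A_GLC
theorem A_PIN : PIN_stmt := PIN_proof A_WDK A_THL
theorem A_UNE : UNE_stmt := UNE_proof A_VXI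
theorem A_CAE : CAE_stmt := CAE_proof A_UNE
theorem A_WDE : WDE_stmt := WDE_proof A_UNE A_CAE A_MKS A_VXI
theorem A_EH1 : EH1_stmt := EH1_proof A_QMB A_PIN A_WDE A_VXI
theorem A_UNL : UNL_stmt := UNL_proof 
theorem A_EHS : EHS_stmt := EHS_proof A_SNC A_EH1 A_PIN A_UNL A_WDE
theorem A_CHN : CHN_stmt := CHN_proof A_UNL A_WDE
theorem A_WXN : WXN_stmt := WXN_proof A_EHS A_CHN
theorem A_PAR : PAR_stmt := PAR_proof 
theorem A_CBE : CBE_stmt := CBE_proof 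
theorem A_UTM : UTM_stmt := UTM_proof A_UKB A_GKD A_CWB
theorem A_STP : STP_stmt := STP_proof 
theorem A_VO2 : VO2_stmt := VO2_proof A_VOX
theorem A_MCV : MCV_stmt := MCV_proof A_STP A_VO2
theorem A_LAT : LAT_stmt := LAT_proof 
theorem A_BLK : BLK_stmt := BLK_proof A_MCV A_LAT
theorem A_TPT : TPT_stmt := TPT_proof 
theorem A_PIG : PIG_stmt := PIG_proof A_TPT A_INJ
theorem A_CNA : CNA_stmt := CNA_proof 
theorem A_CNT : CNT_stmt := CNT_proof A_PIG A_CNA A_INJ RS.A_GLC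
theorem A_WEX : WEX_stmt := WEX_proof A_WXN A_PAR A_CBE A_UTM A_MCV A_BLK A_CNT
theorem A_LNT : LNT_stmt := LNT_proof 
theorem A_MFC : MFC_stmt := MFC_proof 
theorem A_MEX : MEX_stmt := MEX_proof 
theorem A_PRB : PRB_stmt := PRB_proof A_DET A_WEX A_LDV A_LNT A_MFC A_MOM A_MEX A_UTM
theorem A_CKB : CKB_stmt := CKB_proof A_MOM
theorem A_BMP : BMP_stmt := BMP_proof A_MOM A_CKB A_INJ
theorem A_FN2 : FN2_stmt := FN2_proof A_PRB A_BMP A_MOM A_CKB

end Pool.Agent.RPQ
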