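import Pool.Agent.helper11.RPQ.All
import Pool.Agent.helper21.RPQ.MEW
import Pool.Agent.helper21.RPQ.UFL
import Pool.Agent.helper26.RPQ.DEL
import Pool.Agent.helper3.RPQ.GI2
import Pool.Agent.helper31.RPQ.SER
import Pool.Agent.helper31.RPQ.TRL
import Pool.Agent.helper33.RPQ.FAM
import Pool.Agent.helper38.RPQ.BCI
import Pool.Agent.helper39.RPQ.AVL
import Pool.Agent.helper39.RPQ.PIW
import Pool.Agent.helper49.RPQ.EHW
import Pool.Agent.helper53.RPQ.RSM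
import Pool.Agent.helper55.RPQ.GI1
import Pool.Agent.helper55.RPQ.LIP
import Pool.Agent.helper55.RPQ.RFP
import Pool.Agent.helper55.RPQ.WXW
import Pool.Agent.helper58.RPQ.QPL
import Pool.Agent.helper58.RPQ.VSL
import Pool.Agent.helper59.RPQ.THW
import Pool.Agent.helper59.RPQ.WEW
import Pool.Agent.helper78.RPQ.ESW
import Pool.Agent.helper8.RPQ.PRW
import Pool.Agent.helper84.RPQ.FNI
import Pool.Agent.helper92.RPQ.UOL
import Pool.Agent.helper11.RPQ.FNJ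

/-!
# MP_07c750_an, project RPI: assembly
-/

set_option autoImplicit false

open scoped MatrixGroups ContDiff Topology UpperHalfPlane ComplexConjugate
open UpperHalfPlane MeasureTheory Filter Set

namespace Pool.Agent.RPQ

open Pool.Agent.RS

theorem A_FAM : FAM_stmt := FAM_proof A_BMP A_MOM A_CKB
theorem A_LIP : LIP_stmt := LIP_proof 
theorem A_SER : SER_stmt := SER_proof 
theorem A_RFP : RFP_stmt := RFP_proof A_LIP A_SER
theorem A_QPL : QPL_stmt := QPL_proof A_MOM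
theorem A_VSL : VSL_stmt := VSL_proof A_VSP A_F1 A_MOM A_CWB
theorem A_TRL : TRL_stmt := TRL_proof A_TDE A_FLP A_VSL A_GFB A_ACC A_F1 A_QPL A_CWB
theorem A_UFL : UFL_stmt := UFL_proof A_UNF A_F1 A_F2 A_QPL A_TRL A_CWB
theorem A_UOL : UOL_stmt := UOL_proof A_UCT A_UFL A_UKB A_GRW A_KPG A_KPS A_KO1 A_KO2 A_KO3 A_GKD A_CWB A_F1
theorem A_AVL : AVL_stmt := AVL_proof A_QNW A_F1 A_F2 A_QPL A_TRL A_CWB RS.A_GLC RS.A_GFD RS.A_GBD RS.A_GWB RS.A_CV1
theorem A_DEL : DEL_stmt := DEL_proof A_WRD A_UOL A_AVL A_KO1 A_KO2 A_KPG A_KPS A_OPW A_LDV A_CWB A_UKB A_GKD RS.A_GLC RS.A_GFD RS.A_GBD RS.A_GWB RS.A_CV1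
theorem A_THW : THW_stmt := THW_proof A_VXI RS.A_GLC
theorem A_PIW : PIW_stmt := PIW_proof A_WDK A_THL A_THW
theorem A_EHW : EHW_stmt := EHW_proof A_QMB A_PIW A_WDE A_VXI
theorem A_ESW : ESW_stmt := ESW_proof A_SNC A_EHW A_PIW A_UNL A_WDE
theorem A_WXW : WXW_stmt := WXW_proof A_ESW A_CHN
theorem A_WEW : WEW_stmt := WEW_proof A_WXW A_PAR A_UTM A_MCV A_BLK A_CNT
theorem A_MEW : MEW_stmt := MEW_proof 
theorem A_PRW : PRW_stmt := PRW_proof A_DEL A_WEW A_LDV A_LNT A_MFC A_MEW A_UTM A_SNC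
theorem A_RSM : RSM_stmt := RSM_proof 
theorem A_GI1 : GI1_stmt := GI1_proof 
theorem A_GI2 : GI2_stmt := GI2_proof 
theorem A_BCI : BCI_stmt := BCI_proof A_PRW A_RSM A_RFP A_GI1 A_GI2
theorem A_FNI : FNI_stmt := FNI_proof A_FAM A_RFP A_BCI

end Pool.Agent.RPQ
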