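import Pool.Agent.helper62.MS.SpecA
import Pool.Agent.helper62.EN.SpecX

/-!
# MP_07c750 (quantum unique ergodicity, weight 10), project RPQ: common notions

Paper proof: /team-store/RPQ.md. THEOREM: for every closed hyperbolic surface, for all but a proportion `r^(-B)` of the
metrics `e^f g` of an explicit family with `f` of size `r^(-1) (log r)^a` (small in every `C^k`) EVERY Laplace eigenfunction of `e^f g` with
frequency in `[r, r+1]` is `ε`-equidistributed, uniformly over all 1-Lipschitz test functions.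

RULES. Row `rpq:XXX`: file `Pool/Agent/<seat>/RPQ/XXX.lean`, `import` the spec of the row, `set_option autoImplicit false`, namespace
`Pool.Agent.RPQ`, `open Pool.Agent.RS`, `open Pool.Agent.MS (BA BB st pf gk Dk amk)`, auxiliary lemmas prefixed `XXX_`, theorem `XXX_proof : XXX_stmt` (rows listed in `from` may
be used as hypotheses `(h : YYY_stmt)`). All rows of QU, RS, EN are proved: `import Pool.Agent.helper62.RS.All` gives `Pool.Agent.RS.A_GLC`,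
`RS.A_BK5`, `RS.A_GR2`, `RS.A_CV1`, `RS.A_FL0`, ..., `import Pool.Agent.helper62.EN.All` gives `Pool.Agent.EN.A_XDS`, ...; the rows of MS are in
`Pool/Agent/*/MS/*.lean` (`Pool.Agent.MS.SYB_proof`, `SCH_proof`, `STB_proof`, ...). No `convert`, `congr!`, `native_decide`, no double quotes, no `private`.
-/

open scoped MatrixGroups ContDiff Topology UpperHalfPlane ComplexConjugate
open UpperHalfPlane MeasureTheory Filter Set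

namespace Pool.Agent.RPQ

open Pool.Agent.RS
open Pool.Agent.MS (BA BB st pf gk Dk amk)

noncomputable section

/-! ## Packets -/

/-- `α` squeezed to the length `l` with the same integral -/
def sc (l : ℝ) (α : ℝ → ℝ) (t : ℝ) : ℝ := α (t / l) / l

/-- the packet amplitude of width `w` and length `l`: `w^(-1/2) β(x/w) l^(-1) α(log y / l)` (for `w > 0`) -/
def cw (β α : ℝ → ℝ) (w l : ℝ) : ℍ → ℂ := pc (st (Real.log w) β) (sc l α)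

/-- packet coefficients with frequency `R` -/
def QQ (β α : ℝ → ℝ) (w l R : ℝ) (φ : ℍ → ℂ) (g : SL(2, ℝ)) : ℂ := Wf (pk R (cw β α w l)) φ g

/-- the coefficient transported for the time `t` -/
def PT (β α : ℝ → ℝ) (w l R t : ℝ) (φ : ℍ → ℂ) (g : SL(2, ℝ)) : ℂ :=
  Complex.exp (((R * t : ℝ) : ℂ) * Complex.I) * QQ β α (w * Real.exp (-t)) l R φ (g * aM t)

/-- amplitudes supported in `|x| ≤ w`, `|log y| ≤ l` whose derivatives of order `n ≤ k` are at most `A m^n` -/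
structure AC (k : ℕ) (A m w l : ℝ) (c : ℍ → ℂ) : Prop where
  smooth : QU.CD ∞ c
  supp : ∀ z : ℍ, c z ≠ 0 → |z.re| ≤ w ∧ |Real.log z.im| ≤ l
  der : ∀ n ≤ k, ∀ p : ℝ × ℝ, ‖iteratedFDeriv ℝ n (fun q : ℝ × ℝ => cc c q.1 q.2) p‖ ≤ A * m ^ n

/-- the time of one step -/
def tau (R : ℝ) : ℝ := Real.log R / 8

/-- the width of the packets at time `0` -/
def w0 (R : ℝ) : ℝ := R ^ (-(1 / 4) : ℝ)

/-- the width of the packets at the time `tau R`: `w1 R = w0 R * exp (-(tau R))` -/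
def w1 (R : ℝ) : ℝ := R ^ (-(3 / 8) : ℝ)

/-! ## Perturbations -/

/-- profiles of mollifiers -/
structure MO (κ : ℝ → ℝ) : Prop where
  smooth : ContDiff ℝ ∞ κ
  nonneg : ∀ s, 0 ≤ κ s
  supp : ∀ s, 1 / 64 ≤ s → κ s = 0
  mass : ∀ z : ℍ, ∫ w : ℍ, κ (QU.tt z w) = 1

/-- the mollifier of radius `ρ` as a function of `cosh d - 1`; `∫ mo κ ρ (tt z w) dw = 1` -/
def mo (κ : ℝ → ℝ) (ρ t : ℝ) : ℝ := κ (t / ρ ^ 2) / ρ ^ 2

/-- mollified functions -/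
def Mol (Γ : Subgroup SL(2, ℝ)) (κ : ℝ → ℝ) (ρ C : ℝ) (V : ℍ → ℝ) : Prop :=
  ∃ V0 : ℍ → ℝ, QU.Inv Γ V0 ∧ (∀ z, |V0 z| ≤ C) ∧ ∀ z, V z = QU.conv (mo κ ρ) V0 z

/-- nets of bump functions of radius `ρ` -/
structure Net (Γ : Subgroup SL(2, ℝ)) (κ : ℝ → ℝ) (ρ C : ℝ) (J : ℕ) (p : Fin J → ℍ) (χ : Fin J → ℍ → ℝ) : Prop where
  cover : ∀ z : ℍ, ∃ (j : Fin J) (γ : Γ), dist z ((γ : SL(2, ℝ)) • p j) ≤ ρ / 4
  inv : ∀ j, QU.Inv Γ (χ j)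
  smooth : ∀ j, QU.CD ∞ (χ j)
  bd : ∀ j z, 0 ≤ χ j z ∧ χ j z ≤ 1
  one : ∀ (j : Fin J) (z : ℍ) (γ : Γ), dist z ((γ : SL(2, ℝ)) • p j) ≤ ρ / 2 → χ j z = 1
  supp : ∀ (j : Fin J) (z : ℍ), χ j z ≠ 0 → ∃ γ : Γ, dist z ((γ : SL(2, ℝ)) • p j) ≤ ρ
  mol : ∀ ξ : Fin J → ℝ, (∀ j, |ξ j| ≤ 1) → Mol Γ κ ρ C (fun z => ∑ j, ξ j * χ j z)

/-- the random function -/
def VV {J : ℕ} (χ : Fin J → ℍ → ℝ) (ξ : Fin J → ℝ) (z : ℍ) : ℝ := ∑ j, ξ j * χ j z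

/-- the invariant `C^k` seminorm of `f` is at most `B` -/
def CkB (k : ℕ) (f : ℍ → ℝ) (B : ℝ) : Prop := ∀ g : SL(2, ℝ),
  ‖iteratedFDeriv ℝ k (QU.onC (fun z : ℍ => f (g • z))) (I : ℂ)‖ ≤ B

/-- Laplace eigenfunctions of the metric `e^f g` on `Γ \ ℍ` with eigenvalue `μ` -/
def CEig (Γ : Subgroup SL(2, ℝ)) (f : ℍ → ℝ) (μ : ℝ) (φ : ℍ → ℂ) : Prop :=
  QU.CD 2 φ ∧ (∀ (γ : Γ) (z : ℍ), φ (γ • z) = φ z) ∧ ∀ z, QU.lap φ z = ((μ * Real.exp (f z) : ℝ) : ℂ) * φ z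

/-- the phase: `κ` times the integral of `V` along the geodesic of `g` -/
def th (V : ℍ → ℝ) (κ t : ℝ) (g : SL(2, ℝ)) : ℝ := κ * ∫ s in (0 : ℝ)..t, V ((g * aM s) • I)

/-- time averages along the geodesic of `g` -/
def avh (h : ℍ → ℝ) (t : ℝ) (g : SL(2, ℝ)) : ℝ := t⁻¹ * ∫ s in (0 : ℝ)..t, h ((g * aM s) • I)

/-- the mean value of `h` -/
def mean (F : Set ℍ) (h : ℍ → ℝ) : ℝ := (∫ z in F, h z) / (volume F).toReal

/-- the bad set of `h` -/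
def FB (F : Set ℍ) (h : ℍ → ℝ) (e t : ℝ) : Set SL(2, ℝ) := {g | e ≤ |avh h t g - mean F h|}

/-! ## One step -/

/-- the step kernel -/
def uk (β α : ℝ → ℝ) (η R : ℝ) (b : SL(2, ℝ)) : ℂ := (R : ℂ) * Complex.exp (((R * tau R : ℝ) : ℂ) * Complex.I) *
  gk R (cw β α (w1 R) (R ^ (-η))) (cw β α (w0 R) (R ^ (-η))) b

/-- the box which carries the step kernel -/
def Bx (C η ε R : ℝ) : Set SL(2, ℝ) := {b | (∀ i j, |b.1 i j| ≤ 3) ∧ |b.1 1 0| ≤ R ^ (-(5 / 8) + ε) ∧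
  |b.1 0 1| ≤ C * R ^ (-(1 / 4) : ℝ) ∧ |b.1 0 0 - b.1 1 1| ≤ C * R ^ (-η)}

/-- the truncated step kernel -/
def ut (β α : ℝ → ℝ) (C η ε R : ℝ) : SL(2, ℝ) → ℂ := (Bx C η ε R).indicator (uk β α η R)

/-- the majorant of the truncated step kernel -/
def mj (C η ε R : ℝ) : SL(2, ℝ) → ENNReal :=
  (Bx C η ε R).indicator (fun _ => ENNReal.ofReal (C * R ^ (15 / 16 + η)))

/-! ## Paths -/

/-- the path with the increments `b` -/
def pth (t : ℝ) (g : SL(2, ℝ)) (b : ℕ → SL(2, ℝ)) : ℕ → SL(2, ℝ)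
  | 0 => g
  | j + 1 => pth t g b j * aM t * b j

/-- the frame at the time `s` of the path (piecewise geodesic) -/
def fr (t : ℝ) (g : SL(2, ℝ)) (b : ℕ → SL(2, ℝ)) (s : ℝ) : SL(2, ℝ) :=
  pth t g b ⌊s / t⌋₊ * aM (s - ⌊s / t⌋₊ * t)

/-- the phase of a path of `N` steps -/
def TH (V : ℍ → ℝ) (κ t : ℝ) (N : ℕ) (g : SL(2, ℝ)) (b : ℕ → SL(2, ℝ)) : ℝ :=
  ∑ j ∈ Finset.range N, th V κ t (pth t g b j)

/-- the two paths are not detected by more than `nc` of the bumps -/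
def Und {J : ℕ} (χ : Fin J → ℍ → ℝ) (κ t : ℝ) (N nc : ℕ) (g g' : SL(2, ℝ)) (b b' : ℕ → SL(2, ℝ)) : Prop :=
  {j : Fin J | 1 ≤ |TH (χ j) κ t N g b - TH (χ j) κ t N g' b'|}.ncard < nc

/-- `mc m t n` is the majorant for `n + 1` steps -/
def mc (m : SL(2, ℝ) → ENNReal) (t : ℝ) : ℕ → SL(2, ℝ) → SL(2, ℝ) → ENNReal
  | 0 => fun g h => m ((g * aM t)⁻¹ * h)
  | n + 1 => fun g h => ∫⁻ p, m ((g * aM t)⁻¹ * p) * mc m t n p h ∂mG

/-- the elements `± l_u a_(t+s) n_x` -/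
def SN (C η ε R t : ℝ) : Set SL(2, ℝ) := {q | ∃ u s x θ : ℝ, (θ = 0 ∨ θ = Real.pi) ∧ |u| ≤ C * R ^ (-(3 / 4) + ε) ∧
  |s| ≤ C * R ^ (-η) ∧ |x| ≤ C * R ^ (-(1 / 4) : ℝ) ∧ q = lM u * aM (t + s) * nM x * kM θ}

/-! ## Kernels on `G = SL(2, ℝ)` and on `Γ \ G` -/

/-- bounded measurable `Γ`-invariant kernels of finite range -/
structure GKer (Γ : Subgroup SL(2, ℝ)) (K : SL(2, ℝ) → SL(2, ℝ) → ℂ) : Prop where
  meas : Measurable (Function.uncurry K)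
  bdd : ∃ B : ℝ, ∀ g h, ‖K g h‖ ≤ B
  inv : ∀ (γ : Γ) (g h : SL(2, ℝ)), K ((γ : SL(2, ℝ)) * g) ((γ : SL(2, ℝ)) * h) = K g h
  range : ∃ D : ℝ, ∀ g h, K g h ≠ 0 → dist (g • I : ℍ) (h • I) ≤ D

/-- the kernel on `Γ \ G` -/
def perK (Γ : Subgroup SL(2, ℝ)) (K : SL(2, ℝ) → SL(2, ℝ) → ℂ) (g h : SL(2, ℝ)) : ℂ :=
  ∑ᶠ γ : Γ, K g ((γ : SL(2, ℝ)) * h)

/-- composition of kernels -/
def cmp (K L : SL(2, ℝ) → SL(2, ℝ) → ℂ) (g h : SL(2, ℝ)) : ℂ := ∫ p, K g p * L p h ∂mG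

/-- the kernel of one step with the phase of `V` -/
def stK (V : ℍ → ℝ) (κ t : ℝ) (u : SL(2, ℝ) → ℂ) (g h : SL(2, ℝ)) : ℂ :=
  Complex.exp (((th V κ t g : ℝ) : ℂ) * Complex.I) * u ((g * aM t)⁻¹ * h)

/-- `n + 1` steps -/
def itK (V : ℍ → ℝ) (κ t : ℝ) (u : SL(2, ℝ) → ℂ) : ℕ → SL(2, ℝ) → SL(2, ℝ) → ℂ
  | 0 => stK V κ t u
  | n + 1 => cmp (stK V κ t u) (itK V κ t u n)

/-- the kernel of the word `P 𝒰^(n_1 + 1) P 𝒰^(n_2 + 1) P ... P 𝒰^(n_L + 1) P`, `P` = multiplication by the indicator function of `A` -/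
def wdK (V : ℍ → ℝ) (κ t : ℝ) (u : SL(2, ℝ) → ℂ) (A : Set SL(2, ℝ)) : List ℕ → SL(2, ℝ) → SL(2, ℝ) → ℂ
  | [] => fun _ _ => 0
  | [n] => fun g h => A.indicator (fun _ => (1 : ℂ)) g * itK V κ t u n g h * A.indicator (fun _ => (1 : ℂ)) h
  | n :: m :: l => cmp (fun g h => A.indicator (fun _ => (1 : ℂ)) g * itK V κ t u n g h) (wdK V κ t u A (m :: l))

end

end Pool.Agent.RPQ
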