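import Pool.Agent.helper11.RPQ.SpecI

/-!
# MP_07c750_an, project RPI: the final statement for an arbitrary fundamental domain
-/

set_option autoImplicit false

open scoped MatrixGroups ContDiff Topology UpperHalfPlane ComplexConjugate
open UpperHalfPlane MeasureTheory Filter Set

namespace Pool.Agent.RPQ

open Pool.Agent.RS

theorem FNJ (hFNI : FNI_stmt) (hDOM : QU.DOM_stmt) (hDOB : QU.DOB_stmt) (Γ : Subgroup SL(2, ℝ)) (F : Set ℍ) (hΓ : QU.SurfaceGroup Γ)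
    (hF : IsFundamentalDomain Γ F (volume : Measure ℍ)) :
    ∃ (J : ℕ → ℕ) (u : ℕ → ℕ → ℍ → ℝ),
      (∀ k j, QU.CD ∞ (u k j) ∧ QU.Inv Γ (u k j) ∧ ∀ z, 0 ≤ u k j z) ∧
      (∀ n : ℕ, ∃ c : ℕ → ℝ, Summable c ∧ ∀ (k : ℕ) (ξ : ℕ → ℝ), (∀ j, |ξ j| ≤ 1) →
        CkB n (fun z => ∑ j ∈ Finset.range (J k), ξ j * u k j z) (c k)) ∧
      (∀ ξ : ℕ × ℕ → ℝ, (∀ q, |ξ q| ≤ 1) → QU.CD ∞ (fun z => ∑' k, ∑ j ∈ Finset.range (J k), ξ (k, j) * u k j z)) ∧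
      ∀ (f₀ : ℍ → ℝ) (L : ℝ), QU.Inv Γ f₀ → (∀ z w, |f₀ z - f₀ w| ≤ L * dist z w) →
        ∀ᵐ ξ ∂(Measure.infinitePi fun _ : ℕ × ℕ => UN), ∀ ε : ℝ, 0 < ε → ∃ δ r₀ : ℝ, 0 < δ ∧ 3 ≤ r₀ ∧
          ∀ r t : ℝ, r₀ ≤ r → Real.exp (Real.log (Real.log r) ^ 3) / r ≤ t → t ≤ r ^ (-1 + δ) →
            ∀ φ : ℍ → ℂ, CEig Γ (fun z => t * (f₀ z + ∑' k, ∑ j ∈ Finset.range (J k), ξ (k, j) * u k j z)) (r ^ 2) φ →
              ∀ h : ℍ → ℝ, QU.Inv Γ h → (∀ z w, |h z - h w| ≤ dist z w) →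
                |(∫ z in F, h z * ‖φ z‖ ^ 2 * Real.exp (t * (f₀ z + ∑' k, ∑ j ∈ Finset.range (J k), ξ (k, j) * u k j z))) -
                  (∫ z in F, h z * Real.exp (t * (f₀ z + ∑' k, ∑ j ∈ Finset.range (J k), ξ (k, j) * u k j z))) /
                    (∫ z in F, Real.exp (t * (f₀ z + ∑' k, ∑ j ∈ Finset.range (J k), ξ (k, j) * u k j z))) *
                    ∫ z in F, ‖φ z‖ ^ 2 * Real.exp (t * (f₀ z + ∑' k, ∑ j ∈ Finset.range (J k), ξ (k, j) * u k j z))| ≤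
                  ε * ∫ z in F, ‖φ z‖ ^ 2 * Real.exp (t * (f₀ z + ∑' k, ∑ j ∈ Finset.range (J k), ξ (k, j) * u k j z)) := by
  obtain ⟨J, u, h1, h2, h3, h4⟩ := hFNI Γ hΓ
  obtain ⟨F₀, hF₀⟩ := hDOM Γ hΓ
  obtain ⟨-, -, -, -, htr, -⟩ := hDOB Γ F₀ hΓ hF₀
  obtain ⟨-, hint⟩ := htr F hF
  refine ⟨J, u, h1, h2, h3, ?_⟩
  intro f₀ L hf hL
  have h5 := h4 f₀ L hf hL
  unfold PN at h5
  filter_upwards [h5] with ξ hξ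
  intro ε hε
  obtain ⟨δ, r₀, hδ, hr₀, h6⟩ := hξ ε hε
  refine ⟨δ, r₀, hδ, hr₀, ?_⟩
  intro r t hr ht1 ht2 φ hE h hh hl
  have hfi : ∀ (γ : Γ) (z : ℍ), (f₀ (γ • z) + ∑' k, ∑ j ∈ Finset.range (J k), ξ (k, j) * u k j (γ • z)) =
      f₀ z + ∑' k, ∑ j ∈ Finset.range (J k), ξ (k, j) * u k j z := by
    intro γ z
    rw [hf.2 γ z]
    congr 1
    refine tsum_congr fun k => Finset.sum_congr rfl fun j _ => ?_
    rw [(h1 k j).2.1.2 γ z]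
  have hEq := h6 r t hr ht1 ht2 F₀ (r ^ 2) φ hF₀ le_rfl le_rfl hE h hh hl
  have i1 : ∫ z in F, h z * ‖φ z‖ ^ 2 * Real.exp (t * (f₀ z + ∑' k, ∑ j ∈ Finset.range (J k), ξ (k, j) * u k j z)) =
      ∫ z in F₀, h z * ‖φ z‖ ^ 2 * Real.exp (t * (f₀ z + ∑' k, ∑ j ∈ Finset.range (J k), ξ (k, j) * u k j z)) :=
    hint _ fun γ z => by rw [hh.2 γ z, hE.2.1 γ z, hfi γ z]
  have i2 : ∫ z in F, h z * Real.exp (t * (f₀ z + ∑' k, ∑ j ∈ Finset.range (J k), ξ (k, j) * u k j z)) =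
      ∫ z in F₀, h z * Real.exp (t * (f₀ z + ∑' k, ∑ j ∈ Finset.range (J k), ξ (k, j) * u k j z)) :=
    hint _ fun γ z => by rw [hh.2 γ z, hfi γ z]
  have i3 : ∫ z in F, Real.exp (t * (f₀ z + ∑' k, ∑ j ∈ Finset.range (J k), ξ (k, j) * u k j z)) =
      ∫ z in F₀, Real.exp (t * (f₀ z + ∑' k, ∑ j ∈ Finset.range (J k), ξ (k, j) * u k j z)) :=
    hint _ fun γ z => by rw [hfi γ z]
  have i4 : ∫ z in F, ‖φ z‖ ^ 2 * Real.exp (t * (f₀ z + ∑' k, ∑ j ∈ Finset.range (J k), ξ (k, j) * u k j z)) =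
      ∫ z in F₀, ‖φ z‖ ^ 2 * Real.exp (t * (f₀ z + ∑' k, ∑ j ∈ Finset.range (J k), ξ (k, j) * u k j z)) :=
    hint _ fun γ z => by rw [hE.2.1 γ z, hfi γ z]
  rw [i1, i2, i3, i4]
  exact hEq

end Pool.Agent.RPQ
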