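import Pool.Agent.helper11.RPQ.Defs

/-!
# RPQ (MP_07c750), block A: the word lemma and kernel operators, rows `rpq:X`

Rules in `Defs.lean`. Rows WL1, WL2, WRD, KO1, KO2, KO3 need Mathlib only.
-/

open scoped MatrixGroups ContDiff Topology UpperHalfPlane ComplexConjugate
open UpperHalfPlane MeasureTheory Filter Set

namespace Pool.Agent.RPQ

open Pool.Agent.RS
open Pool.Agent.MS (BA BB st pf gk Dk amk)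

noncomputable section

/-! ## The word lemma -/

section words

variable {H : Type} [NormedAddCommGroup H] [InnerProductSpace ℂ H]

/-- orthogonal projections -/
structure OProj (P : H →L[ℂ] H) : Prop where
  idem : ∀ x, P (P x) = P x
  symm : ∀ x y, inner ℂ (P x) y = inner ℂ x (P y)

/-- the words `P V^(b_1 + 1) P V^(b_2 + 1) P ... V^(b_L + 1) P` -/
def wrd (V P : H →L[ℂ] H) : List ℕ → (H →L[ℂ] H)
  | [] => P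
  | b :: l => P * V ^ (b + 1) * wrd V P l

end words

/-- **Row WL1** (positivity; short-medium; pure). `v 0 = 0`, `v (k+1) = x k + V (v k)`, so `v k = Σ_(j<k) V^(k-1-j) (x j)`, `‖v k‖ ≤ Σ_(j<k) ‖x j‖`. `‖v (k+1)‖² ≤ ‖x k‖² + 2 Re ⟪x k, V (v k)⟫ + ‖v k‖²` and `V (v k) = Σ_(j<k) V^(k-j) (x j)`: so `‖v n‖² ≤ Q`.
`⟪Φ, v (k+1)⟫ = ⟪Φ, x k⟫ + ⟪V†Φ, v k⟫` and `‖V†Φ - Φ‖² = ‖V†Φ‖² - 2 Re ⟪Φ, VΦ⟫ + ‖Φ‖² ≤ 2 ‖Φ‖² - 2 Re ⟪Φ, V Φ⟫ ≤ 2 δ` (`‖Φ‖ ≤ 1`); sum over `k`. -/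
def WL1_stmt : Prop := ∀ (H : Type) [NormedAddCommGroup H] [InnerProductSpace ℂ H] [CompleteSpace H] (V : H →L[ℂ] H) (Φ : H) (δ : ℝ) (n : ℕ) (x : ℕ → H),
  ‖V‖ ≤ 1 → ‖Φ‖ ≤ 1 → ‖V Φ - Φ‖ ≤ δ →
    0 ≤ ∑ k ∈ Finset.range n, ‖x k‖ ^ 2 + 2 * (∑ k ∈ Finset.range n, ∑ j ∈ Finset.range k, inner ℂ (x k) ((V ^ (k - j)) (x j))).re ∧
    ‖∑ k ∈ Finset.range n, inner ℂ Φ (x k)‖ ≤
      Real.sqrt (∑ k ∈ Finset.range n, ‖x k‖ ^ 2 + 2 * (∑ k ∈ Finset.range n, ∑ j ∈ Finset.range k, inner ℂ (x k) ((V ^ (k - j)) (x j))).re) +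
        Real.sqrt (2 * δ) * n * ∑ k ∈ Finset.range n, ‖x k‖

/-- **Row WL2** (Cayley transform; short-medium; pure). `1 + T` is invertible since `T^m = 0`; `K = T (1+T)⁻¹`. `‖(1+T) z‖² - ‖T z‖² = ‖z‖² + 2 Re ⟪z, T z⟫ ≥ 0`, so `‖K‖ ≤ 1`; `(1+T)⁻¹ = 1 - K` has norm `≤ 2`; everything commutes, `K^L = T^L ((1+T)⁻¹)^L`, `‖K^L‖ ≤ 2^L ‖T^L‖`.
`T = K + K T`, so `T = K + K² + ... + K^L + K^L T` (induction on `L`) and `‖T‖ ≤ L + ‖K^L‖ ‖T‖`. -/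
def WL2_stmt : Prop := ∀ (H : Type) [NormedAddCommGroup H] [InnerProductSpace ℂ H] [CompleteSpace H] (T : H →L[ℂ] H) (m L : ℕ) (e : ℝ), T ^ m = 0 →
  (∀ z, 0 ≤ ‖z‖ ^ 2 + 2 * (inner ℂ z (T z)).re) → ‖T ^ L‖ ≤ e → ‖T‖ ≤ L + 2 ^ L * e * ‖T‖

/-- **Row WRD** (the word lemma; medium; from WL1, WL2; pure). On `E = PiLp 2 (fun _ : Fin n => H)` let `(T z) k = Σ_(j < k) P (V^(k-j) (P (z j)))`. `T^n = 0` (strictly triangular); `‖T‖ ≤ n^2` (crude bound). `‖z‖² + 2 Re ⟪z, T z⟫ ≥ 0`: WL1 for `x k = P (z k)` (symmetry of `P`) and `‖P y‖ ≤ ‖y‖`.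
`(T^L z) k` is a sum of at most `n^L` words `wrd V P [b_1, .., b_L] (z j)` with `b_i < n` (`(P V^a P)(P V^b P) = P V^a P V^b P`; induction on `L`), so `‖T^L‖ ≤ n^(L+2) δ0`. WL2: `‖T‖ ≤ L + 2^L n^(L+2) δ0 n^2 ≤ L + ε'`. WL1 with `x k = P Φ` for all `k`: `n ‖PΦ‖² = |Σ ⟪Φ, PΦ⟫|`
`≤ √((1 + 2‖T‖) n ‖PΦ‖²) + √(2 δ0) n² ‖PΦ‖`, because `Q = ‖z‖² + 2 Re ⟪z, T z⟫` for `z = (PΦ, .., PΦ)`, `‖z‖² = n ‖PΦ‖²`. So `‖PΦ‖ ≤ √((1 + 2L + 2ε')/n) + √(2 δ0) n`; choose `δ0` small (it depends on `ε, L, n` only). -/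
def WRD_stmt : Prop := ∀ (ε : ℝ) (L n : ℕ), 0 < ε → 1 ≤ n → ∃ δ0 : ℝ, 0 < δ0 ∧
  ∀ (H : Type) [NormedAddCommGroup H] [InnerProductSpace ℂ H] [CompleteSpace H] (V P : H →L[ℂ] H) (Φ : H), ‖V‖ ≤ 1 → OProj P → ‖Φ‖ ≤ 1 → ‖V Φ - Φ‖ ≤ δ0 →
    (∀ l : List ℕ, l.length = L → (∀ b ∈ l, b < n) → ‖wrd V P l‖ ≤ δ0) → ‖P Φ‖ ^ 2 ≤ (2 * L + 1) / n + ε

/-! ## Kernel operators on `L²` of a finite measure -/

/-- `T` is the operator with the kernel `K` -/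
def IsOp {Y : Type} [MeasurableSpace Y] (μ : Measure Y) (K : Y → Y → ℂ) (T : Lp ℂ 2 μ →L[ℂ] Lp ℂ 2 μ) : Prop :=
  ∀ v : Lp ℂ 2 μ, (T v : Y → ℂ) =ᵐ[μ] fun y => ∫ z, K y z * v z ∂μ

/-- `T` is the multiplication by `m` -/
def IsMul {Y : Type} [MeasurableSpace Y] (μ : Measure Y) (m : Y → ℂ) (T : Lp ℂ 2 μ →L[ℂ] Lp ℂ 2 μ) : Prop :=
  ∀ v : Lp ℂ 2 μ, (T v : Y → ℂ) =ᵐ[μ] fun y => m y * v y

/-- **Row KO1** (existence and norm; medium; pure). `K` bounded measurable, `μ` finite: `y ↦ ∫ K y z v z dμ` is measurable, bounded by `B ∫ |v| ≤ B μ(Y)^(1/2) ‖v‖₂`, so in `L²`; Cauchy-Schwarz: `|∫ K y z v z|² ≤ ∫ |K y z|² dz · ‖v‖²`. `LinearMap.mkContinuous`. -/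
def KO1_stmt : Prop := ∀ (Y : Type) [MeasurableSpace Y] (μ : Measure Y) [IsFiniteMeasure μ] (K : Y → Y → ℂ), Measurable (Function.uncurry K) → (∃ B : ℝ, ∀ y z, ‖K y z‖ ≤ B) →
  (∃ T, IsOp μ K T) ∧ ∀ T, IsOp μ K T → ‖T‖ ^ 2 ≤ ∫ y, ∫ z, ‖K y z‖ ^ 2 ∂μ ∂μ

/-- **Row KO2** (algebra; short-medium; from KO1; pure). Fubini (`K`, `L` bounded, `v` integrable as `μ` is finite). Sums, scalars, products with bounded measurable functions. -/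
def KO2_stmt : Prop := ∀ (Y : Type) [MeasurableSpace Y] (μ : Measure Y) [IsFiniteMeasure μ],
  (∀ (K L : Y → Y → ℂ) (T S : Lp ℂ 2 μ →L[ℂ] Lp ℂ 2 μ), Measurable (Function.uncurry K) → (∃ B : ℝ, ∀ y z, ‖K y z‖ ≤ B) → Measurable (Function.uncurry L) → (∃ B : ℝ, ∀ y z, ‖L y z‖ ≤ B) →
    IsOp μ K T → IsOp μ L S → IsOp μ (fun y z => ∫ x, K y x * L x z ∂μ) (T * S)) ∧
  (∀ (K L : Y → Y → ℂ) (T S : Lp ℂ 2 μ →L[ℂ] Lp ℂ 2 μ), Measurable (Function.uncurry K) → (∃ B : ℝ, ∀ y z, ‖K y z‖ ≤ B) → Measurable (Function.uncurry L) → (∃ B : ℝ, ∀ y z, ‖L y z‖ ≤ B) →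
    IsOp μ K T → IsOp μ L S → IsOp μ (fun y z => K y z - L y z) (T - S)) ∧
  (∀ m : Y → ℂ, Measurable m → (∃ B : ℝ, ∀ y, ‖m y‖ ≤ B) → ∃ M, IsMul μ m M) ∧
  (∀ (K : Y → Y → ℂ) (T M : Lp ℂ 2 μ →L[ℂ] Lp ℂ 2 μ) (m : Y → ℂ), Measurable (Function.uncurry K) → (∃ B : ℝ, ∀ y z, ‖K y z‖ ≤ B) → Measurable m → (∃ B : ℝ, ∀ y, ‖m y‖ ≤ B) →
    IsOp μ K T → IsMul μ m M → IsOp μ (fun y z => m y * K y z) (M * T) ∧ IsOp μ (fun y z => K y z * m z) (T * M)) ∧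
  (∀ (A : Set Y) (P : Lp ℂ 2 μ →L[ℂ] Lp ℂ 2 μ), MeasurableSet A → IsMul μ (A.indicator (fun _ => (1 : ℂ))) P → OProj P ∧ ∀ v : Lp ℂ 2 μ, ‖P v‖ ^ 2 = ∫ y in A, ‖v y‖ ^ 2 ∂μ)

/-- **Row KO3** (norm from bounded functions; short-medium; pure). Bounded measurable functions are dense in `Lp ℂ 2 μ` (simple functions); `T` is continuous. -/
def KO3_stmt : Prop := ∀ (Y : Type) [MeasurableSpace Y] (μ : Measure Y) [IsFiniteMeasure μ] (K : Y → Y → ℂ) (T : Lp ℂ 2 μ →L[ℂ] Lp ℂ 2 μ) (C : ℝ), 0 ≤ C → Measurable (Function.uncurry K) →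
  (∃ B : ℝ, ∀ y z, ‖K y z‖ ≤ B) → IsOp μ K T →
  (∀ v : Y → ℂ, Measurable v → (∃ B : ℝ, ∀ y, ‖v y‖ ≤ B) → ∫ y, ‖∫ z, K y z * v z ∂μ‖ ^ 2 ∂μ ≤ C ^ 2 * ∫ y, ‖v y‖ ^ 2 ∂μ) → ‖T‖ ≤ C

/-! ## Kernels on `Γ \ G` -/

/-- **Row KPG** (unfolding; medium; from RS: GLC, GMG, GLI, GFD, GPE (compare its proof), QU.A_DOB, QU.A_DOM). `Γ` is countable. For `g, h` in `dG F` (relatively compact) `K g (γh) ≠ 0` only if `dist (g•I) (γh•I) ≤ D`: the number of such `γ` is bounded (proper discontinuity), also for all `g`, `h` in `G`.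
(2) `∫_G K g h v h = Σ_γ ∫_(dG F) K g (γh) v h` (`dG F` is a fundamental domain: `IsFundamentalDomain.integral_eq_tsum` or `QU.A_DOB`; `mG` is left invariant). (3) composition: range `D + D'`, bounded since `mG {p | dist (g•I) (p•I) ≤ D}` is finite and independent of `g`; `Σ_γ ∫_G K g p L p (γh) dp`
`= ∫_G K g p (perK L p h) dp` and (2) for the invariant function `p ↦ perK Γ L p h`. (4) `perK` is invariant in both arguments. -/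
def KPG_stmt : Prop := ∀ (Γ : Subgroup SL(2, ℝ)) (F : Set ℍ), QU.SurfaceGroup Γ → QU.NiceDom Γ F →
  (∀ K, GKer Γ K → Measurable (Function.uncurry (perK Γ K)) ∧ (∃ B : ℝ, ∀ g h, ‖perK Γ K g h‖ ≤ B) ∧
    (∀ (γ : Γ) (g h : SL(2, ℝ)), perK Γ K ((γ : SL(2, ℝ)) * g) h = perK Γ K g h ∧ perK Γ K g ((γ : SL(2, ℝ)) * h) = perK Γ K g h) ∧
    ∀ v : SL(2, ℝ) → ℂ, Measurable v → (∃ B : ℝ, ∀ g, ‖v g‖ ≤ B) → (∀ (γ : Γ) g, v ((γ : SL(2, ℝ)) * g) = v g) →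
      ∀ g, ∫ h in dG F, perK Γ K g h * v h ∂mG = ∫ h, K g h * v h ∂mG) ∧
  ∀ K L, GKer Γ K → GKer Γ L → GKer Γ (cmp K L) ∧ ∀ g h, perK Γ (cmp K L) g h = ∫ p in dG F, perK Γ K g p * perK Γ L p h ∂mG

/-- **Row KPS** (short-medium; from KPG, RS: GLC, GFD, GBD). `th V κ t` is continuous and invariant (parametric integral), `stK` is measurable, `‖stK‖ ≤ B`, invariant since `(γ g a)⁻¹ (γ h) = (g a)⁻¹ h`; if `u b ≠ 0` then `dist (b•I) I ≤ D`, so `dist (g•I) (h•I) ≤ D + t` for `h = g a_t b`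
(`dist (a_t•I) I = |t|`). Words: indicator functions of invariant measurable sets keep `GKer`; induction on the list (`wdK [] = 0`). -/
def KPS_stmt : Prop := ∀ (Γ : Subgroup SL(2, ℝ)) (F : Set ℍ) (V : ℍ → ℝ) (κ t : ℝ) (u : SL(2, ℝ) → ℂ) (A : Set SL(2, ℝ)), QU.SurfaceGroup Γ → QU.NiceDom Γ F → QU.Inv Γ V → Measurable u →
  (∃ B : ℝ, ∀ b, ‖u b‖ ≤ B) → (∃ D : ℝ, ∀ b, u b ≠ 0 → ∀ i j, |b.1 i j| ≤ D) → MeasurableSet A → (∀ (γ : Γ) (g : SL(2, ℝ)), (γ : SL(2, ℝ)) * g ∈ A ↔ g ∈ A) →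
    GKer Γ (stK V κ t u) ∧ (∀ n, GKer Γ (itK V κ t u n)) ∧ ∀ l : List ℕ, GKer Γ (wdK V κ t u A l)

/-- **Row OPW** (the norm of a word; medium; from KO1, KO2, KPG, KPS). `μ = mG.restrict (dG F)` (finite). `T` = the operator with the kernel `perK (stK ..)`. By KPG, KO2 and induction `T^(n+1)` has the kernel `perK (itK .. n)` and `wrd T P l` (all powers `n + 1` for `n` in `l`, `l` not empty) has the kernel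
`perK (wdK .. A l)` (multiply by the indicator function of the invariant set `A`: `perK` of `1_A(g) K g h` is `1_A(g) perK K g h`, of `K g h 1_A(h)` it is `perK K g h 1_A(h)`). KO1. -/
def OPW_stmt : Prop := ∀ (Γ : Subgroup SL(2, ℝ)) (F : Set ℍ) (V : ℍ → ℝ) (κ t : ℝ) (u : SL(2, ℝ) → ℂ) (A : Set SL(2, ℝ)), QU.SurfaceGroup Γ → QU.NiceDom Γ F → QU.Inv Γ V → Measurable u →
  (∃ B : ℝ, ∀ b, ‖u b‖ ≤ B) → (∃ D : ℝ, ∀ b, u b ≠ 0 → ∀ i j, |b.1 i j| ≤ D) → MeasurableSet A → (∀ (γ : Γ) (g : SL(2, ℝ)), (γ : SL(2, ℝ)) * g ∈ A ↔ g ∈ A) →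
    ∀ (T P : Lp ℂ 2 (mG.restrict (dG F)) →L[ℂ] Lp ℂ 2 (mG.restrict (dG F))), IsOp (mG.restrict (dG F)) (perK Γ (stK V κ t u)) T →
      IsMul (mG.restrict (dG F)) (A.indicator (fun _ => (1 : ℂ))) P → ∀ l : List ℕ, l ≠ [] →
        ‖wrd T P l‖ ^ 2 ≤ ∫ g in dG F, ∫ h in dG F, ‖perK Γ (wdK V κ t u A l) g h‖ ^ 2 ∂mG ∂mG

end

end Pool.Agent.RPQ
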