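import Pool.Agent.helper11.RPQ.SpecT

/-!
# RPQ (MP_07c750), block G: rigidity of paths, counting, net of bumps, detection, large deviations, rows `rpq:X`

Rules in `Defs.lean`. Matrix formulas used everywhere: `lM u * aM t = aM t * lM (e^t u)`, `nM x * aM t = aM t * nM (e^(-t) x)` (RS.GLC),
`nM x * lM u = lM (u/(1+xu)) * aM (2 log (1+xu)) * nM (x/(1+xu))` for `1 + xu > 0`; `(aM t)⁻¹ * m * aM t` has the entries `m00, e^(-t) m01, e^t m10, m11`.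
-/

open scoped MatrixGroups ContDiff Topology UpperHalfPlane ComplexConjugate
open UpperHalfPlane MeasureTheory Filter Set

namespace Pool.Agent.RPQ

open Pool.Agent.RS
open Pool.Agent.MS (BA BB st pf gk Dk amk)

noncomputable section

/-! ## Rigidity -/

/-- **Row STP** (one step; medium; pure matrices). Let `b ∈ Bx`: `b00 b11 = 1 + b01 b10`, `|b00 - b11| ≤ C1 R^(-η)`, so `b11 = ± (1 + O(R^(-η)))`, `b = ± nM y * aM s' * lM u'` with `y = b01/b11`, `e^(-s'/2) = |b11|`, `u' = b10/b11`. Let `q = lM u * aM (t+s) * nM x * kM θ`. Then `b * lM u = ± nM y * aM s' * lM (u'+u) = ± nM y * lM (e^(-s')(u'+u)) * aM s'`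
`= ± lM v * aM s'' * nM y' * aM s'`, `|v| ≤ 4 C R^(-5/8+ε)`, `s'' = O(R^(-η))`, `|y'| ≤ 2 |y|`, and `aM τ * lM v = lM (e^(-τ) v) * aM τ` with `e^(-τ) = R^(-1/8)`: `R^(-1/8) R^(-5/8+ε) = R^(-3/4+ε)`. `nM y' * aM T = aM T * nM (e^(-T) y')`, `T = s' + t + s ≥ -1`. `kM π = -1` is central; `kM 0 = 1`. For the first claim take `q = 1`.
(`|u| ≤ C2 R^(-3/4+ε) ≤ R^(-5/8+ε)` for large `R`.) -/
def STP_stmt : Prop := ∀ C1 C2 η ε : ℝ, 1 ≤ C1 → 1 ≤ C2 → 0 < η → η ≤ 1 / 20 → 0 < ε → ε ≤ 1 / 20 → ∃ C3 R0 : ℝ, C2 ≤ C3 ∧ 1 ≤ R0 ∧ ∀ R : ℝ, R0 ≤ R → ∀ b ∈ Bx C1 η ε R,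
  aM (tau R) * b ∈ SN C3 η ε R (tau R) ∧ ∀ (t : ℝ) (q : SL(2, ℝ)), 0 ≤ t → q ∈ SN C2 η ε R t → aM (tau R) * b * q ∈ SN C3 η ε R (tau R + t)

/-- **Row LAN** (paths; short; from STP). `(pth i)⁻¹ * pth j = Π_(i ≤ k < j) aM τ * b k` (`List` or induction on `j - i` from the left: `(pth i)⁻¹ pth j = aM τ * b i * ((pth (i+1))⁻¹ * pth j)`). -/
def LAN_stmt : Prop := ∀ (C η ε : ℝ) (N : ℕ), 1 ≤ C → 0 < η → η ≤ 1 / 20 → 0 < ε → ε ≤ 1 / 20 → ∃ C' R0 : ℝ, 1 ≤ C' ∧ 1 ≤ R0 ∧ ∀ R : ℝ, R0 ≤ R → ∀ (g : SL(2, ℝ)) (b : ℕ → SL(2, ℝ)),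
  (∀ j < N, b j ∈ Bx C η ε R) → ∀ i j : ℕ, i < j → j ≤ N → (pth (tau R) g b i)⁻¹ * pth (tau R) g b j ∈ SN C' η ε R ((j - i) * tau R)

/-- **Row VO2** (medium; from VOX, RS: GLI). Let `p, p0` be in the set, `q = p0⁻¹ p = b0⁻¹ b` with `b, b0 ∈ Bx` (`b = (g aM τ)⁻¹ p`): `|q01| ≤ 8 C1 R^(-1/4)`, `|q00 - q11| ≤ C R^(-η)`, entries `≤ 3` (for large `R` the elements of `Bx` are close to `±1`). Also `p⁻¹ h = s`, `p0⁻¹ h = s0` in `SN`, `q = s0 s⁻¹ = lM u0 * aM (t+σ0) * nM (x0 - x) * aM (-t-σ) * lM (-u) (· kM)`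
`= ± lM u0 * nM Y * aM δ * lM (-u)`, `|u|, |u0| ≤ C2 R^(-3/4+ε)`, `δ = σ0 - σ`. Entries: `q01 = ± Y e^(-δ/2)`, so `|Y| ≤ 9 C1 R^(-1/4)`; `q10 = ± (u0 e^(δ/2) - u (u0 Y + 1) e^(-δ/2))`, so `|q10| ≤ 4 C2 R^(-3/4+ε)`. So the set is contained in `p0 * {thin box}`; VOX with `x = C R^(-3/4+ε)`, `y = C R^(-1/4)`, `z = C R^(-η)`. -/
def VO2_stmt : Prop := ∀ C1 C2 η ε : ℝ, 1 ≤ C1 → 1 ≤ C2 → 0 < η → η ≤ 1 / 20 → 0 < ε → ε ≤ 1 / 20 → ∃ C3 R0 : ℝ, 0 < C3 ∧ 1 ≤ R0 ∧ ∀ (R t : ℝ) (g h : SL(2, ℝ)), R0 ≤ R → 0 ≤ t →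
  mG {p : SL(2, ℝ) | (g * aM (tau R))⁻¹ * p ∈ Bx C1 η ε R ∧ p⁻¹ * h ∈ SN C2 η ε R t} ≤ ENNReal.ofReal (C3 * R ^ (-1 + ε - η))

/-- **Row MCV** (the majorant of `n + 1` steps; medium; from STP, VO2). Induction on `n < N` (constants depend on `n`). `n = 0`: `mj ≤ C R^(15/16+η)`, exponent `1 - 1/16 + η`; support by STP. Step: `mc (n+1) g h = ∫⁻ mj((g a)⁻¹ p) mc n p h dp`; the integrand is not zero only if `(g a)⁻¹ p ∈ Bx` and `p⁻¹ h ∈ SN C' .. ((n+1) τ)` (induction), so by VO2 it is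
`≤ C R^(15/16+η) · C' R^(1-(n+1)/16+η+nε) · C3 R^(-1+ε-η)`; exponent `1 - (n+2)/16 + η + (n+1) ε`. Support: STP (`g⁻¹ h = aM τ * b * (p⁻¹ h)`). Measurability of `mc` is not needed for upper bounds (`lintegral_mono`, indicator of the measurable hull or `setLIntegral`; the set in VO2 is measurable: `Bx` closed, `SN` compact: use `measure` outer bound `lintegral_le` with the hull). -/
def MCV_stmt : Prop := ∀ (C η ε : ℝ) (N : ℕ), 1 ≤ C → 0 < η → η ≤ 1 / 20 → 0 < ε → ε ≤ 1 / 20 → ∃ C' R0 : ℝ, 1 ≤ C' ∧ 1 ≤ R0 ∧ ∀ R : ℝ, R0 ≤ R → ∀ n < N, ∀ g h : SL(2, ℝ),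
  mc (mj C η ε R) (tau R) n g h ≤ ENNReal.ofReal (C' * R ^ (1 - (n + 1) / 16 + η + n * ε)) ∧
  (mc (mj C η ε R) (tau R) n g h ≠ 0 → g⁻¹ * h ∈ SN C' η ε R ((n + 1) * tau R))

/-- **Row LAT** (lattice points; medium; from EN.A_XDS, RS: GLC, GMG, GLI). `t1 = (1/4) log R`, `t' = t - t1 ≥ (7/8) log R`. `h' = h aM(-t1)`. If `g⁻¹ γ h = lM u aM(t+s) nM x kM θ` then `g⁻¹ γ h' = ± lM u aM(t'+s) nM(e^(t1) x)`, `|e^(t1) x| ≤ C` (`kM θ` is central). Let `B = {k | nr δ0 k}` with `δ0 = δ0(C, Γ)` small. (1) the sets `γ h' B` are disjoint for different `γ`: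
`h'⁻¹ (γ⁻¹ γ') h' ∈ B B⁻¹` is `nr ε0`, so `γ = γ'` (XDS); `mG (γ h' B) = mG B > 0` (left invariance; `B` open and not empty). (2) `nM X * k`, `|X| ≤ C`, `k ∈ B`: the entry `00` is `≥ 1/2` if `δ0 (1+C) ≤ 1/2`; so it is `lM v aM σ nM Y` with `|v| ≤ 2 δ0`, `|σ|, |Y| ≤ C'`. Hence `g⁻¹ γ h' B ⊆ ± {lM (u + e^(-(t'+s)) v) aM t' k'} , k'` in a compact set `K`.
(3) `mG {lM u aM t' k : |u| ≤ U, k ∈ K} ≤ C (e^(t') U + 1)`: cover `[-U, U]` by intervals of length `e^(-t')`: `lM (u0 + e^(-t') v) aM t' k = lM u0 aM t' (lM v k)`, `|v| ≤ 1`: contained in a translate of a compact set. (4) disjoint sets of equal measure inside: the number is `≤ C (e^(t') U + 1)/mG B`, `U = 2 C R^(-3/4+ε)`, `e^(t') U = 2C e^t R^(-1+ε) ≥ 1`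
as `e^t ≥ R^(9/8)`. -/
def LAT_stmt : Prop := ∀ (Γ : Subgroup SL(2, ℝ)) (C η ε : ℝ), QU.SurfaceGroup Γ → 1 ≤ C → 0 < η → η ≤ 1 / 20 → 0 < ε → ε ≤ 1 / 20 → ∃ C' R0 : ℝ, 0 < C' ∧ 1 ≤ R0 ∧ ∀ (R t : ℝ) (g h : SL(2, ℝ)), R0 ≤ R → 9 / 8 * Real.log R ≤ t →
  {γ : Γ | g⁻¹ * ((γ : SL(2, ℝ)) * h) ∈ SN C η ε R t}.Finite ∧ ({γ : Γ | g⁻¹ * ((γ : SL(2, ℝ)) * h) ∈ SN C η ε R t}.ncard : ℝ) ≤ C' * Real.exp t * R ^ (-1 + ε)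

/-- **Row BLK** (short; from MCV, LAT). The sum has at most `C' e^((n+1) τ) R^(-1+ε) = C' R^((n+1)/8 - 1 + ε)` nonzero terms, each `≤ C' R^(1-(n+1)/16+η+nε)`. (`(n+1) τ ≥ 9 log R/8`.) -/
def BLK_stmt : Prop := ∀ (Γ : Subgroup SL(2, ℝ)) (C η ε : ℝ) (N : ℕ), QU.SurfaceGroup Γ → 1 ≤ C → 0 < η → η ≤ 1 / 20 → 0 < ε → ε ≤ 1 / 20 → ∃ C' R0 : ℝ, 1 ≤ C' ∧ 1 ≤ R0 ∧ ∀ R : ℝ, R0 ≤ R → ∀ n : ℕ, 9 ≤ n + 1 → n < N → ∀ g h : SL(2, ℝ),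
  ∑' γ : Γ, mc (mj C η ε R) (tau R) n g ((γ : SL(2, ℝ)) * h) ≤ ENNReal.ofReal (C' * R ^ ((n + 1) / 16 + η + (n + 1) * ε))

/-! ## The net -/

/-- **Row INJ** (short-medium; from EN.A_XDS or QU: DOB, BDD). (1) injectivity radius: discreteness, freeness and cocompactness. (2) uniform counting: write `z = γ1 z'`, `z'` in the compact set of `cocompact`, `discrete` for a large ball. -/
def INJ_stmt : Prop := ∀ Γ : Subgroup SL(2, ℝ), QU.SurfaceGroup Γ → (∃ i0 : ℝ, 0 < i0 ∧ i0 ≤ 1 ∧ ∀ (γ : Γ) (z : ℍ), dist ((γ : SL(2, ℝ)) • z) z < i0 → γ = 1) ∧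
  ∀ D : ℝ, ∃ n : ℕ, ∀ z w : ℍ, {γ : Γ | dist z ((γ : SL(2, ℝ)) • w) ≤ D}.Finite ∧ {γ : Γ | dist z ((γ : SL(2, ℝ)) • w) ≤ D}.ncard ≤ n

/-- **Row GRW** (growth of the number of lattice points; short-medium; from INJ, QU: MAS, INV). The balls of radius `i0/2` around the points `γ w` are disjoint, of the same positive area; those with `dist z (γ w) ≤ D` lie in the ball of radius `D + 1` around `z`, of area `≤ c₀ (cosh (D+1) + 1) ≤ C e^D` (MAS for a smooth `κ ≥ 0` with `κ = 1` on `[0, cosh (D+1) - 1]`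
and `κ = 0` beyond `cosh (D+1)`; `tt z w = cosh d - 1`). -/
def GRW_stmt : Prop := ∀ Γ : Subgroup SL(2, ℝ), QU.SurfaceGroup Γ → ∃ C : ℝ, 0 < C ∧ ∀ (D : ℝ) (z w : ℍ), 0 ≤ D → {γ : Γ | dist z ((γ : SL(2, ℝ)) • w) ≤ D}.Finite ∧
  ({γ : Γ | dist z ((γ : SL(2, ℝ)) • w) ≤ D}.ncard : ℝ) ≤ C * Real.exp D

/-- **Row CKB** (smoothness and seminorms; medium; from MOM, QU: LAK, CVB). `conv (mo κ ρ) V0 (g • z) = ∫ mo κ ρ (tt z w) V0(g w) dw` (CVB (1)). For `z` in the ball of radius 1 around `I` the function `z ↦ mo κ ρ (tt z w)` has derivatives of order `k` bounded by `C ρ^(-2-2k)` (`κ(tt/ρ²)/ρ²`, chain rule; `tt` is smooth with bounded derivatives for `z`, `w` in a compact set), and it is supported in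
`dist z w ≤ ρ`, a set of area `≤ C ρ²`. Differentiate under the integral `k` times (`contDiff` of a parametric integral with compact support: `ContDiffOn` of `fun z => ∫ ..`; induction on the order, or `HasCompactSupport`-convolution lemmas). `CD ∞`: the same at every point (`g` moves `I` to any point). -/
def CKB_stmt : Prop := ∀ κ : ℝ → ℝ, MO κ → (∀ (ρ : ℝ) (V0 : ℍ → ℝ), 0 < ρ → Continuous V0 → QU.CD ∞ (QU.conv (mo κ ρ) V0)) ∧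
  ∀ k : ℕ, ∃ C : ℝ, 0 < C ∧ ∀ (ρ m : ℝ) (V0 : ℍ → ℝ), 0 < ρ → ρ ≤ 1 → Continuous V0 → (∀ z, |V0 z| ≤ m) → CkB k (QU.conv (mo κ ρ) V0) (C * m * ρ ^ (-(2 * (k : ℝ))))

/-- **Row BMP** (existence of nets; medium-long; from MOM, CKB, INJ, QU: CVB, BDD, DOM). Choose a maximal set of points `p_j` of the compact set `K` of `cocompact` with `dist (p_i) (γ p_j) > ρ/4` for all `γ`, `i ≠ j` (finite: total boundedness): it covers. `χ0_j(z) = max 0 (min 1 ((4/5 - dist(z, Γ p_j)/ρ) 20))`: continuous, invariant, `= 1` if the distance of `z` to `Γ p_j` is `≤ 3ρ/4`, `= 0` if it is `≥ 4ρ/5`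
(the distance to the orbit is attained and 1-Lipschitz). `χ_j = conv (mo κ ρ) χ0_j`: the kernel is supported in `tt z w < ρ²/64`, so `dist z w ≤ ρ/5` (`cosh d - 1 ≥ d²/2`); mass 1. So `χ_j = 1` at distance `≤ ρ/2` and `χ_j ≠ 0` only at distance `≤ ρ`. `mol`: `V0 = Σ ξ_j χ0_j`, `|V0| ≤ #{j | χ0_j(z) ≠ 0} ≤ C0`: the `γ_j p_j` with distance `≤ ρ` from `z` are `ρ/4`-separated points
in a ball of radius `ρ`, by comparison of areas (balls of radius `ρ/8`; area of a ball of radius `r` is `2π(cosh r - 1)`, or by MAS and monotonicity between `c r²` and `C r²` for `r ≤ 1`) their number is bounded by `C0` independent of `ρ ≤ ρ0`. -/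
def BMP_stmt : Prop := ∀ (Γ : Subgroup SL(2, ℝ)) (κ : ℝ → ℝ), QU.SurfaceGroup Γ → MO κ → ∃ C0 ρ0 : ℝ, 0 < C0 ∧ 0 < ρ0 ∧ ρ0 ≤ 1 / 8 ∧ ∀ ρ : ℝ, 0 < ρ → ρ ≤ ρ0 →
  ∃ (J : ℕ) (p : Fin J → ℍ) (χ : Fin J → ℍ → ℝ), Net Γ κ ρ C0 J p χ

/-! ## Detection -/

/-- `x` and `y` are close up to the rotations by multiples of `π/2` (that is, up to sign and reversal of the direction) -/
def Cl (ε : ℝ) (x y : SL(2, ℝ)) : Prop := ∃ i : ℕ, i < 4 ∧ EN.nr ε (x⁻¹ * y * kM (i * (Real.pi / 2)))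

/-- **Row TPT** (two points; medium; pure geometry of `ℍ`). Write `h = k' * kM θ` with `k'` upper triangular, `k' • I = h • I`: as `dist (h•I) I ≤ δ` all entries of `k' - 1` are `≤ C δ`. So `dist (kM θ aM D' • I) (aM D • I) ≤ C δ`. `dist (kM θ aM D' • I) I = |D'|`, so `||D'| - D| ≤ C δ`. Explicitly `tt (kM θ • (i e^(D'))) (i e^D)`: with `u = cosh D' cosh D - sinh D' sinh D cos 2θ - 1 ≤ C δ²`
(hyperbolic law of cosines; `kM θ` rotates directions by `2θ`). `cosh D' cosh D - sinh D' sinh D cos 2θ = cosh(D - D') + sinh D sinh D' (1 - cos 2θ) = cosh(D + D') - sinh D sinh D' (1 + cos 2θ)`. If `D' > 0`: `sinh D sinh D' (2 sin² θ) ≤ C δ²` and `D' ≥ D/2` (if `δ ≤ D/C`), so `|sin θ| ≤ C δ/D`: `θ` is near `0` or `π`. If `D' < 0`: `2 cos² θ sinh D sinh|D'| ≤ C δ²`: `θ` near `±π/2`. (`D' = 0` is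
excluded by `δ ≤ D/C`.) So `h` is within `C δ/D` of some `kM (-i π/2)`. -/
def TPT_stmt : Prop := ∃ C : ℝ, 1 ≤ C ∧ ∀ (h : SL(2, ℝ)) (D D' δ : ℝ), 0 < δ → 0 < D → D ≤ 1 → |D'| ≤ 1 → C * δ ≤ D → dist (h • I : ℍ) I ≤ δ → dist ((h * aM D') • I : ℍ) (aM D • I) ≤ δ → Cl (C * δ / D) 1 h

/-- **Row PIG** (detection; medium-long; from TPT, INJ, RS: GLC). Proof on the page (section N) and in detail: `s' ∈ [iτ, (i+1)τ)`; `[a, a+ρ1]` in this interval contains `s'`. `s'_k = a + ρ/4 + 4ρk`, `k < m`, `m ≥ ρ1/(8ρ)`. Choose `j_k, γ_k` with `dist (fr'(s'_k)•I) (γ_k p_(j_k)) ≤ ρ/4`. The `j_k` are different (else by INJ `γ_k = γ_k'` and `dist(fr'(s'_k)•I, fr'(s'_k')•I) = 4ρ|k-k'| ≤ ρ/2`).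
`χ_(j_k) = 1` for `|s - s'_k| ≤ ρ/4`, so `TH (χ_(j_k)) .. g' b' ≥ K ρ/2 ≥ 4` (all terms are `≥ 0`). By `Und`, for all but `nc` of the `k`, `TH (χ_(j_k)) .. g b > 0`, so there is `s_k ∈ [0, Nτ)` with `χ_(j_k)(fr(s_k)•I) ≠ 0`, so `dist (fr'(s'_k)•I) (γ'_k fr(s_k)•I) ≤ 5ρ/4`. Cut `[0, Nτ)` into at most `C (Nτ + N)` intervals of length `≤ i0/4`, each inside one `[iτ, (i+1)τ)`;
pigeonhole: one contains `s_k` for more than `1/ρ1 + 1` indices, so there are two, `k < k'`, with `k' - k ≥ 1/ρ1`. `γ'_k = γ'_k'` by INJ (`5ρ/2 + ρ1 + i0/4 < i0`, as `ρ1 ≤ ρ10`). TPT with `h = fr'(s'_k)⁻¹ γ fr(s_k)`, `D = 4ρ(k'-k) ∈ [4ρ/ρ1, ρ1]`, `D' = s_k' - s_k`, `δ = 2ρ`: `Cl (C ρ1/2)`. Move from `s'_k` to `s'` (`|s' - s'_k| ≤ ρ1`; `fr'(s') = fr'(s'_k) aM(e)`, `|e| ≤ ρ1`): `Cl (C' ρ1)`. -/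
def PIG_stmt : Prop := ∀ (Γ : Subgroup SL(2, ℝ)) (κ : ℝ → ℝ), QU.SurfaceGroup Γ → ∃ C ρ10 : ℝ, 1 ≤ C ∧ 0 < ρ10 ∧ ρ10 ≤ 1 ∧ ∀ (C0 ρ ρ1 K t : ℝ) (J : ℕ) (p : Fin J → ℍ) (χ : Fin J → ℍ → ℝ) (N nc : ℕ) (g g' : SL(2, ℝ)) (b b' : ℕ → SL(2, ℝ)),
  0 < ρ → 0 < ρ1 → ρ1 ≤ ρ10 → 1 ≤ t → 8 / ρ ≤ K → nc + C * (N * t + 1) / ρ1 ≤ ρ1 / (8 * ρ) → Net Γ κ ρ C0 J p χ → Und χ K t N nc g g' b b' →
    ∀ s' : ℝ, 0 ≤ s' → s' < N * t → ∃ (s : ℝ) (γ : Γ), 0 ≤ s ∧ s < N * t ∧ Cl (C * ρ1) (fr t g' b' s') ((γ : SL(2, ℝ)) * fr t g b s)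

/-- **Row CNA** (staying close; short-medium; pure matrices, RS: GLC). (1) `dist ((h aM s)•I) (aM s•I) = dist (((aM s)⁻¹ h aM s)•I) I`, the entries of `(aM s)⁻¹ h aM s - 1` are `≤ C ρ1 e^s ≤ C ρ1^(1/2)`, small. (2) `b ∈ Bx` is within `C' R^(-η)` of `±1`; there is at most one jump between `s` and `s + v` (`v ≤ τ`... the case `v ≤ 1` or `v = Λ`): `fr(s+v) = fr(s) aM v1 b_j aM (v - v1)` or
`fr(s) aM v`, so `fr(s+v) = fr(s) aM v k` with `k` within `C' e^v R^(-η) ≤ R^(-η/4)` of `±1`; hence for every `x` with `1 ≤ e^x ≤ R^(η/4)` and `k0 ∈ {1, kM(π/2), ..}` `dist ((fr(s+v) k0 aM x)•I) ((fr(s) aM v k0 aM x)•I) ≤ 1`. -/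
def CNA_stmt : Prop := ∀ C η ε : ℝ, 1 ≤ C → 0 < η → η ≤ 1 / 20 → 0 < ε → ε ≤ 1 / 20 → ∃ ρ10 R0 : ℝ, 0 < ρ10 ∧ ρ10 ≤ 1 ∧ 1 ≤ R0 ∧
  (∀ (ρ1 s : ℝ) (h : SL(2, ℝ)), 0 < ρ1 → ρ1 ≤ ρ10 → 0 ≤ s → Real.exp s ≤ ρ1 ^ (-(1 / 2) : ℝ) → EN.nr (C * ρ1) h → dist ((h * aM s) • I : ℍ) (aM s • I) ≤ 1) ∧
  ∀ (R : ℝ) (N : ℕ) (g : SL(2, ℝ)) (b : ℕ → SL(2, ℝ)), R0 ≤ R → (∀ j < N, b j ∈ Bx C η ε R) → ∀ (s v x : ℝ) (i : ℕ), 0 ≤ s → 0 ≤ v → s + v ≤ N * tau R → Real.exp v ≤ R ^ (η / 4) → 0 ≤ x → Real.exp x ≤ R ^ (η / 4) →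
    dist ((fr (tau R) g b (s + v) * kM (i * (Real.pi / 2)) * aM x) • I : ℍ) ((fr (tau R) g b s * aM v * kM (i * (Real.pi / 2)) * aM x) • I) ≤ 1

/-- **Row CNT** (the number of undetected classes; medium-long; from PIG, CNA, INJ, RS: GLC). `T = N τ`, `Λ = ½ log(1/ρ1)`, `e^Λ = ρ1^(-1/2) ≤ R^(η/4)`. For `γ'` in the set with path `b'`: times `s'_i = i Λ < T`, `i < S = ⌈T/Λ⌉`. PIG: `s_i`, `η_i ∈ Γ`, `k_i = kM(m_i π/2)`: `EN.nr (C ρ1) (fr'(s'_i)⁻¹ η_i fr(s_i) k_i)`. Put `n_i = ⌊s_i⌋`. By CNA (1) with `s = Λ` and CNA (2)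
(for `fr'`, `v = Λ`, `x = 0`; for `fr` from `n_i` to `s_i`, `x = Λ`, and `aM v k_i = k_i aM(±v)`, `v < 1`) the points `fr'(s'_(i+1))•I`, `fr'(s'_i) aM Λ•I`, `η_i fr(s_i) k_i aM Λ•I`, `η_i fr(n_i) k_i aM Λ•I` have consecutive distances `≤ 2`, and `fr'(s'_(i+1))•I` is at distance `≤ 2` from `η_(i+1) fr(n_(i+1))•I`: so `dist (η_i fr(n_i) k_i aM Λ•I) (η_(i+1) fr(n_(i+1))•I) ≤ 10`.
Given the state `(η_i, n_i, m_i)` there are at most `(T+1) · 4 · n(10)` states `(η_(i+1), n_(i+1), m_(i+1))` (INJ). At `i = 0`: `dist (g•I) (η_0 fr(n_0)•I) ≤ 10`. At the end: `γ' h•I = pth' N•I` is at distance `≤ 10` from `η_(S-1) fr(n_(S-1)) k aM(T - s'_(S-1))•I`. So the number of `γ'` is at most `(4 n(10) (T+1))^(S+1)`. (Formally: finite sets `A_i ⊆ Γ × ℕ × ℕ` defined by recursion, `card A_(i+1) ≤ card A_i · q`.)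
(`fr` at `s = T` is `pth N`.) -/
def CNT_stmt : Prop := ∀ (Γ : Subgroup SL(2, ℝ)) (κ : ℝ → ℝ) (C η ε : ℝ) (N : ℕ), QU.SurfaceGroup Γ → 1 ≤ C → 0 < η → η ≤ 1 / 20 → 0 < ε → ε ≤ 1 / 20 → 1 ≤ N → ∃ C' ρ10 R0 : ℝ, 1 ≤ C' ∧ 0 < ρ10 ∧ ρ10 ≤ 1 / 8 ∧ 1 ≤ R0 ∧
  ∀ (C0 ρ ρ1 K R : ℝ) (J : ℕ) (p : Fin J → ℍ) (χ : Fin J → ℍ → ℝ) (nc : ℕ) (g h : SL(2, ℝ)) (b : ℕ → SL(2, ℝ)), R0 ≤ R → 0 < ρ → R ^ (-(η / 4)) ≤ ρ1 → ρ1 ≤ ρ10 → 8 / ρ ≤ K → nc + C' * (N * tau R + 1) / ρ1 ≤ ρ1 / (8 * ρ) →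
    Net Γ κ ρ C0 J p χ → (∀ j < N, b j ∈ Bx C η ε R) →
      {γ' : Γ | ∃ b' : ℕ → SL(2, ℝ), (∀ j < N, b' j ∈ Bx C η ε R) ∧ pth (tau R) g b' N = (γ' : SL(2, ℝ)) * h ∧ Und χ K (tau R) N nc g g b b'}.Finite ∧
      ({γ' : Γ | ∃ b' : ℕ → SL(2, ℝ), (∀ j < N, b' j ∈ Bx C η ε R) ∧ pth (tau R) g b' N = (γ' : SL(2, ℝ)) * h ∧ Und χ K (tau R) N nc g g b b'}.ncard : ℝ) ≤
        (C' * (N * tau R + 1)) ^ (N * tau R / (Real.log (1 / ρ1) / 2) + 3)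

/-! ## Large deviations -/

/-- **Row LDV** (short-medium; from RS: QEX, GLC, GFD, GBD, GMG). QEX for `h` and `e/2`: `θ`, `C`. By GFD (right translation by `lM v`) `∫_(dG F) exp(θ ∫_0^T h((g aM t)•I)dt) dg = ∫_(dG F) exp(θ ∫_0^T h((g lM v aM t)•I) dt) dg` for every `v`; average over `v ∈ [0,1]` (Fubini): `≤ C mG(dG F) exp(θ (mean + e/2) T)`; Chebyshev for the set where the average is `≥ mean + e`: `≤ C' exp(-θ e T/2)`. The same for `-h`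
(with the mean `-mean h`; `0 ≤ h` is not needed). The smaller of the two exponents. `T = 0`: trivial. `FB` is measurable (continuous functions) and invariant. -/
def LDV_stmt : Prop := ∀ (Γ : Subgroup SL(2, ℝ)) (F : Set ℍ) (h : ℍ → ℝ) (e : ℝ), QU.SurfaceGroup Γ → QU.NiceDom Γ F → QU.Inv Γ h → (∀ z, 0 ≤ h z ∧ h z ≤ 1) → 0 < e →
  ∃ θ C : ℝ, 0 < θ ∧ 0 < C ∧ ∀ T : ℝ, 0 < T → MeasurableSet (FB F h e T) ∧ (∀ (γ : Γ) (g : SL(2, ℝ)), (γ : SL(2, ℝ)) * g ∈ FB F h e T ↔ g ∈ FB F h e T) ∧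
    mG (dG F ∩ FB F h e T) ≤ ENNReal.ofReal (C * Real.exp (-(θ * T)))

end

end Pool.Agent.RPQ
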