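import Pool.Agent.helper98.RPQ.SpecR

/-!
# RPI (MP_07c750_an, quantum unique ergodicity, weight 10): almost every conformal direction, rows `rpi:X`

THEOREM (FNI). For every closed hyperbolic surface there are smooth functions `u_kj` (`j < J_k`), summable in every `C^n`, such that for EVERY Lipschitz function `f0` and for ALMOST EVERY `ζ` in the cube `[-1, 1]^(ℕ × ℕ)` (uniform product measure)
the function `f = f0 + Σ_k Σ_j ζ_kj u_kj` has the following property: for every `ε` there are `δ, r0 > 0` such that for all `r ≥ r0` and ALL `t` with `r⁻¹ exp ((log log r)^3) ≤ t ≤ r^(-1+δ)` every Laplace eigenfunction of the metric `e^(t f) g` with eigenvalue `r²` is `ε`-equidistributed.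

PROOF. `u_kj = amp k χ_kj`, `χ_k` the net of bumps of radius `1/k` (BMP), `amp k = exp (-(log k)²)`. At the frequency `R` only the level `k` with `1/k ≈ (log R)^(-(2a+2))` is used; all other levels and `f0` are a deterministic phase: it is absorbed in the weight of the paths (`|e^(iθ) w| = |w|`, rows PIW, EHW), so that
the second moment of the words is bounded as before (WEW), uniformly in the rest, hence also for the full product measure (resampling of one level: RSM). The deterministic part (transport etc.) holds for all bounded Lipschitz potentials `V` and `ϵ ≤ R^(-1+η/32)` (rows VSL - DEL). A polynomial net of `(R, ϵ)` and Borel-Cantelli.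

RULES. Row `rpi:XXX`: file `Pool/Agent/<seat>/RPQ/XXX.lean`, `import Pool.Agent.helper11.RPQ.SpecI`, `set_option autoImplicit false`, namespace `Pool.Agent.RPQ`, `open Pool.Agent.RS`, `open Pool.Agent.MS (BA BB st pf gk Dk amk)`, auxiliary lemmas prefixed `XXX_`, theorem `XXX_proof : XXX_stmt`
(rows of RPQ and of this file listed in `from` may be used as hypotheses `(h : YYY_stmt)`; for RS rows as in the old files). MOST ROWS ARE ADAPTATIONS of a landed row: copy the named file, rename the prefix, or import it and reuse its auxiliary lemmas (if you import it do not redeclare its lemmas).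
No `convert`, `congr!`, `native_decide`, no double quotes, no `private`.
-/

open scoped MatrixGroups ContDiff Topology UpperHalfPlane ComplexConjugate ENNReal
open UpperHalfPlane MeasureTheory Filter Set

namespace Pool.Agent.RPQ

open Pool.Agent.RS
open Pool.Agent.MS (BA BB st pf gk Dk amk)

noncomputable section

/-! ## Block D: the deterministic part for bounded Lipschitz potentials -/

/-- Laplace eigenfunctions of `e^(t V) g` near the frequency `R`, `V` bounded and Lipschitz, `t` very close to `ϵ ≤ R^(-1+η/32)` (the phases are those of `ϵ V`) -/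
structure QuasiL (Γ : Subgroup SL(2, ℝ)) (C0 η R ϵ t μ : ℝ) (V : ℍ → ℝ) (φ : ℍ → ℂ) : Prop where
  inv : QU.Inv Γ V
  bdd : ∀ z, |V z| ≤ C0
  lip : ∀ z w, |V z - V w| ≤ C0 * dist z w
  eps0 : 0 ≤ ϵ
  eps1 : ϵ ≤ R ^ (-1 + η / 32)
  t0 : |t - ϵ| ≤ R ^ (-(11 / 10) : ℝ)
  mu0 : 0 < μ
  mu1 : |Real.sqrt μ - R| ≤ R ^ (-(1 / 100) : ℝ)
  eig : CEig Γ (fun z => t * V z) μ φ

/-- **Row VSL** (freezing a Lipschitz potential; short-medium; from VSP, F1, MOM, RS: GWB, GBD; compare helper1/RPQ/VSP.lean, TRN_Wadd in helper23/RPQ/TRN.lean). Take `κ` from MOM, `ρ = R^(-η/8)` (`≤ 1/8` for large `R`), `V' = QU.conv (mo κ ρ) V`: `Mol Γ κ ρ C0 V'`. `|V - V'| ≤ C0 ρ`: the mass is 1, the kernel is supported in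
`tt z w < ρ²/64`, so `dist z w ≤ ρ` (`cosh d - 1 ≥ d²/2`). VSP for `V'`. F1: `iR F ‖Wf (pk R c) ((V - V') φ)‖² = qn ≤ (2/R) C0² ρ² nn F φ` and `iR F ‖(V - V')(g•I) QQ φ‖² ≤ C0² ρ² (2/R) nn F φ`. `(x+y+z)² ≤ 3 (x²+y²+z²)`; `ρ² = R^(-η/4)`. (`w1 R ≤ w ≤ w0 R`, `R^(-1/8) ≤ R^(-η) ≤ 1`.) -/
def VSL_stmt : Prop := ∀ (Γ : Subgroup SL(2, ℝ)) (F : Set ℍ) (α β : ℝ → ℝ) (C0 η : ℝ), QU.SurfaceGroup Γ → QU.NiceDom Γ F → BA (1 / 8) α → BB (1 / 8) β → 0 ≤ C0 → 0 < η → η ≤ 1 / 20 →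
  ∃ K R0 : ℝ, 0 < K ∧ 1 ≤ R0 ∧ ∀ (R w : ℝ) (V : ℍ → ℝ) (φ : ℍ → ℂ), R0 ≤ R → w1 R ≤ w → w ≤ w0 R → QU.Inv Γ V → (∀ z, |V z| ≤ C0) → (∀ z w, |V z - V w| ≤ C0 * dist z w) → InvC Γ φ →
    iR F (fun g => ‖Wf (pk R (cw β α w (R ^ (-η)))) (fun z => ((V z : ℝ) : ℂ) * φ z) g - ((V (g • I) : ℝ) : ℂ) * QQ β α w (R ^ (-η)) R φ g‖ ^ 2) ≤
      K * R ^ (-(η / 4)) / R * nn F φ

/-- **Row QPL** (adaptation of helper27/RPQ/QPS.lean; short-medium; MOM is not needed). `ψ = (μ e^(tV) - 1/4 - R²) φ`, `χ = [(μ - R²) - 1/4 + μ (e^(tV) - 1 - tV) + (μ - R²) t V + R² (t - ϵ) V] φ`. `|μ - R²| ≤ 3 R^(99/100)`, `|t| ≤ 2 R^(-1+η/32)`, `|e^x - 1 - x| ≤ x²`, `R² |t - ϵ| C0 ≤ C0 R^(9/10)`;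
`|ψ| ≤ C R^(1+η/32)`, square `≤ R^(2+η/4)`; `|χ| ≤ R^(1 - 1/120)`. -/
def QPL_stmt : Prop := ∀ (Γ : Subgroup SL(2, ℝ)) (F : Set ℍ) (C0 η : ℝ), QU.SurfaceGroup Γ → QU.NiceDom Γ F → 0 ≤ C0 → 0 < η → η ≤ 1 / 20 →
  ∃ R0 : ℝ, 1 ≤ R0 ∧ ∀ (R ϵ t μ : ℝ) (V : ℍ → ℝ) (φ : ℍ → ℂ), R0 ≤ R → QuasiL Γ C0 η R ϵ t μ V φ →
    InvC Γ φ ∧ ∃ ψ : ℍ → ℂ, InvC Γ ψ ∧ (∀ z, QU.lap φ z = ((1 / 4 + R ^ 2 : ℝ) : ℂ) * φ z + ψ z) ∧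
      nn F ψ ≤ R ^ (2 + η / 4) * nn F φ ∧
      ∃ χ : ℍ → ℂ, InvC Γ χ ∧ nn F χ ≤ R ^ (2 - 1 / 60 : ℝ) * nn F φ ∧ ∀ z, ψ z = ((R ^ 2 * ϵ : ℝ) : ℂ) * (((V z : ℝ) : ℂ) * φ z) + χ z

/-- **Row TRL** (transport; adaptation of helper23/RPQ/TRN.lean (import it: only `TRN_num` and `TRN_proof` change); medium; from TDE, FLP, VSL, GFB, ACC, F1, QPL, RS as there). VSP is replaced by VSL, QPS by QPL, `(log R)^a` by `R^(η/32)`: the third error term has norm² `≤ κ'² K R^(-η/4) R⁻¹` with `κ' = R ϵ/2 ≤ R^(η/32)`, so `≤ K R^(-1-3η/16)`;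
the other terms as before (`κ'/R` times bounded terms; `C R^(-2+3/2-1)`; `2 R^(-2) R⁻¹ R^(2-1/60)`). -/
def TRL_stmt : Prop := ∀ (Γ : Subgroup SL(2, ℝ)) (F : Set ℍ) (α β : ℝ → ℝ) (C0 η : ℝ), QU.SurfaceGroup Γ → QU.NiceDom Γ F → BA (1 / 8) α → BB (1 / 8) β → 0 ≤ C0 → 0 < η → η ≤ 1 / 20 →
  ∃ δ R0 : ℝ, 0 < δ ∧ 1 ≤ R0 ∧ ∀ (R ϵ t μ s : ℝ) (V : ℍ → ℝ) (φ : ℍ → ℂ), R0 ≤ R → QuasiL Γ C0 η R ϵ t μ V φ → 0 ≤ s → s ≤ tau R →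
    R * iR F (fun g => ‖PT β α (w0 R) (R ^ (-η)) R s φ g -
      Complex.exp (-(((th V (R * ϵ / 2) s g : ℝ) : ℂ) * Complex.I)) * QQ β α (w0 R) (R ^ (-η)) R φ g‖ ^ 2) ≤ R ^ (-δ) * nn F φ

/-- **Row AVL** (adaptation of helper11/RPQ/AVG.lean; short; from QNW, F1, F2, QPL, TRL, RS as there). -/
def AVL_stmt : Prop := ∀ (Γ : Subgroup SL(2, ℝ)) (F : Set ℍ) (α β : ℝ → ℝ) (C0 η : ℝ) (h : ℍ → ℝ), QU.SurfaceGroup Γ → QU.NiceDom Γ F → BA (1 / 8) α → BB (1 / 8) β → 0 ≤ C0 → 0 < η → η ≤ 1 / 20 →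
  QU.Inv Γ h → (∀ z, 0 ≤ h z ∧ h z ≤ 1) → ∀ e : ℝ, 0 < e → ∃ R0 : ℝ, 1 ≤ R0 ∧ ∀ (R ϵ t μ : ℝ) (V : ℍ → ℝ) (φ : ℍ → ℂ), R0 ≤ R → QuasiL Γ C0 η R ϵ t μ V φ →
    |R * iR F (fun g => avh h (tau R) g * ‖QQ β α (w0 R) (R ^ (-η)) R φ g‖ ^ 2) - ∫ z in F, h z * ‖φ z‖ ^ 2| ≤ e * nn F φ ∧
    |R * iR F (fun g => ‖QQ β α (w0 R) (R ^ (-η)) R φ g‖ ^ 2) - nn F φ| ≤ e * nn F φ

/-- **Row UFL** (adaptation of helper71/RPQ/UFX.lean; short; import it and change only the last theorem; from UNF, F1, F2, QPL, TRL, ..). -/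
def UFL_stmt : Prop := ∀ (Γ : Subgroup SL(2, ℝ)) (F : Set ℍ) (α β : ℝ → ℝ) (C0 η : ℝ), QU.SurfaceGroup Γ → QU.NiceDom Γ F → BA (1 / 8) α → BB (1 / 8) β → 0 ≤ C0 → 0 < η → η ≤ 1 / 20 →
  ∃ δ R0 : ℝ, 0 < δ ∧ 1 ≤ R0 ∧ ∀ (R ϵ t μ : ℝ) (V : ℍ → ℝ) (φ : ℍ → ℂ), R0 ≤ R → QuasiL Γ C0 η R ϵ t μ V φ →
    R * iR F (fun g => ‖(∫ h, stK V (R * ϵ / 2) (tau R) (uk β α η R) g h * QQ β α (w0 R) (R ^ (-η)) R φ h ∂mG) - QQ β α (w0 R) (R ^ (-η)) R φ g‖ ^ 2) ≤ R ^ (-δ) * nn F φ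

/-- **Row UOL** (adaptation of helper89/RPQ/UOP.lean; short; import it and change only the last theorem; from UCT, UFL, UKB, GRW, KPG, ..). -/
def UOL_stmt : Prop := ∀ (Γ : Subgroup SL(2, ℝ)) (F : Set ℍ) (α β : ℝ → ℝ) (η ε : ℝ), QU.SurfaceGroup Γ → QU.NiceDom Γ F → BA (1 / 8) α → BB (1 / 8) β → 0 < η → η ≤ 1 / 20 → 0 < ε → ε ≤ 1 / 20 →
  ∃ C1 : ℝ, 1 ≤ C1 ∧ ∀ C C0 : ℝ, C1 ≤ C → 0 ≤ C0 → ∃ δ R0 : ℝ, 0 < δ ∧ 1 ≤ R0 ∧ ∀ (R ϵ t μ : ℝ) (V : ℍ → ℝ) (φ : ℍ → ℂ), R0 ≤ R → QuasiL Γ C0 η R ϵ t μ V φ →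
    ∀ T : Lp ℂ 2 (mG.restrict (dG F)) →L[ℂ] Lp ℂ 2 (mG.restrict (dG F)), IsOp (mG.restrict (dG F)) (perK Γ (stK V (R * ϵ / 2) (tau R) (ut β α C η ε R))) T →
      ‖T‖ ≤ 1 + R ^ (-δ) ∧ ∀ Φ : Lp ℂ 2 (mG.restrict (dG F)), (Φ : SL(2, ℝ) → ℂ) =ᵐ[mG.restrict (dG F)] (fun g => ((Real.sqrt R : ℝ) : ℂ) * QQ β α (w0 R) (R ^ (-η)) R φ g) →
        nn F φ ≤ 1 → ‖T Φ - Φ‖ ≤ R ^ (-δ)

/-- **Row DEL** (adaptation of helper11/RPQ/DET.lean; short-medium; from WRD, UOL, AVL, KO1, KO2, KPG, KPS, OPW, LDV, .. as there). -/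
def DEL_stmt : Prop := ∀ (Γ : Subgroup SL(2, ℝ)) (F : Set ℍ) (α β : ℝ → ℝ) (η ε : ℝ), QU.SurfaceGroup Γ → QU.NiceDom Γ F → BA (1 / 8) α → BB (1 / 8) β → 0 < η → η ≤ 1 / 20 → 0 < ε → ε ≤ 1 / 20 →
  ∀ (L n : ℕ) (e : ℝ), 1 ≤ L → 1 ≤ n → 0 < e → e ≤ 1 → ∃ (C1 δ0 : ℝ), 1 ≤ C1 ∧ 0 < δ0 ∧ ∀ C C0 : ℝ, C1 ≤ C → 0 ≤ C0 → ∀ h : ℍ → ℝ, QU.Inv Γ h → (∀ z, 0 ≤ h z ∧ h z ≤ 1) → ∃ R0 : ℝ, 1 ≤ R0 ∧
    ∀ (R ϵ t μ : ℝ) (V : ℍ → ℝ) (φ : ℍ → ℂ), R0 ≤ R → QuasiL Γ C0 η R ϵ t μ V φ →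
      (∀ l ∈ AdL L n, WS Γ F (wdK V (R * ϵ / 2) (tau R) (ut β α C η ε R) (FB F h e (tau R)) l) δ0) →
        |(∫ z in F, h z * ‖φ z‖ ^ 2) - mean F h * nn F φ| ≤ (2 * ((2 * L + 1) / n) + 10 * e) * nn F φ

/-! ## Block R: the random estimate with a deterministic phase `W` -/

/-- **Row THW** (short; adaptation of helper68/RPQ/THL.lean; from VXI, RS: GLC). `th` is linear in `V`; `κ * (s * x) = (κ * s) * x`. -/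
def THW_stmt : Prop := ∀ (Γ : Subgroup SL(2, ℝ)) (J : ℕ) (χ : Fin J → ℍ → ℝ) (W : ℍ → ℝ) (s : ℝ), (∀ j, QU.Inv Γ (χ j)) → QU.Inv Γ W → (∀ ξ : Fin J → ℝ, QU.Inv Γ (fun z => W z + s * VV χ ξ z)) ∧
  (∀ κ t : ℝ, Continuous (th W κ t)) ∧
  (∀ (κ t : ℝ) (N n : ℕ), Continuous fun p : (SL(2, ℝ) × SL(2, ℝ)) × (Fin n → SL(2, ℝ)) => TH W κ t N p.1.1 (ic t (vx p.1.1 p.1.2 p.2))) ∧
  (∀ (ξ : Fin J → ℝ) (κ t : ℝ) (g : SL(2, ℝ)), th (fun z => W z + s * VV χ ξ z) κ t g = th W κ t g + ∑ j, ξ j * th (χ j) (κ * s) t g) ∧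
  ∀ (ξ : Fin J → ℝ) (κ t : ℝ) (N : ℕ) (g : SL(2, ℝ)) (b : ℕ → SL(2, ℝ)), TH (fun z => W z + s * VV χ ξ z) κ t N g b = TH W κ t N g b + ∑ j, ξ j * TH (χ j) (κ * s) t N g b

/-- **Row PIW** (adaptation of helper65/RPQ/PIN.lean; short-medium; from WDK, THL, THW, WDE, VXI, KPG, QU.DOB, RS: GMG). The phase of `W` is put into the weight. -/
def PIW_stmt : Prop := ∀ (Γ : Subgroup SL(2, ℝ)) (F : Set ℍ) (J : ℕ) (χ : Fin J → ℍ → ℝ) (W : ℍ → ℝ) (s κ t : ℝ) (u : SL(2, ℝ) → ℂ) (A : Set SL(2, ℝ)) (l : List ℕ), QU.SurfaceGroup Γ → QU.NiceDom Γ F →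
  (∀ j, QU.Inv Γ (χ j)) → QU.Inv Γ W → Measurable u → (∃ B : ℝ, ∀ b, ‖u b‖ ≤ B) → (∃ D : ℝ, ∀ b, u b ≠ 0 → ∀ i j, |b.1 i j| ≤ D) → MeasurableSet A → (∀ (γ : Γ) (g : SL(2, ℝ)), (γ : SL(2, ℝ)) * g ∈ A ↔ g ∈ A) → l ≠ [] →
    SigmaFinite (mO Γ l) ∧ Countable Γ ∧
    (∀ g h : SL(2, ℝ), Measurable (fun q : Om Γ l => Complex.exp (((TH W κ t (nst l) g (ic t (vo g h q)) : ℝ) : ℂ) * Complex.I) * wgt u t A l (vo g h q)) ∧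
      Measurable (fun (q : Om Γ l) (j : Fin J) => TH (χ j) (κ * s) t (nst l) g (ic t (vo g h q)))) ∧
    (∀ (ξ : Fin J → ℝ) (g h : SL(2, ℝ)), perK Γ (wdK (fun z => W z + s * VV χ ξ z) κ t u A l) g h =
      ∫ q, Complex.exp (((∑ j, ξ j * TH (χ j) (κ * s) t (nst l) g (ic t (vo g h q)) : ℝ) : ℂ) * Complex.I) *
        (Complex.exp (((TH W κ t (nst l) g (ic t (vo g h q)) : ℝ) : ℂ) * Complex.I) * wgt u t A l (vo g h q)) ∂mO Γ l) ∧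
    Measurable fun p : (Fin J → ℝ) × (SL(2, ℝ) × SL(2, ℝ)) => perK Γ (wdK (fun z => W z + s * VV χ p.1 z) κ t u A l) p.2.1 p.2.2

/-- **Row EHW** (adaptation of helper98/RPQ/EH1.lean; short-medium; from QMB, PIW, WDE, VXI). `w(q) = exp (i TH W ..) wgt ..`, `‖w q‖ₑ = ‖wgt ..‖ₑ ≤ M q`; `x_j(q) = TH (χ j) (κ * s) ..`. -/
def EHW_stmt : Prop := ∀ (Γ : Subgroup SL(2, ℝ)) (F : Set ℍ) (J nc K : ℕ) (χ : Fin J → ℍ → ℝ) (W : ℍ → ℝ) (s κ t : ℝ) (u : SL(2, ℝ) → ℂ) (m : SL(2, ℝ) → ENNReal) (A : Set SL(2, ℝ)) (l : List ℕ) (Mx S : ENNReal),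
  QU.SurfaceGroup Γ → QU.NiceDom Γ F → (∀ j, QU.Inv Γ (χ j)) → QU.Inv Γ W → Measurable u → (∃ B : ℝ, ∀ b, ‖u b‖ ≤ B) → (∃ D : ℝ, ∀ b, u b ≠ 0 → ∀ i j, |b.1 i j| ≤ D) → MeasurableSet A →
  (∀ (γ : Γ) (g : SL(2, ℝ)), (γ : SL(2, ℝ)) * g ∈ A ↔ g ∈ A) → l ≠ [] → Measurable m → (∀ b, ‖u b‖ₑ ≤ m b) → S ≠ ⊤ →
  (∀ g h : SL(2, ℝ), mc m t (nst l - 1) g h ≤ Mx) → (∀ g h : SL(2, ℝ), ∑' γ : Γ, mc m t (nst l - 1) g ((γ : SL(2, ℝ)) * h) ≤ S) →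
  (∀ (g h : SL(2, ℝ)) (b : ℕ → SL(2, ℝ)), (∀ j < nst l, m (b j) ≠ 0) → pth t g b (nst l) = h →
    {γ : Γ | ∃ b' : ℕ → SL(2, ℝ), (∀ j < nst l, m (b' j) ≠ 0) ∧ pth t g b' (nst l) = (γ : SL(2, ℝ)) * h ∧ Und χ (κ * s) t (nst l) nc g g b b'}.encard ≤ K) →
    ∀ g h : SL(2, ℝ), ∫⁻ ξ, ‖perK Γ (wdK (fun z => W z + s * VV χ ξ z) κ t u A l) g h‖ₑ ^ 2 ∂PJ J ≤
      (K * Mx + ENNReal.ofReal ((9 / 10) ^ nc) * S) * ∑' γ : Γ, wdE m t A l g ((γ : SL(2, ℝ)) * h)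

/-- **Row ESW** (adaptation of helper75/RPQ/EHS.lean; short; from EHW, PIW, UNL, WDE, RS: GMG). -/
def ESW_stmt : Prop := ∀ (Γ : Subgroup SL(2, ℝ)) (F : Set ℍ) (J nc K : ℕ) (χ : Fin J → ℍ → ℝ) (W : ℍ → ℝ) (s κ t : ℝ) (u : SL(2, ℝ) → ℂ) (m : SL(2, ℝ) → ENNReal) (A : Set SL(2, ℝ)) (l : List ℕ) (Mx S : ENNReal),
  QU.SurfaceGroup Γ → QU.NiceDom Γ F → (∀ j, QU.Inv Γ (χ j)) → QU.Inv Γ W → Measurable u → (∃ B : ℝ, ∀ b, ‖u b‖ ≤ B) → (∃ D : ℝ, ∀ b, u b ≠ 0 → ∀ i j, |b.1 i j| ≤ D) → MeasurableSet A →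
  (∀ (γ : Γ) (g : SL(2, ℝ)), (γ : SL(2, ℝ)) * g ∈ A ↔ g ∈ A) → l ≠ [] → Measurable m → (∀ b, ‖u b‖ₑ ≤ m b) → S ≠ ⊤ →
  (∀ g h : SL(2, ℝ), mc m t (nst l - 1) g h ≤ Mx) → (∀ g h : SL(2, ℝ), ∑' γ : Γ, mc m t (nst l - 1) g ((γ : SL(2, ℝ)) * h) ≤ S) →
  (∀ (g h : SL(2, ℝ)) (b : ℕ → SL(2, ℝ)), (∀ j < nst l, m (b j) ≠ 0) → pth t g b (nst l) = h →
    {γ : Γ | ∃ b' : ℕ → SL(2, ℝ), (∀ j < nst l, m (b' j) ≠ 0) ∧ pth t g b' (nst l) = (γ : SL(2, ℝ)) * h ∧ Und χ (κ * s) t (nst l) nc g g b b'}.encard ≤ K) →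
    ∫⁻ ξ, ∫⁻ g in dG F, ∫⁻ h in dG F, ‖perK Γ (wdK (fun z => W z + s * VV χ ξ z) κ t u A l) g h‖ₑ ^ 2 ∂mG ∂mG ∂PJ J ≤
      (K * Mx + ENNReal.ofReal ((9 / 10) ^ nc) * S) * ∫⁻ g in dG F, ∫⁻ h, wdE m t A l g h ∂mG ∂mG

/-- **Row WXW** (adaptation of helper30/RPQ/WXN.lean; short; from ESW, CHN). `WH` is used with `κ * s` in the place of `κ` (it only occurs in `cnt`). -/
def WXW_stmt : Prop := ∀ (N L : ℕ) (η ε θ B C1 C' : ℝ), 1 ≤ L → 0 < η → 0 < ε → (L + 1) * η + 2 * N * ε ≤ 1 / 4 → 0 < θ → 0 ≤ B → 1 ≤ C1 → 1 ≤ C' → B + 5 ≤ (L + 1) * θ / 8 → ∃ R0 : ℝ, 1 ≤ R0 ∧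
  ∀ (Γ : Subgroup SL(2, ℝ)) (F : Set ℍ) (C R s κ : ℝ) (J nc K : ℕ) (χ : Fin J → ℍ → ℝ) (W : ℍ → ℝ) (u : SL(2, ℝ) → ℂ) (A : Set SL(2, ℝ)) (l : List ℕ), QU.SurfaceGroup Γ → QU.NiceDom Γ F → R0 ≤ R → 1 ≤ C → QU.Inv Γ W →
    WH Γ F N L η ε θ B C1 C' C R (κ * s) J nc K χ u A l →
      ∫⁻ ξ, ∫⁻ g in dG F, ∫⁻ h in dG F, ‖perK Γ (wdK (fun z => W z + s * VV χ ξ z) κ (tau R) u A l) g h‖ₑ ^ 2 ∂mG ∂mG ∂PJ J ≤ ENNReal.ofReal (R ^ (-(B + 3)))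

/-- **Row WEW** (adaptation of helper25/RPQ/WEX.lean; short; from WXW, PAR, UTM, MCV, BLK, CNT). The estimate is for `PJ J` (so CBE is not needed) and `8 / ρ ≤ K * s`. -/
def WEW_stmt : Prop := ∀ (Γ : Subgroup SL(2, ℝ)) (F : Set ℍ) (α β κ : ℝ → ℝ) (C0 B θ C1 : ℝ) (L N : ℕ), QU.SurfaceGroup Γ → QU.NiceDom Γ F → BA (1 / 8) α → BB (1 / 8) β → MO κ → 0 ≤ B → 0 < θ → 0 < C1 → 1 ≤ L →
  B + 5 ≤ (L + 1) * θ / 8 → ∃ (η ε C2 : ℝ), 0 < η ∧ η ≤ 1 / 20 ∧ 0 < ε ∧ ε ≤ 1 / 20 ∧ 1 ≤ C2 ∧ ∀ C : ℝ, C2 ≤ C → ∃ a R0 : ℝ, 1 ≤ a ∧ 3 ≤ R0 ∧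
    ∀ (R ρ s K : ℝ) (J : ℕ) (p : Fin J → ℍ) (χ : Fin J → ℍ → ℝ) (W : ℍ → ℝ) (A : Set SL(2, ℝ)) (l : List ℕ), R0 ≤ R → (Real.log R) ^ (-(2 * a + 2)) / 2 ≤ ρ → ρ ≤ (Real.log R) ^ (-(2 * a + 2)) → 8 / ρ ≤ K * s → Net Γ κ ρ C0 J p χ →
      QU.Inv Γ W → MeasurableSet A → (∀ (γ : Γ) (g : SL(2, ℝ)), (γ : SL(2, ℝ)) * g ∈ A ↔ g ∈ A) → mG (dG F ∩ A) ≤ ENNReal.ofReal (C1 * R ^ (-(θ / 8))) →
      l.length = L → (∀ n ∈ l, 9 ≤ n + 1) → (l.map (fun n => n + 1)).sum ≤ N →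
        ∫⁻ ξ, ∫⁻ g in dG F, ∫⁻ h in dG F, ‖perK Γ (wdK (fun z => W z + s * VV χ ξ z) K (tau R) (ut β α C η ε R) A l) g h‖ₑ ^ 2 ∂mG ∂mG ∂PJ J ≤
          ENNReal.ofReal (R ^ (-(B + 3)))

/-- **Row MEW** (measurability for general parameters; short-medium; adaptation of helper3/RPQ/MEX.lean; from RS: GLC, GMG). `(ζ, g) ↦ th (V ζ) κ t g` is jointly measurable (a parametric integral of a jointly measurable function: `intervalIntegral` as a set integral, `StronglyMeasurable.integral_prod_right'`);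
the rest as in MEX. -/
def MEW_stmt : Prop := ∀ (Γ : Subgroup SL(2, ℝ)) (F : Set ℍ) (K t : ℝ) (u : SL(2, ℝ) → ℂ) (A : Set SL(2, ℝ)) (l : List ℕ) (Ω : Type) [MeasurableSpace Ω] (V : Ω → ℍ → ℝ), QU.SurfaceGroup Γ → QU.NiceDom Γ F →
  Measurable (Function.uncurry V) → (∀ ζ, QU.Inv Γ (V ζ)) → Measurable u → (∃ B : ℝ, ∀ b, ‖u b‖ ≤ B) →
  (∃ D : ℝ, ∀ b, u b ≠ 0 → ∀ i j, |b.1 i j| ≤ D) → MeasurableSet A → (∀ (γ : Γ) (g : SL(2, ℝ)), (γ : SL(2, ℝ)) * g ∈ A ↔ g ∈ A) →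
    Measurable (fun ζ : Ω => ∫⁻ g in dG F, ∫⁻ h in dG F, ‖perK Γ (wdK (V ζ) K t u A l) g h‖ₑ ^ 2 ∂mG ∂mG)

/-- **Row PRW** (one frequency; medium-long; adaptation of helper98/RPQ/PRB.lean; from DEL, WEW, MEW, LDV, LNT, MFC, UTM, SNC). Parameters as in PRB (`δ = η/32`, `η` from WEW; `κ`, `C0` only enter WEW). Fix `h' ∈ S`, `l ∈ AdL L n`; `G ζ` = the second moment of the word kernel of `V ζ`, measurable (MEW). `Φ` is measure preserving, so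
`∫⁻ G dP = ∫⁻ G (Φ x) d(P × PJ) = ∫⁻ ζ, ∫⁻ ξ, G (Φ (ζ, ξ))` (`MeasurePreserving.lintegral_comp`, `lintegral_prod`), for almost all `ξ` (`|ξ j| ≤ 1`: SNC) `V (Φ (ζ, ξ)) = W ζ + s VV χ ξ`, so the inner integral is `≤ ofReal (R^(-(B+3)))` by WEW with `K = R ϵ/2` (`K s ≥ 8/ρ`). Markov: `P {¬ G ζ ≤ δ0²} ≤ δ0⁻² R^(-(B+3))`.
Outside the union of these sets: DEL for all `h' ∈ S` and MFC as in PRB_det (`f = t V ζ`, `|f| ≤ 2 R^(-1+δ) C1`). -/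
def PRW_stmt : Prop := ∀ (Γ : Subgroup SL(2, ℝ)) (κ : ℝ → ℝ) (C0 C1 ε B : ℝ), QU.SurfaceGroup Γ → MO κ → 0 ≤ C0 → 0 ≤ C1 → 0 < ε → 0 ≤ B → ∃ a δ R0 : ℝ, 1 ≤ a ∧ 0 < δ ∧ δ ≤ 1 ∧ 3 ≤ R0 ∧
  ∀ (R ρ ϵ s : ℝ) (J : ℕ) (p : Fin J → ℍ) (χ : Fin J → ℍ → ℝ) (Ω : Type) [MeasurableSpace Ω] (P : Measure Ω) [IsProbabilityMeasure P] (V W : Ω → ℍ → ℝ) (Φ : Ω × (Fin J → ℝ) → Ω),
    R0 ≤ R → (Real.log R) ^ (-(2 * a + 2)) / 2 ≤ ρ → ρ ≤ (Real.log R) ^ (-(2 * a + 2)) → 16 / (ρ * R) ≤ ϵ * s → 0 ≤ ϵ → ϵ ≤ R ^ (-1 + δ) → Net Γ κ ρ C0 J p χ →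
    Measurable (Function.uncurry V) → (∀ ζ, QU.Inv Γ (V ζ)) → (∀ ζ, QU.Inv Γ (W ζ)) → (∀ ζ z, |V ζ z| ≤ C1) → (∀ ζ z w, |V ζ z - V ζ w| ≤ C1 * dist z w) →
    MeasurePreserving Φ (P.prod (PJ J)) P → (∀ (ζ : Ω) (ξ : Fin J → ℝ), (∀ j, |ξ j| ≤ 1) → ∀ z, V (Φ (ζ, ξ)) z = W ζ z + s * VV χ ξ z) →
      P {ζ | ¬ ∀ (F : Set ℍ) (t μ : ℝ) (φ : ℍ → ℂ), QU.NiceDom Γ F → |t - ϵ| ≤ R ^ (-(11 / 10) : ℝ) → 0 < μ → |Real.sqrt μ - R| ≤ R ^ (-(1 / 100) : ℝ) → CEig Γ (fun z => t * V ζ z) μ φ →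
        Eqd Γ F (fun z => t * V ζ z) ε φ} ≤ ENNReal.ofReal (R ^ (-(B + 2)))

/-! ## Block F: the random series and the end -/

/-- **Row LIP** (short-medium; from RS: GLC). `CkB 0`: every `z` is `g • I`. `CkB 1`: for `z, w` choose `g` with `z = g • I`, `w = (g * aM d) • I`, `d = dist z w` (polar coordinates; compare `PIG`, `TPT` or QU); `s ↦ f ((g * aM s) • I)` has the derivative `D(onC (f ∘ (g * aM s)))(I) (i)` at `s`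
(`aM u • I = e^u i`), of absolute value `≤ B`. -/
def LIP_stmt : Prop := ∀ (f : ℍ → ℝ) (B : ℝ), QU.CD ∞ f → (CkB 0 f B → ∀ z, |f z| ≤ B) ∧ (CkB 1 f B → ∀ z w, |f z - f w| ≤ B * dist z w)

/-- **Row SER** (series of smooth functions; medium; from RS: GLC). Let `g = (translation by x) (dilation by y)`, `g • I = x + i y`: `onC f w' = onC (f ∘ g) ((w' - x)/y)` near `w = x + i y`, so `‖iteratedFDeriv ℝ n (onC f) w‖ ≤ y^(-n) B` if `CkB n f B`. Hence for a smooth bump function `b` with compact support in the upper half plane, `b = 1` near a given point,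
the derivatives of order `n` of `b * onC (v k)` are bounded by `M_n Σ_(i ≤ n) c_i k` everywhere (Leibniz: `norm_iteratedFDeriv_mul_le`): `contDiff_tsum`. `Σ' v k` is continuous (it is `CD ∞`; compare `QPS_cont`) and invariant. -/
def SER_stmt : Prop := ∀ (Γ : Subgroup SL(2, ℝ)) (v : ℕ → ℍ → ℝ), (∀ k, QU.CD ∞ (v k) ∧ QU.Inv Γ (v k)) → (∀ n : ℕ, ∃ c : ℕ → ℝ, Summable c ∧ ∀ k, CkB n (v k) (c k)) →
  (∀ z, Summable fun k => v k z) ∧ QU.CD ∞ (fun z => ∑' k, v k z) ∧ QU.Inv Γ (fun z => ∑' k, v k z)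

/-- the amplitude of the level `k` -/
def amp (k : ℕ) : ℝ := Real.exp (-(Real.log k) ^ 2)

/-- the nets of all levels -/
structure Fam (Γ : Subgroup SL(2, ℝ)) (κ : ℝ → ℝ) (C0 : ℝ) (k0 : ℕ) (J : ℕ → ℕ) (p : (k : ℕ) → Fin (J k) → ℍ) (χ : (k : ℕ) → Fin (J k) → ℍ → ℝ) : Prop where
  mo : MO κ
  c0 : 0 ≤ C0
  k1 : 1 ≤ k0
  zero : ∀ k, k < k0 → J k = 0
  net : ∀ k, k0 ≤ k → Net Γ κ (1 / (k : ℝ)) C0 (J k) (p k) (χ k)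
  sum : ∀ n : ℕ, ∃ c : ℕ → ℝ, Summable c ∧ (∀ k, 0 ≤ c k) ∧ ∀ (k : ℕ) (ξ : Fin (J k) → ℝ), (∀ j, |ξ j| ≤ 1) → CkB n (fun z => amp k * VV (χ k) ξ z) (c k)

/-- **Row FAM** (short-medium; from BMP, MOM, CKB). `k0 ≥ 1/ρ0`; `J k`, `p k`, `χ k` by choice from BMP for `k ≥ k0`, `J k = 0` otherwise (define a sigma type by cases). Seminorms as in FIN_proof/FN2_proof (helper25, helper11): `amp k * VV = conv (mo κ (1/k)) (amp k * V0)`, so `c k = C_n C0 amp k k^(2n)` for `k ≥ k0`; for `k < k0` `VV = 0`,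
`CkB n 0 0`. Summable: `amp k k^(2n) ≤ exp (-(log k)² + 2 n log k) ≤ M k⁻²` (`x² - (2n+2) x ≥ -(n+1)²`). -/
def FAM_stmt : Prop := ∀ Γ : Subgroup SL(2, ℝ), QU.SurfaceGroup Γ → ∃ (κ : ℝ → ℝ) (C0 : ℝ) (k0 : ℕ) (J : ℕ → ℕ) (p : (k : ℕ) → Fin (J k) → ℍ) (χ : (k : ℕ) → Fin (J k) → ℍ → ℝ), Fam Γ κ C0 k0 J p χ

/-- the uniform probability measure on `[-1, 1]` -/
def UN : Measure ℝ := (2 : ENNReal)⁻¹ • (volume : Measure ℝ).restrict (Icc (-1) 1)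

instance UN_prob : IsProbabilityMeasure UN := by
  constructor
  unfold UN
  rw [Measure.smul_apply, Measure.restrict_apply MeasurableSet.univ, Set.univ_inter, Real.volume_Icc, smul_eq_mul]
  norm_num
  exact ENNReal.inv_mul_cancel (by norm_num) (by norm_num)

/-- the product measure on `[-1, 1]^(ℕ × ℕ)` -/
def PN : Measure (ℕ × ℕ → ℝ) := Measure.infinitePi fun _ : ℕ × ℕ => UN

/-- truncation to `[-1, 1]` -/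
def clp (x : ℝ) : ℝ := max (-1) (min 1 x)

/-- the random series -/
def rf (J : ℕ → ℕ) (χ : (k : ℕ) → Fin (J k) → ℍ → ℝ) (ζ : ℕ × ℕ → ℝ) (z : ℍ) : ℝ := ∑' k, amp k * VV (χ k) (fun j => ζ (k, (j : ℕ))) z

/-- the random potential (with truncated coefficients) -/
def Vf (f0 : ℍ → ℝ) (J : ℕ → ℕ) (χ : (k : ℕ) → Fin (J k) → ℍ → ℝ) (ζ : ℕ × ℕ → ℝ) (z : ℍ) : ℝ := f0 z + rf J χ (fun q => clp (ζ q)) z

/-- the coordinates `(k, j)`, `j < J`, of `x.1` are replaced by `x.2` -/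
def upd (k J : ℕ) (x : (ℕ × ℕ → ℝ) × (Fin J → ℝ)) (q : ℕ × ℕ) : ℝ := if h : q.1 = k ∧ q.2 < J then x.2 ⟨q.2, h.2⟩ else x.1 q

/-- **Row RSM** (resampling of a level; short-medium; Mathlib). `Measure.eq_infinitePi`: the preimage of a finite box `{ζ | ∀ q ∈ s, ζ q ∈ t q}` is a product of two boxes; `Measure.prod_prod`, `infinitePi_pi`, `Measure.pi_pi` (`PJ J` is `Measure.pi (fun _ => UN)` by definition). `|ζ q| ≤ 1` for all `q`: countable intersection, `infinitePi_map_eval`. -/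
def RSM_stmt : Prop := IsProbabilityMeasure PN ∧ (∀ᵐ ζ ∂PN, ∀ q, |ζ q| ≤ 1) ∧ ∀ k J : ℕ, MeasurePreserving (upd k J) (PN.prod (PJ J)) PN

/-- **Row RFP** (properties of the random potential; medium; from LIP, SER). For every `ζ` the coefficients `clp (ζ q)` are in `[-1, 1]`; `v k = amp k * VV (χ k) ..` satisfies SER, LIP (`c` of `Fam.sum` for `n = 0`, `1`): bounds `Σ c_0`, `Σ c_1`. `f0` is bounded (`QU.A_BDD` or `LNT`-type: compactness; QU: BDD may be used). Measurability: the partial sums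
are continuous in `(ζ, z)` and converge everywhere (`measurable_of_tendsto_metrizable`). Decomposition: the series of `upd k (J k) (ζ, ξ)` and of `upd k (J k) (ζ, 0)` differ only in the `k`-th term (`Summable.tsum_sub` or `Summable.tsum_eq_add_tsum_ite`), `clp (ξ j) = ξ j`. Last part: SER for `ζ` with `|ζ q| ≤ 1`. -/
def RFP_stmt : Prop := ∀ (Γ : Subgroup SL(2, ℝ)) (κ : ℝ → ℝ) (C0 : ℝ) (k0 : ℕ) (J : ℕ → ℕ) (p : (k : ℕ) → Fin (J k) → ℍ) (χ : (k : ℕ) → Fin (J k) → ℍ → ℝ) (f0 : ℍ → ℝ) (L : ℝ), QU.SurfaceGroup Γ → Fam Γ κ C0 k0 J p χ →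
  QU.Inv Γ f0 → (∀ z w, |f0 z - f0 w| ≤ L * dist z w) → (∃ C1 : ℝ, 0 ≤ C1 ∧ Measurable (Function.uncurry (Vf f0 J χ)) ∧ ∀ ζ : ℕ × ℕ → ℝ, QU.Inv Γ (Vf f0 J χ ζ) ∧ (∀ z, |Vf f0 J χ ζ z| ≤ C1) ∧
    (∀ z w, |Vf f0 J χ ζ z - Vf f0 J χ ζ w| ≤ C1 * dist z w) ∧
    ∀ (k : ℕ) (ξ : Fin (J k) → ℝ), (∀ j, |ξ j| ≤ 1) → ∀ z, Vf f0 J χ (upd k (J k) (ζ, ξ)) z = Vf f0 J χ (upd k (J k) (ζ, fun _ => 0)) z + amp k * VV (χ k) ξ z) ∧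
  ∀ ζ : ℕ × ℕ → ℝ, (∀ q, |ζ q| ≤ 1) → QU.CD ∞ (rf J χ ζ) ∧ ∀ z, Vf f0 J χ ζ z = f0 z + rf J χ ζ z

/-- **Row GI1** (numbers; short-medium; pure). `x = log R`, `k = ⌈x^(2a+2)⌉`: `x^(2a+2) ≤ k ≤ 2 x^(2a+2)`. `16 k/R ≤ amp k exp ((log x)^3)/(2R)`: `log (32 k) + (log k)² ≤ (log x)^3` for large `x` as `log k ≤ (2a+2) log x + 1`. -/
def GI1_stmt : Prop := ∀ (a : ℝ) (k0 : ℕ), 1 ≤ a → ∃ R0 : ℝ, 3 ≤ R0 ∧ ∀ R : ℝ, R0 ≤ R → ∃ k : ℕ, k0 ≤ k ∧ (Real.log R) ^ (-(2 * a + 2)) / 2 ≤ 1 / (k : ℝ) ∧ 1 / (k : ℝ) ≤ (Real.log R) ^ (-(2 * a + 2)) ∧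
  ∀ ϵ : ℝ, Real.exp (Real.log (Real.log R) ^ 3) / (2 * R) ≤ ϵ → 16 / (1 / (k : ℝ) * R) ≤ ϵ * amp k

/-- **Row GI2** (numbers; short-medium; pure). `i = ⌊r²⌋`, `R = √i`: `R ≤ r ≤ R + 1/R`; `m = ⌊t R^(11/10)⌋`. Lower bound: `exp ((log log r)^3)/r ≥ (3/4) exp ((log log R)^3)/R` (monotone for `log R ≥ 1`) and `R^(-11/10) ≤ (1/4) exp ((log log R)^3)/R`. Upper bound: `m R^(-11/10) ≤ t ≤ r^(-1+δ/2) ≤ R^(-1+δ/2)` (`δ ≤ 1`).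
`m ≤ R^(-1/2) R^(11/10) ≤ i`. -/
def GI2_stmt : Prop := ∀ δ R1 : ℝ, 0 < δ → δ ≤ 1 → ∃ r0 : ℝ, 3 ≤ r0 ∧ ∀ r t : ℝ, r0 ≤ r → Real.exp (Real.log (Real.log r) ^ 3) / r ≤ t → t ≤ r ^ (-1 + δ / 2) → ∃ i m : ℕ, m ≤ i ∧ R1 ≤ Real.sqrt i ∧
  |r - Real.sqrt i| ≤ Real.sqrt i ^ (-(1 / 100) : ℝ) ∧ |t - m * Real.sqrt i ^ (-(11 / 10) : ℝ)| ≤ Real.sqrt i ^ (-(11 / 10) : ℝ) ∧
  Real.exp (Real.log (Real.log (Real.sqrt i)) ^ 3) / (2 * Real.sqrt i) ≤ m * Real.sqrt i ^ (-(11 / 10) : ℝ) ∧ m * Real.sqrt i ^ (-(11 / 10) : ℝ) ≤ Real.sqrt i ^ (-1 + δ)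

/-- **Row BCI** (Borel-Cantelli; medium; from PRW, RSM, RFP, GI1, GI2). Fix `ε`. PRW with `B = 4` (`C1` from RFP): `a, δ, R0`; GI1 for `a`, `k0`. For `i` with `√i ≥ max` of the constants: `k` from GI1, and for every `m ≤ i` such that `ϵ = m (√i)^(-11/10)` satisfies the lower bound of GI1 and `ϵ ≤ (√i)^(-1+δ)`: PRW with `R = √i`, `ρ = 1/k`, `s = amp k`,
`P = PN`, `V = Vf f0 J χ`, `W ζ = Vf f0 J χ (upd k (J k) (ζ, 0))`, `Φ = upd k (J k)` (RSM, RFP). The union of the bad sets over `m ≤ i` has measure `≤ (i + 1) i^(-3)`: summable; `measure_limsup_atTop_eq_zero` / `ae_eventually_notMem`. For almost every `ζ`: for all large `i` and all such `m` the conclusion holds. GI2 (with `R1` large, depending on `ζ`) and `√(r²) = r`.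
For `|ζ q| ≤ 1` `Vf f0 J χ ζ = f0 + rf J χ ζ`. All `ε`: `ε = 1/(n+1)`, countable intersection; `Eqd` is monotone in `ε`. -/
def BCI_stmt : Prop := ∀ (Γ : Subgroup SL(2, ℝ)) (κ : ℝ → ℝ) (C0 : ℝ) (k0 : ℕ) (J : ℕ → ℕ) (p : (k : ℕ) → Fin (J k) → ℍ) (χ : (k : ℕ) → Fin (J k) → ℍ → ℝ) (f0 : ℍ → ℝ) (L : ℝ), QU.SurfaceGroup Γ → Fam Γ κ C0 k0 J p χ →
  QU.Inv Γ f0 → (∀ z w, |f0 z - f0 w| ≤ L * dist z w) → ∀ᵐ ζ ∂PN, ∀ ε : ℝ, 0 < ε → ∃ δ r0 : ℝ, 0 < δ ∧ 3 ≤ r0 ∧ ∀ r t : ℝ, r0 ≤ r → Real.exp (Real.log (Real.log r) ^ 3) / r ≤ t → t ≤ r ^ (-1 + δ) →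
    Good Γ (fun z => t * (f0 z + rf J χ ζ z)) ε r r

/-- **Row FNI** (the final statement; short; from FAM, RFP, BCI). `u k j = amp k * χ k j` for `j < J k`, `0` otherwise; the sums over `Finset.range (J k)` and `Fin (J k)` agree (`Finset.sum_range`). -/
def FNI_stmt : Prop := ∀ Γ : Subgroup SL(2, ℝ), QU.SurfaceGroup Γ → ∃ (J : ℕ → ℕ) (u : ℕ → ℕ → ℍ → ℝ),
  (∀ k j, QU.CD ∞ (u k j) ∧ QU.Inv Γ (u k j) ∧ ∀ z, 0 ≤ u k j z) ∧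
  (∀ n : ℕ, ∃ c : ℕ → ℝ, Summable c ∧ ∀ (k : ℕ) (ξ : ℕ → ℝ), (∀ j, |ξ j| ≤ 1) → CkB n (fun z => ∑ j ∈ Finset.range (J k), ξ j * u k j z) (c k)) ∧
  (∀ ζ : ℕ × ℕ → ℝ, (∀ q, |ζ q| ≤ 1) → QU.CD ∞ (fun z => ∑' k, ∑ j ∈ Finset.range (J k), ζ (k, j) * u k j z)) ∧
  ∀ (f0 : ℍ → ℝ) (L : ℝ), QU.Inv Γ f0 → (∀ z w, |f0 z - f0 w| ≤ L * dist z w) → ∀ᵐ ζ ∂PN, ∀ ε : ℝ, 0 < ε → ∃ δ r0 : ℝ, 0 < δ ∧ 3 ≤ r0 ∧
    ∀ r t : ℝ, r0 ≤ r → Real.exp (Real.log (Real.log r) ^ 3) / r ≤ t → t ≤ r ^ (-1 + δ) →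
      Good Γ (fun z => t * (f0 z + ∑' k, ∑ j ∈ Finset.range (J k), ζ (k, j) * u k j z)) ε r r

end

end Pool.Agent.RPQ
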