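import Pool.Agent.helper11.RPQ.SpecA
import Pool.Agent.helper29.RPQ.SpecP

/-!
# RPQ (MP_07c750), block T: spectral completeness, lower frame bound, transport, quantisation, rows `rpq:X`

Rules in `Defs.lean`. In this block `l = R^(-η)` is the length of the packets and the widths satisfy `w1 R ≤ w ≤ w0 R`.
-/

open scoped MatrixGroups ContDiff Topology UpperHalfPlane ComplexConjugate
open UpperHalfPlane MeasureTheory Filter Set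

namespace Pool.Agent.RPQ

open Pool.Agent.RS
open Pool.Agent.MS (BA BB st pf gk Dk amk)

noncomputable section

/-! ## The multiplier near the frequency -/

/-- **Row NBD** (short; from BU3, HFB). `l = R^(-η)`; `|s - R| ≤ R^(η/2)`: `R/s ≥ 1 - 2 R^(η/2 - 1)`, `‖hF (sc l α) (s-R)‖ = ‖hF α (l(s-R))‖ ≥ 1 - R^(-η)` (HFB), so `R bk ≥ (1 - 2R^(η/2-1))(1 - R^(-η))² - C R^(-1/32)`. -/
def NBD_stmt : Prop := ∀ (α β : ℝ → ℝ) (η : ℝ), BA (1 / 8) α → BB (1 / 8) β → 0 < η → η ≤ 1 / 20 →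
  ∃ δ R0 : ℝ, 0 < δ ∧ 1 ≤ R0 ∧ ∀ R w s : ℝ, R0 ≤ R → w1 R ≤ w → w ≤ w0 R → |s - R| ≤ R ^ (η / 2) →
    1 - R ^ (-δ) ≤ R * bk (cc (cw β α w (R ^ (-η)))) R s

/-! ## Completeness of the eigenfunctions -/

/-- **Row NRS** (spanning; short-medium; from RS: NR4, NRL, QU: COM, CVS, CVB, SYM, BDD). Let `S` = the span of the `EigL` functions in `E`. `conv κ` maps an `EigL lam` function `v ∈ E` to an `EigL lam` function in `E` (`lap (conv κ v) = conv (LL κ) v = conv κ (lap v) = lam conv κ v`; `C²` by CVS), so `S` is stable, and by SYM (real radial kernels)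
so is the orthogonal complement `E'` of `S` in `E` (for `∫_F u conj v`, which is definite on continuous invariant functions, BDD). If `E' ≠ ⊥`, NRL gives an `EigL` function with positive norm in `E'`, which is orthogonal to itself. So `E' = ⊥`, `E = S` (finite dimension). -/
def NRS_stmt : Prop := ∀ (Γ : Subgroup SL(2, ℝ)) (F : Set ℍ) (E : Submodule ℂ (ℍ → ℂ)), QU.SurfaceGroup Γ → QU.NiceDom Γ F →
  FiniteDimensional ℂ E → (∀ v ∈ E, InvC Γ v) → (∀ κ : ℝ → ℝ, QU.RK κ → ∀ v ∈ E, QU.conv κ v ∈ E) →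
    E ≤ Submodule.span ℂ {v : ℍ → ℂ | ∃ lam : ℝ, EigL Γ lam v}

/-- the kernel on `F` of a `Γ`-invariant kernel -/
def perH (Γ : Subgroup SL(2, ℝ)) (K : ℍ → ℍ → ℝ) (z w : ℍ) : ℂ := ∑ᶠ γ : Γ, ((K z ((γ : SL(2, ℝ)) • w) : ℝ) : ℂ)

/-- **Row SPK** (compactness; medium; from KO1, QU: DOB, BDD). `perH` is continuous on `ℍ × ℍ` (locally a finite sum), bounded, `Γ`-invariant in both variables, hermitian; so KO1 gives `T`, symmetric. Compact: for `e > 0` cut `F` (relatively compact) into finitely many measurable pieces `U_i ∋ z_i`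
on which `|perH z w - perH z_i w| ≤ e` for all `w` (uniform continuity); the operator with the kernel `perH z_i w` for `z ∈ U_i` has finite rank and differs from `T` by at most `e · vol F`; `isCompactOperator_of_tendsto`. Unfolding: `∫_F perH z w v(w) dw = ∫_ℍ K z w v(w) dw` for bounded measurable invariant `v`. Range: for `v : Lp`
the function `z ↦ ∫_F perH z w v(w) dw` is continuous and invariant. -/
def SPK_stmt : Prop := ∀ (Γ : Subgroup SL(2, ℝ)) (F : Set ℍ) (K : ℍ → ℍ → ℝ), QU.SurfaceGroup Γ → QU.NiceDom Γ F → QU.PKer Γ K →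
  Continuous (Function.uncurry (perH Γ K)) ∧ (∃ B : ℝ, ∀ z w, ‖perH Γ K z w‖ ≤ B) ∧
  (∀ (v : ℍ → ℂ), Continuous v → (∀ (γ : Γ) z, v ((γ : SL(2, ℝ)) • z) = v z) → ∀ z, ∫ w in F, perH Γ K z w * v w = kop K v z) ∧
  (∀ (v : ℍ → ℂ), IntegrableOn v F → InvC Γ (fun z => ∫ w in F, perH Γ K z w * v w)) ∧
  ∃ T : Lp ℂ 2 (volume.restrict F) →L[ℂ] Lp ℂ 2 (volume.restrict F), IsOp (volume.restrict F) (perH Γ K) T ∧ IsCompactOperator T ∧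
    ∀ x y, inner ℂ (T x) y = inner ℂ x (T y)

/-- **Row SPD** (density; medium; from SPK, NRS, RS: NRF, NR4, QU: KFM, APX, CVS, CVB, COM, SYM, BDD, LAK). `Γ`-invariant continuous functions are dense in `L²(F)` (continuous functions with compact support in the interior... or: every `x ∈ L²(F)` is the limit of `T_η x`, see below). Let `K_η` be the kernel of `conv (fam η) ∘ conv (fam η)`, that is
`K_η z w = ∫ fam η (tt z v) fam η (tt v w) dv` (a `PKer`), `T_η` its operator (SPK); `T_η = B_η²` with `B_η` the operator of the `PKer` `fam η (tt z w)`. Let `S ⊆ L²(F)` be the closed span of the classes of all `EigL` functions (they are continuous and invariant). `B_η` maps `S` into `S` (NRS argument: `conv κ` maps `EigL lam` to `EigL lam`), so it maps `Sᗮ` into `Sᗮ`.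
`B_η` restricted to the Hilbert space `Sᗮ` is compact and symmetric; if it is not `0` it has an eigenvector `x ≠ 0` with eigenvalue `q ≠ 0` (`exists nonzero eigenvalue of a compact symmetric operator`: `IsCompactOperator` + `LinearMap.IsSymmetric`, `orthogonalComplement_iSup_eigenspaces_eq_bot`). `v(z) = q⁻¹ ∫_F perH z w x(w) dw` is a continuous invariant
representative (SPK) with `kop K v = q v`; all such `v` form a finite dimensional space `E` (NRF), stable under all `conv κ` (they commute with `B_η`: both kernels are radial). By NRS `E` is spanned by `EigL` functions, so the class of `v` is in `S ∩ Sᗮ = 0`, contradiction. So `B_η = 0` on `Sᗮ` for all `η`; but `B_η x → x` (APX for continuous invariant functions, `‖B_η‖ ≤ 1` by YNG,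
density of the continuous invariant functions: for `x` in `L²(F)` approximate by a bounded function with compact support in `F`... periodise a continuous function with small compact support). So `Sᗮ = 0`. -/
def SPD_stmt : Prop := ∀ (Γ : Subgroup SL(2, ℝ)) (F : Set ℍ), QU.SurfaceGroup Γ → QU.NiceDom Γ F →
  ∀ (u : ℍ → ℂ) (e : ℝ), InvC Γ u → 0 < e → ∃ v ∈ Submodule.span ℂ {v : ℍ → ℂ | ∃ lam : ℝ, EigL Γ lam v}, nn F (fun z => u z - v z) ≤ e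

/-- **Row CPL** (orthonormal families; medium; from SPD, QU: GRN or SYM, BDD, DOB). `v = Σ v_i`, `v_i` in the span of finitely many `EigL lam_i` functions, `lam_1, .., lam_m` distinct. For `lam ≠ lam'` the spaces are orthogonal: `(lam - lam') ∫_F v conj v' = ∫_F (lap v conj v' - v conj (lap v')) = 0` (Green on `Γ\ℍ`: use a partition of unity,
or `conv`: `∫_F conv κ v conj v' = ∫_F v conj (conv κ v')` (SYM) with `κ = LL (fam η)` and `conv (LL κ) v = lam conv κ v`, `conv (fam η) → 1`). In each of the finitely generated spaces take an orthonormal basis (the form `∫_F v conj v'` is definite on it: BDD). So `v` is a combination of an orthonormal family `(v_i)` of `EigL` functions; the combination with the coefficients `a_i = ∫_F u conj v_i`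
is the best approximation in the span: `nn F (u - Σ a_i v_i) ≤ nn F (u - v) ≤ e`. -/
def CPL_stmt : Prop := ∀ (Γ : Subgroup SL(2, ℝ)) (F : Set ℍ), QU.SurfaceGroup Γ → QU.NiceDom Γ F → ∀ (u : ℍ → ℂ) (e : ℝ), InvC Γ u → 0 < e →
  ∃ (n : ℕ) (v : Fin n → ℍ → ℂ) (lam : Fin n → ℝ), (∀ i, EigL Γ (lam i) (v i)) ∧ (∀ i j, ∫ z in F, v i z * conj (v j z) = if i = j then 1 else 0) ∧
    nn F (fun z => u z - ∑ i, (∫ w in F, u w * conj (v i w)) * v i z) ≤ e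

/-- **Row SPM** (spectral mass; short-medium; from QU: GRN or the argument in CPL, BDD, DOB; RS: GFD). `a_i = ∫_F φ conj v_i`; `∫_F ψ conj v_i = (lam_i - 1/4 - R²) a_i` by Green's formula on `Γ\ℍ` for `C²` invariant functions (as in CPL: `∫_F conv κ (lap φ) conj v = ∫_F conv (LL κ) φ conj v = ∫_F φ conj (conv (LL κ) v) = lam ∫_F φ conj (conv κ v)`, `κ = fam η`, `η → 0`).
Bessel's inequality for `φ` and for `ψ`. -/
def SPM_stmt : Prop := ∀ (Γ : Subgroup SL(2, ℝ)) (F : Set ℍ) (R : ℝ) (φ ψ : ℍ → ℂ) (n : ℕ) (v : Fin n → ℍ → ℂ) (lam : Fin n → ℝ), QU.SurfaceGroup Γ → QU.NiceDom Γ F →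
  QU.CD 2 φ → InvC Γ φ → InvC Γ ψ → (∀ z, QU.lap φ z = ((1 / 4 + R ^ 2 : ℝ) : ℂ) * φ z + ψ z) → (∀ i, EigL Γ (lam i) (v i)) →
  (∀ i j, ∫ z in F, v i z * conj (v j z) = if i = j then 1 else 0) →
    ∑ i, (lam i - 1 / 4 - R ^ 2) ^ 2 * ‖∫ w in F, φ w * conj (v i w)‖ ^ 2 ≤ nn F ψ ∧ ∑ i, ‖∫ w in F, φ w * conj (v i w)‖ ^ 2 ≤ nn F φ ∧
    nn F φ = nn F (fun z => φ z - ∑ i, (∫ w in F, φ w * conj (v i w)) * v i z) + ∑ i, ‖∫ w in F, φ w * conj (v i w)‖ ^ 2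

/-- **Row F2** (lower frame bound for quasimodes; medium; from NBD, CPL, SPM, ACC, RS: GR2, GWB, CV1). `c = cw β α w l` is `TB (1/4)`. CPL for `u = φ` with `e = nn F φ R^(-δ)` (if `nn F φ = 0` then `φ = 0`). Let `I` = the set of the `i` with `lam_i = 1/4 + s_i²`, `0 ≤ s_i`, `|s_i - R| ≤ R^(η/2)`. For `i ∉ I`
`|lam_i - 1/4 - R²| ≥ R^(1+η/2)` (`s_i + R ≥ R`; if `lam_i < 1/4` it is `≥ R²`), so `Σ_(i ∉ I) |a_i|² ≤ nn F ψ / R^(2+η) ≤ R^(-3η/4) nn F φ`. `φ = φ' + φ''`, `φ' = Σ_I a_i v_i`, `∫_F v_i conj φ'' = 0` for `i ∈ I`. GR2 (first part, for `v_i` and `u = φ''` or `u = v_j`): `iG F (Wf v_i conj (Wf φ'')) = 0`, so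
`qn φ = qn φ' + qn φ'' ≥ qn φ' = Σ_I |a_i|² bk(s_i) ≥ (1 - R^(-δ')) R⁻¹ Σ_I |a_i|²` (NBD), and `Σ_I |a_i|² ≥ nn F φ - e - R^(-3η/4) nn F φ` (SPM). (`Wf` is linear in the second argument.) -/
def F2_stmt : Prop := ∀ (Γ : Subgroup SL(2, ℝ)) (F : Set ℍ) (α β : ℝ → ℝ) (η : ℝ), QU.SurfaceGroup Γ → QU.NiceDom Γ F → BA (1 / 8) α → BB (1 / 8) β → 0 < η → η ≤ 1 / 20 →
  ∃ δ R0 : ℝ, 0 < δ ∧ 1 ≤ R0 ∧ ∀ (R w : ℝ) (φ ψ : ℍ → ℂ), R0 ≤ R → w1 R ≤ w → w ≤ w0 R → QU.CD 2 φ → InvC Γ φ → InvC Γ ψ →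
    (∀ z, QU.lap φ z = ((1 / 4 + R ^ 2 : ℝ) : ℂ) * φ z + ψ z) → nn F ψ ≤ R ^ (2 + η / 4) * nn F φ →
      (1 - R ^ (-δ)) * nn F φ ≤ R * qn F (cw β α w (R ^ (-η))) R φ

/-! ## Transport -/

/-- **Row TDE** (derivative in time; short-medium; from RS: GWB, GLC). `QQ (w e^(-t)) (g a_t)`: GWB with `h = a_t`: `Wf f φ (g a_t) = Wf (f ∘ a_t⁻¹) φ g`, and `cw β α (w e^(-t)) l (e^(-t) z) (e^(-t) y)^(1/2+iR) = e^(-iRt) w^(-1/2) β(x/w) sc l α (log y - t) y^(1/2+iR)` (the factors `e^(t/2)` cancel). So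
`PT t φ g = Wf (pk R (pc (st (log w) β) (fun τ => sc l α (τ - t)))) φ g`; differentiate under the integral (compact support, locally uniformly in `t`); the derivative is `-Wf (pk R (pc (st (log w) β) ((sc l α)'(· - t)))) φ g`, which is transformed back in the same way; `dY (pc b a) = pc b a'`. -/
def TDE_stmt : Prop := ∀ (Γ : Subgroup SL(2, ℝ)) (α β : ℝ → ℝ) (w l R : ℝ) (φ : ℍ → ℂ), QU.SurfaceGroup Γ → BA (1 / 8) α → BB (1 / 8) β → 0 < w → 0 < l → InvC Γ φ →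
  ∀ (g : SL(2, ℝ)) (t : ℝ), HasDerivAt (fun t => PT β α w l R t φ g)
    (-(Complex.exp (((R * t : ℝ) : ℂ) * Complex.I) * Wf (pk R (QU.dY (cw β α (w * Real.exp (-t)) l))) φ (g * aM t))) t

/-- **Row FLP** (the equation; short; the proof of RS row FL4, QU.A_GRN on real and imaginary parts). `lap (pk R c) = pk R (lap c) - (1+2iR) pk R (dY c) + (1/4+R²) pk R c`; `∫ lap (pk R c) φ(gz) = ∫ pk R c (lap φ)(gz)` (LPI). -/
def FLP_stmt : Prop := ∀ (Γ : Subgroup SL(2, ℝ)) (R : ℝ) (c φ ψ : ℍ → ℂ), TB (1 / 4) c → QU.CD 2 φ → InvC Γ φ → InvC Γ ψ →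
  (∀ z, QU.lap φ z = ((1 / 4 + R ^ 2 : ℝ) : ℂ) * φ z + ψ z) → ∀ g : SL(2, ℝ),
    (1 + 2 * (R : ℂ) * Complex.I) * Wf (pk R (QU.dY c)) φ g = Wf (pk R (QU.lap c)) φ g - Wf (pk R c) ψ g

/-- **Row MOM** (mollifiers; short; from QU: MAS, LAK, CVB). Existence: a smooth bump function `≥ 0`, `0` on `[1/64, ∞)`, divided by its mass (MAS, it does not depend on `z`). Scaling: by MAS the mass of `mo κ ρ` is `c₀ ∫_0^s κ(t/ρ²)/ρ² dt = c₀ ∫ κ`. `|conv (mo κ ρ) V0| ≤ C0`. -/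
def MOM_stmt : Prop := (∃ κ, MO κ) ∧ ∀ κ : ℝ → ℝ, MO κ → ∀ ρ : ℝ, 0 < ρ → QU.RK (mo κ ρ) ∧ (∀ z : ℍ, ∫ w : ℍ, mo κ ρ (QU.tt z w) = 1) ∧
  ∀ (V0 : ℍ → ℝ) (C : ℝ), Continuous V0 → (∀ z, |V0 z| ≤ C) → ∀ z, |QU.conv (mo κ ρ) V0 z| ≤ C

/-- **Row MOA** (pure calculus; medium). In the coordinates `(x, τ)` the function `m(x, τ) = mo κ ρ (tt (pt x τ) w') - mo κ ρ (tt I w')` satisfies for `|x|, |τ| ≤ 1/4`, `ρ ≤ 1/8`: `‖D^n m‖ ≤ C ρ^(-2-n)` for `1 ≤ n ≤ k` and `|m(x,τ)| ≤ C ρ^(-3) (|x| + |τ|)` (mean value theorem), with `C = C(k, κ)`, uniformly in `w'`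
(`tt (pt x τ) w' = ((x - x')² + (e^τ - y')²)/(2 e^τ y')`; only the `w'` with `dist I w' ≤ 1` matter, the others give `0`; on this compact set `tt` is a smooth function with bounded derivatives; `κ(tt/ρ²)/ρ²` by the chain rule `norm_iteratedFDeriv_comp_le`; better than `ρ^(-2-2n)`: where `κ' ≠ 0` one has `tt ≤ ρ²/64`, so the
first derivative of `tt` is `O(ρ)`; the weaker bound `C ρ^(-2-2n)` is also sufficient and is what is stated). Leibniz for the product with the derivatives of `cc (cw ..)` (ACC: `A w^(-j)`): as `ρ⁻² ≤ w⁻¹ (l/ρ³)` for `w ≤ l ρ^6`, the product is in `AC k (C' A (l/ρ^3)/1 ρ⁰..)`: precisely the constant below. Also `m = 0` unless `dist I w' ≤ 2 l + ρ`. -/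
def MOA_stmt : Prop := ∀ (κ : ℝ → ℝ) (k : ℕ), MO κ → ∃ C : ℝ, 0 < C ∧ ∀ (A w l ρ : ℝ) (c : ℍ → ℂ) (w' : ℍ), 0 ≤ A → 0 < w → l ≤ ρ → ρ ≤ 1 / 8 → w ≤ l * ρ ^ (2 * k) → AC k A (1 / w) w l c →
  AC k (C * A * (l * ρ ^ (-4 : ℝ))) (1 / w) w l (fun z => c z * ((mo κ ρ (QU.tt z w') - mo κ ρ (QU.tt I w') : ℝ) : ℂ)) ∧
  ((∀ z : ℍ, c z * ((mo κ ρ (QU.tt z w') - mo κ ρ (QU.tt I w') : ℝ) : ℂ) = 0) ∨ dist I w' ≤ 8 * ρ)

/-- **Row VSP** (freezing the potential; medium; from MOA, GFB, ACC, RS: GWB, GFD, GBD). `V(gz) = ∫ mo κ ρ (tt z w') V0(g w') dw'` (invariance of `tt`), `V(g•I)` the same with `I`. So the function inside is `D(g) = ∫_(dist I w' ≤ 8ρ) V0(g w') Wf (pk R c_w') φ (g) dw'`, `c_w' = cw .. · [mo κ ρ (tt z w') - mo κ ρ (tt I w')]`. Cauchy-Schwarz over the ball (area `≤ C ρ²`):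
`iR F ‖D‖² ≤ Cρ² C0² ∫_(ball) qn F c_w' R φ dw' ≤ (Cρ²)² C0² sup qn`, and GFB with `A = C w^(-1/2) l⁻¹ · l ρ^(-4)`: `qn ≤ C l² ρ^(-8) R⁻¹ nn`. (`w ≤ R^(-1/4) ≤ l ρ^16` for large `R`, as `l = R^(-η)` and `ρ ≥ R^(-η/8)`, `η ≤ 1/20`.) -/
def VSP_stmt : Prop := ∀ (Γ : Subgroup SL(2, ℝ)) (F : Set ℍ) (α β κ : ℝ → ℝ) (C0 η : ℝ), QU.SurfaceGroup Γ → QU.NiceDom Γ F → BA (1 / 8) α → BB (1 / 8) β → MO κ → 0 ≤ C0 → 0 < η → η ≤ 1 / 20 →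
  ∃ K R0 : ℝ, 0 < K ∧ 1 ≤ R0 ∧ ∀ (R w ρ : ℝ) (V : ℍ → ℝ) (φ : ℍ → ℂ), R0 ≤ R → w1 R ≤ w → w ≤ w0 R → R ^ (-(η / 8)) ≤ ρ → ρ ≤ 1 / 8 → Mol Γ κ ρ C0 V → InvC Γ φ →
    iR F (fun g => ‖Wf (pk R (cw β α w (R ^ (-η)))) (fun z => ((V z : ℝ) : ℂ) * φ z) g - ((V (g • I) : ℝ) : ℂ) * QQ β α w (R ^ (-η)) R φ g‖ ^ 2) ≤
      K * R ^ (-η) / R * nn F φ

/-- the hypotheses on the perturbation and the eigenfunction in this block: `f = ϵ V`, `ϵ = R^(-1)` up to powers of the logarithm -/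
structure Quasi (Γ : Subgroup SL(2, ℝ)) (κ : ℝ → ℝ) (C0 a R ρ ϵ μ : ℝ) (V : ℍ → ℝ) (φ : ℍ → ℂ) : Prop where
  mol : Mol Γ κ ρ C0 V
  inv : QU.Inv Γ V
  rho0 : (Real.log R) ^ (-a) ≤ ρ
  rho1 : ρ ≤ 1 / 8
  eps0 : 0 ≤ ϵ
  eps1 : ϵ ≤ (Real.log R) ^ a / R
  mu0 : 0 < μ
  mu1 : |Real.sqrt μ - R| ≤ R ^ (-(1 / 100) : ℝ)
  eig : CEig Γ (fun z => ϵ * V z) μ φ

/-- **Row QPS** (short-medium; from MOM). `ψ = (μ - 1/4 - R²) φ + μ (e^(ϵV) - 1) φ`: `|μ - R²| = |√μ - R| (√μ + R) ≤ 3 R^(99/100)`, `|V| ≤ C0` (MOM), `μ |e^(ϵV) - 1| ≤ 2 R² · 2 ϵ C0 ≤ R^(1+η/16)` for large `R`;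
second order: `|e^x - 1 - x| ≤ x²` for `|x| ≤ 1`. -/
def QPS_stmt : Prop := ∀ (Γ : Subgroup SL(2, ℝ)) (F : Set ℍ) (κ : ℝ → ℝ) (C0 a η : ℝ), QU.SurfaceGroup Γ → QU.NiceDom Γ F → MO κ → 0 ≤ C0 → 0 ≤ a → 0 < η → η ≤ 1 / 20 →
  ∃ R0 : ℝ, 1 ≤ R0 ∧ ∀ (R ρ ϵ μ : ℝ) (V : ℍ → ℝ) (φ : ℍ → ℂ), R0 ≤ R → Quasi Γ κ C0 a R ρ ϵ μ V φ →
    (∀ z, |V z| ≤ C0) ∧ R ^ (-(η / 8)) ≤ ρ ∧ InvC Γ φ ∧ ∃ ψ : ℍ → ℂ, InvC Γ ψ ∧ (∀ z, QU.lap φ z = ((1 / 4 + R ^ 2 : ℝ) : ℂ) * φ z + ψ z) ∧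
      nn F ψ ≤ R ^ (2 + η / 4) * nn F φ ∧
      ∃ χ : ℍ → ℂ, InvC Γ χ ∧ nn F χ ≤ R ^ (2 - 1 / 60 : ℝ) * nn F φ ∧ ∀ z, ψ z = ((R ^ 2 * ϵ : ℝ) : ℂ) * (((V z : ℝ) : ℂ) * φ z) + χ z

/-- **Row TRN** (transport; medium; from TDE, FLP, VSP, GFB, ACC, F1, QPS, RS: GFD, GWB, GBD). `c_t = cw β α (w0 R e^(-t)) l`, `w1 R ≤ w0 R e^(-t)` for `t ≤ tau R`. `y(t) = exp(i th V κ' t g) PT t`, `κ' = R ϵ / 2`; `y' = exp(i th) (PT' + i κ' V(g a_t I) PT)`. TDE, FLP (`lap φ = (1/4+R²)φ + ψ`, QPS): `PT' = -e^(iRt) (1+2iR)⁻¹ (F_(lap c_t) - Wf (pk R c_t) ψ)(g a_t)`, and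
`Wf (pk R c_t) ψ = R²ϵ Wf (pk R c_t)(Vφ) + Wf (pk R c_t) χ`. `R²ϵ/(1+2iR) = -iκ' (1 + 1/(2iR))⁻¹`, so `PT' + iκ' V PT` is the sum of: `(1+2iR)⁻¹ F_(lap c_t)`: by GFB and ACC norm² `≤ C R^(-2) w_t^(-4) R⁻¹ ≤ C R^(-2+3/2-1)`; `(1+2iR)⁻¹ Wf (pk R c_t) χ`: by F1 norm² `≤ R^(-2) 2 R⁻¹ R^(2-1/60)`; `κ'` times the difference of VSP: norm² `≤ κ'² K R^(-η) R⁻¹`;
and `κ'/R` times bounded terms. All are `≤ R^(-1-2δ)` with `δ = δ(η)`. The norms in `L²(X)` are invariant under `g ↦ g a_t` (GFD). Finally `‖y(t) - y(0)‖² ≤ t ∫_0^t ‖y'‖²` (Cauchy-Schwarz for the integral of the continuous function `y'`), integrate over `dG F` (Fubini), `t ≤ log R`. -/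
def TRN_stmt : Prop := ∀ (Γ : Subgroup SL(2, ℝ)) (F : Set ℍ) (α β κ : ℝ → ℝ) (C0 a η : ℝ), QU.SurfaceGroup Γ → QU.NiceDom Γ F → BA (1 / 8) α → BB (1 / 8) β → MO κ → 0 ≤ C0 → 0 ≤ a → 0 < η → η ≤ 1 / 20 →
  ∃ δ R0 : ℝ, 0 < δ ∧ 1 ≤ R0 ∧ ∀ (R ρ ϵ μ t : ℝ) (V : ℍ → ℝ) (φ : ℍ → ℂ), R0 ≤ R → Quasi Γ κ C0 a R ρ ϵ μ V φ → 0 ≤ t → t ≤ tau R →
    R * iR F (fun g => ‖PT β α (w0 R) (R ^ (-η)) R t φ g -
      Complex.exp (-(((th V (R * ϵ / 2) t g : ℝ) : ℂ) * Complex.I)) * QQ β α (w0 R) (R ^ (-η)) R φ g‖ ^ 2) ≤ R ^ (-δ) * nn F φ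

/-! ## Quantisation -/

/-- **Row QNW** (short-medium; from F1, ACC, RS: QNT, GFD). QNT for `h` and for `1 - h` with `η' = e/8`, the frame bound `q = (1 + R^(-δ))/R`; `TB w c` with the `w` of QNT `≥ R^(-η)` (ACC: `TB (l/8)`, monotone). The sum of the two left sides is `qn ≥ (1 - e/4)/R nn`, so both inequalities are nearly equalities. -/
def QNW_stmt : Prop := ∀ (Γ : Subgroup SL(2, ℝ)) (F : Set ℍ) (α β : ℝ → ℝ) (η : ℝ) (h : ℍ → ℝ), QU.SurfaceGroup Γ → QU.NiceDom Γ F → BA (1 / 8) α → BB (1 / 8) β → 0 < η → η ≤ 1 / 20 →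
  QU.Inv Γ h → (∀ z, 0 ≤ h z ∧ h z ≤ 1) → ∀ e : ℝ, 0 < e → ∃ R0 : ℝ, 1 ≤ R0 ∧ ∀ (R w : ℝ) (φ : ℍ → ℂ), R0 ≤ R → w1 R ≤ w → w ≤ w0 R → InvC Γ φ →
    (1 - e / 4) * nn F φ ≤ R * qn F (cw β α w (R ^ (-η))) R φ →
      |R * iR F (fun g => h (g • I) * ‖QQ β α w (R ^ (-η)) R φ g‖ ^ 2) - ∫ z in F, h z * ‖φ z‖ ^ 2| ≤ e * nn F φ

/-- **Row AVG** (medium; from QNW, F1, F2, QPS, TRN, RS: GFD, GWB, GBD, GLC). For `0 ≤ t ≤ tau R`: `‖PT t φ g‖ = ‖QQ (w0 R e^(-t)) φ (g a_t)‖`, so by GFD `R iR F (h((g a_t)•I) ‖PT t φ g‖²) = R iR F (h(g•I) ‖QQ (w0 R e^(-t)) φ g‖²)`, which is within `e/3` of `∫ h|φ|²` (QNW, F2). TRN and `| |x|² - |y|² | ≤ |x-y| (|x|+|y|)`, Cauchy-Schwarz, F1: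
`R iR F (h((g a_t)•I) ‖PT t‖²)` is within `e/3` of `R iR F (h((g a_t)•I) ‖QQ (w0 R) φ g‖²)`. Average over `t ∈ [0, tau R]` (Fubini; everything continuous). Last part: F1 and F2 for `w0 R`. -/
def AVG_stmt : Prop := ∀ (Γ : Subgroup SL(2, ℝ)) (F : Set ℍ) (α β κ : ℝ → ℝ) (C0 a η : ℝ) (h : ℍ → ℝ), QU.SurfaceGroup Γ → QU.NiceDom Γ F → BA (1 / 8) α → BB (1 / 8) β → MO κ → 0 ≤ C0 → 0 ≤ a → 0 < η → η ≤ 1 / 20 →
  QU.Inv Γ h → (∀ z, 0 ≤ h z ∧ h z ≤ 1) → ∀ e : ℝ, 0 < e → ∃ R0 : ℝ, 1 ≤ R0 ∧ ∀ (R ρ ϵ μ : ℝ) (V : ℍ → ℝ) (φ : ℍ → ℂ), R0 ≤ R → Quasi Γ κ C0 a R ρ ϵ μ V φ →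
    |R * iR F (fun g => avh h (tau R) g * ‖QQ β α (w0 R) (R ^ (-η)) R φ g‖ ^ 2) - ∫ z in F, h z * ‖φ z‖ ^ 2| ≤ e * nn F φ ∧
    |R * iR F (fun g => ‖QQ β α (w0 R) (R ^ (-η)) R φ g‖ ^ 2) - nn F φ| ≤ e * nn F φ

end

end Pool.Agent.RPQ
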