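import Pool.Agent.helper11.RPQ.SpecG

/-!
# RPQ (MP_07c750), block U: the operator, the random estimate (interface), the end, rows `rpq:X`

Rules in `Defs.lean`.
-/

open scoped MatrixGroups ContDiff Topology UpperHalfPlane ComplexConjugate
open UpperHalfPlane MeasureTheory Filter Set

namespace Pool.Agent.RPQ

open Pool.Agent.RS
open Pool.Agent.MS (BA BB st pf gk Dk amk)

noncomputable section

/-! ## The operator -/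

/-- **Row UNF** (unfolding; medium; compare the proof of MS row SCH; from RS: GLC, GMG, GLI, GRI, GFD, GPE, GWB). `sy Γ F ē v z = ∫_G v(h) conj e(h⁻¹ z) dh` (`v` invariant), so `Wf e' (sy ē v) g = ∫_G v(h) ∫ e'(z) conj e(h⁻¹ g z) dz dh = ∫_G v(h) G(g⁻¹ h) dh`, `G(k) = ∫ e'(z) conj e(k⁻¹ z) dz`. Here `e' = pk R c'`, `e = pk R c`, `G = gk R c' c`;
with `g aM τ` for `g` and the factors of `uk`, `stK`. Duality: `∫_F sy ē v · conj φ = ∫_(dG F) v conj (Wf e φ)` for `φ` in `InvC` (`GDU`, second part, with `ē`, `u = conj φ`). -/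
def UNF_stmt : Prop := ∀ (Γ : Subgroup SL(2, ℝ)) (F : Set ℍ) (α β : ℝ → ℝ) (η R κ : ℝ) (V : ℍ → ℝ) (v : SL(2, ℝ) → ℂ), QU.SurfaceGroup Γ → QU.NiceDom Γ F → BA (1 / 8) α → BB (1 / 8) β → 0 < η → 1 ≤ R → QU.Inv Γ V →
  Measurable v → (∃ m : ℝ, ∀ g, ‖v g‖ ≤ m) → (∀ (γ : Γ) g, v ((γ : SL(2, ℝ)) * g) = v g) →
    (∀ g, ∫ h, stK V κ (tau R) (uk β α η R) g h * v h ∂mG = Complex.exp (((th V κ (tau R) g : ℝ) : ℂ) * Complex.I) * ((R : ℂ) * Complex.exp (((R * tau R : ℝ) : ℂ) * Complex.I) *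
      QQ β α (w1 R) (R ^ (-η)) R (sy Γ F (fun z => conj (pk R (cw β α (w0 R) (R ^ (-η))) z)) v) (g * aM (tau R)))) ∧
    ∀ φ : ℍ → ℂ, InvC Γ φ → ∫ z in F, sy Γ F (fun z => conj (pk R (cw β α (w0 R) (R ^ (-η))) z)) v z * conj (φ z) =
      ∫ g in dG F, v g * conj (QQ β α (w0 R) (R ^ (-η)) R φ g) ∂mG

/-- **Row UCT** (contraction; short; from UNF, F1, MS: SYB, RS: GFD). `nn F (sy ē v) ≤ ((1+R^(-δ))/R) iR F ‖v‖²` (SYB with F1 for `w0`), `qn F (cw w1) R s ≤ ((1+R^(-δ))/R) nn F s` (F1 for `w1`), translation by `aM (tau R)` (GFD): the product is `R² ((1+R^(-δ))/R)²`. -/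
def UCT_stmt : Prop := ∀ (Γ : Subgroup SL(2, ℝ)) (F : Set ℍ) (α β : ℝ → ℝ) (η : ℝ), QU.SurfaceGroup Γ → QU.NiceDom Γ F → BA (1 / 8) α → BB (1 / 8) β → 0 < η → η ≤ 1 / 20 →
  ∃ δ R0 : ℝ, 0 < δ ∧ 1 ≤ R0 ∧ ∀ (R κ : ℝ) (V : ℍ → ℝ) (v : SL(2, ℝ) → ℂ), R0 ≤ R → QU.Inv Γ V → Measurable v → (∃ m : ℝ, ∀ g, ‖v g‖ ≤ m) → (∀ (γ : Γ) g, v ((γ : SL(2, ℝ)) * g) = v g) →
    iR F (fun g => ‖∫ h, stK V κ (tau R) (uk β α η R) g h * v h ∂mG‖ ^ 2) ≤ (1 + R ^ (-δ)) ^ 2 * iR F (fun g => ‖v g‖ ^ 2)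

/-- **Row UFX** (the fixed vector; medium; from UNF, UCT, F1, F2, QPS, TRN, MS: SYB, RS: GFD, GWB). `b = QQ (w0 R) φ`, `s = sy ē b`. `nn F (R s) ≤ R² ((1+R^(-δ))/R) iR F ‖b‖² ≤ (1+R^(-δ))² nn F φ`; `∫_F R s conj φ = R iR F ‖b‖² ≥ (1 - R^(-δ)) nn F φ` (UNF second part, F2 with `ψ` of QPS). So `nn F (R s - φ) ≤ ((1+R^(-δ))² - 2 (1-R^(-δ)) + 1) nn F φ ≤ 5 R^(-δ) nn F φ`.
`∫ stK .. b = e^(i th) e^(iRτ) QQ (w1 R) (R s)(g a_τ)`, and `e^(iRτ) QQ (w1 R) φ (g a_τ) = PT (tau R) φ g` (`w0 R e^(-τ) = w1 R`), which is within `R^(-δ)` of `e^(-i th) b` (TRN). All norms times `R`; triangle inequality. -/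
def UFX_stmt : Prop := ∀ (Γ : Subgroup SL(2, ℝ)) (F : Set ℍ) (α β κ : ℝ → ℝ) (C0 a η : ℝ), QU.SurfaceGroup Γ → QU.NiceDom Γ F → BA (1 / 8) α → BB (1 / 8) β → MO κ → 0 ≤ C0 → 0 ≤ a → 0 < η → η ≤ 1 / 20 →
  ∃ δ R0 : ℝ, 0 < δ ∧ 1 ≤ R0 ∧ ∀ (R ρ ϵ μ : ℝ) (V : ℍ → ℝ) (φ : ℍ → ℂ), R0 ≤ R → Quasi Γ κ C0 a R ρ ϵ μ V φ →
    R * iR F (fun g => ‖(∫ h, stK V (R * ϵ / 2) (tau R) (uk β α η R) g h * QQ β α (w0 R) (R ^ (-η)) R φ h ∂mG) - QQ β α (w0 R) (R ^ (-η)) R φ g‖ ^ 2) ≤ R ^ (-δ) * nn F φ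

/-- **Row UOP** (the operator on `L²(Γ\G)`; medium; from UCT, UFX, UKB, GRW, KPG, KPS, KO1, KO2, KO3, P: GKD (measurability of `uk`), CWB). `C1` is the constant of UKB. `K = stK V κ' τ uk`, `K' = stK V κ' τ ut`, `|K - K'| ≤ R^(-2)` (UKB), `|perK K - perK K'| ≤ n R^(-2)`, `n` = the number of `γ` with `dist (g•I) (γh•I) ≤ D + τ`: at most `C e^(D+τ) ≤ C' R^(1/8)` (GRW), so the difference operator has norm `≤ R^(-1)`. By KO3, KPG (unfolding) and UCT the operator of `perK K` has norm `≤ 1 + R^(-δ)` (bounded functions on `dG F` extend to invariant functions; KPG). For `Φ = √R QQ` (bounded, invariant, continuous): UFX. -/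
def UOP_stmt : Prop := ∀ (Γ : Subgroup SL(2, ℝ)) (F : Set ℍ) (α β κ : ℝ → ℝ) (C0 η ε : ℝ), QU.SurfaceGroup Γ → QU.NiceDom Γ F → BA (1 / 8) α → BB (1 / 8) β → MO κ → 0 ≤ C0 → 0 < η → η ≤ 1 / 20 → 0 < ε → ε ≤ 1 / 20 →
  ∃ C1 : ℝ, 1 ≤ C1 ∧ ∀ C a : ℝ, C1 ≤ C → 0 ≤ a → ∃ δ R0 : ℝ, 0 < δ ∧ 1 ≤ R0 ∧ ∀ (R ρ ϵ μ : ℝ) (V : ℍ → ℝ) (φ : ℍ → ℂ), R0 ≤ R → Quasi Γ κ C0 a R ρ ϵ μ V φ →
    ∀ T : Lp ℂ 2 (mG.restrict (dG F)) →L[ℂ] Lp ℂ 2 (mG.restrict (dG F)), IsOp (mG.restrict (dG F)) (perK Γ (stK V (R * ϵ / 2) (tau R) (ut β α C η ε R))) T →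
      ‖T‖ ≤ 1 + R ^ (-δ) ∧ ∀ Φ : Lp ℂ 2 (mG.restrict (dG F)), (Φ : SL(2, ℝ) → ℂ) =ᵐ[mG.restrict (dG F)] (fun g => ((Real.sqrt R : ℝ) : ℂ) * QQ β α (w0 R) (R ^ (-η)) R φ g) →
        nn F φ ≤ 1 → ‖T Φ - Φ‖ ≤ R ^ (-δ)

/-! ## The deterministic conclusion -/

/-- the words are small -/
def WS (Γ : Subgroup SL(2, ℝ)) (F : Set ℍ) (K : SL(2, ℝ) → SL(2, ℝ) → ℂ) (δ : ℝ) : Prop :=
  ∫⁻ g in dG F, ∫⁻ h in dG F, ‖perK Γ K g h‖ₑ ^ 2 ∂mG ∂mG ≤ ENNReal.ofReal (δ ^ 2)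

/-- the admissible lists: the words of `L` powers of `𝒰^9` with exponents `≤ n` -/
def AdL (L n : ℕ) : Set (List ℕ) := {l | ∃ b : List ℕ, b.length = L ∧ (∀ x ∈ b, x < n) ∧ l = b.map (fun x => 9 * x + 8)}

/-- **Row DET** (medium; from WRD, UOP, AVG, KO1, KO2, KPG, KPS, OPW, LDV for the measurability of `FB`). We may assume `nn F φ = 1` (if `nn F φ = 0` both sides vanish; otherwise scale). `T` = the operator of UOP (KO1, KPG, KPS), `P` = multiplication by the indicator function of `A = FB F h e τ` (KO2), `𝒱 = c^9 T^9` with `c = (1 + R^(-δ))⁻¹`: a contraction,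
`‖𝒱Φ - Φ‖ ≤ 9 (R^(-δ) + R^(-δ)) ` small, `Φ` = the class of `√R QQ`, divided by `max(1, ‖Φ‖)` (`‖Φ‖² = R iR F ‖QQ‖² ∈ [1-e, 1+e]`, AVG). `wrd 𝒱 P b = c^(..) wrd T P (b.map (9x+8))`, of norm `≤ δ0` by OPW and WS (`L ≥ 1`; Bochner and lower integrals agree, everything is bounded). WRD with `ε = e`: `R ∫_(dG F ∩ A) ‖QQ‖² ≤ (1+e)((2L+1)/n + e)`. AVG:
`∫_F h|φ|²` is within `e` of `R iR F (avh h τ ‖QQ‖²)`; `|avh h τ g - mean F h| ≤ e` off `A` and `≤ 1` on `A`. Total error `≤ e + e(1+e) + (1+e)((2L+1)/n + e) + e ≤ (2L+1)/n·2 + 10 e`. -/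
def DET_stmt : Prop := ∀ (Γ : Subgroup SL(2, ℝ)) (F : Set ℍ) (α β κ : ℝ → ℝ) (C0 η ε : ℝ), QU.SurfaceGroup Γ → QU.NiceDom Γ F → BA (1 / 8) α → BB (1 / 8) β → MO κ → 0 ≤ C0 → 0 < η → η ≤ 1 / 20 → 0 < ε → ε ≤ 1 / 20 →
  ∀ (L n : ℕ) (e : ℝ), 1 ≤ L → 1 ≤ n → 0 < e → e ≤ 1 → ∃ (C1 δ0 : ℝ), 1 ≤ C1 ∧ 0 < δ0 ∧ ∀ C a : ℝ, C1 ≤ C → 0 ≤ a → ∀ h : ℍ → ℝ, QU.Inv Γ h → (∀ z, 0 ≤ h z ∧ h z ≤ 1) → ∃ R0 : ℝ, 1 ≤ R0 ∧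
    ∀ (R ρ ϵ μ : ℝ) (V : ℍ → ℝ) (φ : ℍ → ℂ), R0 ≤ R → Quasi Γ κ C0 a R ρ ϵ μ V φ →
      (∀ l ∈ AdL L n, WS Γ F (wdK V (R * ϵ / 2) (tau R) (ut β α C η ε R) (FB F h e (tau R)) l) δ0) →
        |(∫ z in F, h z * ‖φ z‖ ^ 2) - mean F h * nn F φ| ≤ (2 * ((2 * L + 1) / n) + 10 * e) * nn F φ

/-! ## The random estimate (proved in block R) -/

/-- the cube -/
def cube (J : ℕ) : Set (Fin J → ℝ) := {ξ | ∀ j, |ξ j| ≤ 1}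

/-- the second moment of the words; from SNC, PIN, EHS, MCV, BLK, CNT, UKB -/
def WEX_stmt : Prop := ∀ (Γ : Subgroup SL(2, ℝ)) (F : Set ℍ) (α β κ : ℝ → ℝ) (C0 B θ C1 : ℝ) (L N : ℕ), QU.SurfaceGroup Γ → QU.NiceDom Γ F → BA (1 / 8) α → BB (1 / 8) β → MO κ → 0 ≤ B → 0 < θ → 0 < C1 → 1 ≤ L →
  B + 5 ≤ (L + 1) * θ / 8 → ∃ (η ε C2 : ℝ), 0 < η ∧ η ≤ 1 / 20 ∧ 0 < ε ∧ ε ≤ 1 / 20 ∧ 1 ≤ C2 ∧ ∀ C : ℝ, C2 ≤ C → ∃ a R0 : ℝ, 1 ≤ a ∧ 3 ≤ R0 ∧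
    ∀ (R ρ K : ℝ) (J : ℕ) (p : Fin J → ℍ) (χ : Fin J → ℍ → ℝ) (A : Set SL(2, ℝ)) (l : List ℕ), R0 ≤ R → (Real.log R) ^ (-(2 * a + 2)) / 2 ≤ ρ → ρ ≤ (Real.log R) ^ (-(2 * a + 2)) → 8 / ρ ≤ K → Net Γ κ ρ C0 J p χ →
      MeasurableSet A → (∀ (γ : Γ) (g : SL(2, ℝ)), (γ : SL(2, ℝ)) * g ∈ A ↔ g ∈ A) → mG (dG F ∩ A) ≤ ENNReal.ofReal (C1 * R ^ (-(θ / 8))) →
      l.length = L → (∀ n ∈ l, 9 ≤ n + 1) → (l.map (fun n => n + 1)).sum ≤ N →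
        ∫⁻ ξ in cube J, ∫⁻ g in dG F, ∫⁻ h in dG F, ‖perK Γ (wdK (VV χ ξ) K (tau R) (ut β α C η ε R) A l) g h‖ₑ ^ 2 ∂mG ∂mG ≤
          ENNReal.ofReal (R ^ (-(B + 3))) * volume (cube J)

/-- **Row MEX** (measurability in `ξ`; medium; from RS: GLC, GMG). `th (VV χ ξ) K τ g = Σ ξ_j th (χ j) K τ g` is jointly continuous; `stK`, and by induction `itK`, `wdK` are jointly measurable in `(ξ, g, h)` (`StronglyMeasurable.integral_prod_right'`), so is `perK` (a countable `finsum` with uniformly finite supports: the limit of finite sums over an exhaustion of the countable group `Γ`),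
and the double lower integral is measurable in `ξ` (`Measurable.lintegral_prod_right'`). -/
def MEX_stmt : Prop := ∀ (Γ : Subgroup SL(2, ℝ)) (F : Set ℍ) (K t : ℝ) (u : SL(2, ℝ) → ℂ) (A : Set SL(2, ℝ)) (l : List ℕ) (J : ℕ) (χ : Fin J → ℍ → ℝ), QU.SurfaceGroup Γ → QU.NiceDom Γ F → (∀ j, QU.Inv Γ (χ j)) → Measurable u → (∃ B : ℝ, ∀ b, ‖u b‖ ≤ B) →
  (∃ D : ℝ, ∀ b, u b ≠ 0 → ∀ i j, |b.1 i j| ≤ D) → MeasurableSet A → (∀ (γ : Γ) (g : SL(2, ℝ)), (γ : SL(2, ℝ)) * g ∈ A ↔ g ∈ A) →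
    Measurable (fun ξ : Fin J → ℝ => ∫⁻ g in dG F, ∫⁻ h in dG F, ‖perK Γ (wdK (VV χ ξ) K t u A l) g h‖ₑ ^ 2 ∂mG ∂mG)

/-! ## The end -/

/-- **Row LNT** (finite nets of Lipschitz functions; short-medium; from QU: BDD, DOB, DOM). Compact `K ⊆ ℍ` with `ΓK = ℍ`; a finite `e/4`-net `z_1, .., z_m` of `K`; a 1-Lipschitz invariant `h` takes values in an interval of length `D = diam K + ..`; replace it by `(h - inf h)/D' ∈ [0, 1]`. The functions are determined up to `e` by their values at the `z_i` rounded to multiples of `e/4`: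
finitely many classes; choose one member of every nonempty class (Arzelà-Ascoli by hand). -/
def LNT_stmt : Prop := ∀ (Γ : Subgroup SL(2, ℝ)), QU.SurfaceGroup Γ → ∃ D : ℝ, 1 ≤ D ∧ ∀ e : ℝ, 0 < e → ∃ S : Finset (ℍ → ℝ), (∀ h ∈ S, QU.Inv Γ h ∧ ∀ z, 0 ≤ h z ∧ h z ≤ 1) ∧
  ∀ h : ℍ → ℝ, QU.Inv Γ h → (∀ z w, |h z - h w| ≤ dist z w) → ∃ (c : ℝ), ∃ h' ∈ S, ∀ z, |(h z - c) / D - h' z| ≤ e

/-- `φ` is `ε`-equidistributed for the metric `e^f g` -/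
def Eqd (Γ : Subgroup SL(2, ℝ)) (F : Set ℍ) (f : ℍ → ℝ) (ε : ℝ) (φ : ℍ → ℂ) : Prop :=
  ∀ h : ℍ → ℝ, QU.Inv Γ h → (∀ z w, |h z - h w| ≤ dist z w) →
    |(∫ z in F, h z * ‖φ z‖ ^ 2 * Real.exp (f z)) - (∫ z in F, h z * Real.exp (f z)) / (∫ z in F, Real.exp (f z)) * ∫ z in F, ‖φ z‖ ^ 2 * Real.exp (f z)| ≤
      ε * ∫ z in F, ‖φ z‖ ^ 2 * Real.exp (f z)

/-- the statement for all eigenfunctions with frequency in `[r, r']` -/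
def Good (Γ : Subgroup SL(2, ℝ)) (f : ℍ → ℝ) (ε r r' : ℝ) : Prop := ∀ (F : Set ℍ) (μ : ℝ) (φ : ℍ → ℂ), QU.NiceDom Γ F → r ^ 2 ≤ μ → μ ≤ r' ^ 2 → CEig Γ f μ φ → Eqd Γ F f ε φ

/-- **Row MFC** (change of the measure; short-medium; from QU: DOB, BDD). `|f| ≤ δ`, `e^f = 1 + O(δ)`; the integrals over `F'` and `F` agree for invariant functions; a 1-Lipschitz invariant `h` minus a constant is bounded by `2D` (LNT-type bound: `h` and `h + const` give the same expression). From the statement with `e` for the finitely many `h'` to `Eqd`: error `≤ D (e0 + 2e + C δ)`. -/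
def MFC_stmt : Prop := ∀ Γ : Subgroup SL(2, ℝ), QU.SurfaceGroup Γ → ∃ C : ℝ, 1 ≤ C ∧ ∀ (F : Set ℍ) (f : ℍ → ℝ) (D e δ c : ℝ) (h h' : ℍ → ℝ) (φ : ℍ → ℂ), QU.NiceDom Γ F → QU.Inv Γ f → QU.Inv Γ h → QU.Inv Γ h' → InvC Γ φ → 1 ≤ D → 0 ≤ e → 0 ≤ δ → δ ≤ 1 →
  (∀ z, |f z| ≤ δ) → (∀ z, 0 ≤ h' z ∧ h' z ≤ 1) → (∀ z, |(h z - c) / D - h' z| ≤ e) → |(∫ z in F, h' z * ‖φ z‖ ^ 2) - mean F h' * nn F φ| ≤ e * nn F φ →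
    |(∫ z in F, h z * ‖φ z‖ ^ 2 * Real.exp (f z)) - (∫ z in F, h z * Real.exp (f z)) / (∫ z in F, Real.exp (f z)) * ∫ z in F, ‖φ z‖ ^ 2 * Real.exp (f z)| ≤
      C * D * (e + δ) * ∫ z in F, ‖φ z‖ ^ 2 * Real.exp (f z)

/-- **Row PRB** (one frequency of packets; medium-long; from DET, WEX, LDV, LNT, MFC, MOM, MEX, UKB, P: GKD, QU: DOM, DOB). Given `ε`, `B`, `A`. `D` from LNT, `C` from MFC; `e ≤ ε/(100 C D)`; `S` from LNT for `e`; for each `h' ∈ S` LDV with `e`: `θ` = the minimum of the exponents, `C1` = the maximum of the constants; `L` with `B + 5 + .. ≤ (L+1) θ/8`, `n` with `2 (2L+1)/n ≤ e`, `N = 9 n L`; `η, ε', C2` from WEX; `C1'` from DET;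
`C = max`; `a` from WEX for this `C`; then `R0` from DET for `a' = 2a + 3 + A`. `Quasi` with exponent `a'`: `ρ ≥ (log R)^(-a')`, `ϵ ≤ (log R)^A/(ρ R) ≤ (log R)^(a')/R`; `K = Rϵ/2 ≥ 8/ρ`. For every `h' ∈ S` and every `l ∈ AdL L n` (finite set): Markov: the set of `ξ ∈ cube` with `¬ WS` has measure `≤ R^(-(B+3)) δ0⁻² vol(cube)` (measurability: MEX). The union has measure `≤ R^(-(B+2)) vol(cube)`.
Outside, DET for all `h' ∈ S` and MFC (`f = ϵ V`, `|f| ≤ ϵ C0`). (A fixed nice `F₀` in WEX, DET; MFC for the given `F`, the integrals of invariant functions agree: DOB.) -/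
def PRB_stmt : Prop := ∀ (Γ : Subgroup SL(2, ℝ)) (κ : ℝ → ℝ) (C0 ε B A : ℝ), QU.SurfaceGroup Γ → MO κ → 0 ≤ C0 → 0 < ε → 0 ≤ B → 1 ≤ A → ∃ a R0 : ℝ, 1 ≤ a ∧ 3 ≤ R0 ∧
  ∀ (R ρ ϵ : ℝ) (J : ℕ) (p : Fin J → ℍ) (χ : Fin J → ℍ → ℝ), R0 ≤ R → (Real.log R) ^ (-(2 * a + 2)) / 2 ≤ ρ → ρ ≤ (Real.log R) ^ (-(2 * a + 2)) → 16 / (ρ * R) ≤ ϵ → ϵ ≤ (Real.log R) ^ A / (ρ * R) → Net Γ κ ρ C0 J p χ →
    volume {ξ : Fin J → ℝ | ξ ∈ cube J ∧ ¬ ∀ (F : Set ℍ) (μ : ℝ) (φ : ℍ → ℂ), QU.NiceDom Γ F → 0 < μ → |Real.sqrt μ - R| ≤ R ^ (-(1 / 100) : ℝ) → CEig Γ (fun z => ϵ * VV χ ξ z) μ φ → Eqd Γ F (fun z => ϵ * VV χ ξ z) ε φ} ≤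
      ENNReal.ofReal (R ^ (-(B + 2))) * volume (cube J)

/-- **Row FIN** (short-medium; from PRB, BMP, MOM, CKB). PRB with `A + 1`. `ρ = (3/4) (log r)^(-(2a+2))`: for all `R ∈ [r, 2 r (log r)^A]`, `r` large, `(log R)^(-(2a+2))/2 ≤ ρ ≤ (log R)^(-(2a+2))` (`log R / log r → 1` uniformly); net from BMP, `ϵ = 16/(ρ r)`; `16/(ρR) ≤ ϵ ≤ (log R)^(A+1)/(ρ R)` as `16 R ≤ 32 r (log r)^A ≤ r (log R)^(A+1)`. The frequencies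
`R_i = r + i r^(-1/50)`, `0 ≤ i ≤ r^(1+1/50) (log r)^A + 1`; every `μ` with `r² ≤ μ ≤ (r (log r)^A)²` has `|√μ - R_i| ≤ r^(-1/50) ≤ R_i^(-1/100)` for some `i` (`R_i ≤ r²`). Union bound: `(r^(1+1/50) (log r)^A + 2) r^(-(B+2)) ≤ r^(-B)`.
The functions `ϵ χ_j` are `CD ∞` and invariant. CKB for `V0` of `Net.mol`: `CkB k (ϵ V) (ϵ C_k C0 ρ^(-2k))`, `ϵ = 16 r⁻¹ (4/3)(log r)^(2a+2)`: `≤ C_k' r⁻¹ (log r)^((4a+4)(k+1))`. -/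
def FIN_stmt : Prop := ∀ (Γ : Subgroup SL(2, ℝ)) (ε B A : ℝ), QU.SurfaceGroup Γ → 0 < ε → 0 < B → 0 < A → ∃ (a r0 : ℝ) (C : ℕ → ℝ), 3 ≤ r0 ∧ ∀ r : ℝ, r0 ≤ r → ∃ (J : ℕ) (f : Fin J → ℍ → ℝ), (∀ j, QU.CD ∞ (f j) ∧ QU.Inv Γ (f j)) ∧
  (∀ ξ ∈ cube J, ∀ k : ℕ, CkB k (fun z => ∑ j, ξ j * f j z) (C k * r⁻¹ * (Real.log r) ^ (a * (k + 1)))) ∧
  volume {ξ | ξ ∈ cube J ∧ ¬ Good Γ (fun z => ∑ j, ξ j * f j z) ε r (r * (Real.log r) ^ A)} ≤ ENNReal.ofReal (r ^ (-B)) * volume (cube J)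

end

end Pool.Agent.RPQ
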